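import Pool.Agent.Work.MP_659252_gt.QR.L.BilA

/-!
# The bilinear form `Kb`, expansions along `a + x b`.  Size: M.

PROOF.  Direct from `BilA`, `bil_comm`, `bil_add_left`, ... (`Bas`), linearity of `fderiv`.  `Kq_eq`: by definition.  `DD_exp`, `D3_exp`, `Kb_exp`: bilinearity (trilinearity) and symmetry.
`Kb_smooth`: sums and products of smooth functions.  `shift0`: `DD f P (v + c P) (v + c P) = DD v v + 2 c DD v P + c² DD P P`, `DD f P v P = -fderiv f P v = 0`, `DD f P P P = -fderiv f P P = 0`.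
-/

namespace Pool.Agent.Work.MP_659252_gt.QR

open scoped ContDiff Topology
open Pool.Agent.Work.MP_659252_gt.Z (V Ten val Tan InT IsZoll IsMetric IsGeodesic)

variable {d : ℕ}

theorem Kq_eq (f w : V d → ℝ) (k : Ten d) (x v : V d) : Kq f w k x v = Kb f w k x v v := by
  simp only [Kq, Kb, DD]
  ring

theorem Kb_comm (f w : V d → ℝ) (k : Ten d) (fs : ContDiffOn ℝ ∞ f {0}ᶜ) (ks : ∀ x i j, k x i j = k x j i)
    (x : V d) (hx : x ≠ 0) (a b : V d) : Kb f w k x a b = Kb f w k x b a := by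
  simp only [Kb]
  rw [bil_comm (ks x) a b, DD_comm f fs x hx a b]
  ring

theorem Kb_add_right (f w : V d → ℝ) (k : Ten d) (x a b c : V d) :
    Kb f w k x a (b + c) = Kb f w k x a b + Kb f w k x a c := by
  simp only [Kb, bil_add_right, DD_add_right, map_add]
  ring

theorem Kb_smul_right (f w : V d → ℝ) (k : Ten d) (x a b : V d) (s : ℝ) :
    Kb f w k x a (s • b) = s * Kb f w k x a b := by
  simp only [Kb, bil_smul_right, DD_smul_right, map_smul, smul_eq_mul]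
  ring

theorem Kb_smooth (f w : V d → ℝ) (k : Ten d) (fs : ContDiffOn ℝ ∞ f {0}ᶜ) (ws : ContDiffOn ℝ ∞ w {0}ᶜ)
    (ks : ContDiffOn ℝ ∞ k {0}ᶜ) :
    ContDiffOn ℝ ∞ (fun p : V d × V d × V d => Kb f w k p.1 p.2.1 p.2.2) ({0}ᶜ ×ˢ Set.univ) := by
  have ho : IsOpen ({0}ᶜ : Set (V d)) := isOpen_compl_singleton
  have hm : Set.MapsTo (fun p : V d × V d × V d => p.1) ({0}ᶜ ×ˢ Set.univ) ({0}ᶜ : Set (V d)) := fun p hp => hp.1
  have hfst : ContDiffOn ℝ ∞ (fun p : V d × V d × V d => p.1) ({0}ᶜ ×ˢ Set.univ) := contDiff_fst.contDiffOn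
  have ha : ContDiffOn ℝ ∞ (fun p : V d × V d × V d => p.2.1) ({0}ᶜ ×ˢ Set.univ) :=
    (contDiff_fst.comp contDiff_snd).contDiffOn
  have hb : ContDiffOn ℝ ∞ (fun p : V d × V d × V d => p.2.2) ({0}ᶜ ×ˢ Set.univ) :=
    (contDiff_snd.comp contDiff_snd).contDiffOn
  have hfd : ∀ g : V d → ℝ, ContDiffOn ℝ ∞ g {0}ᶜ →
      ContDiffOn ℝ ∞ (fun p : V d × V d × V d => fderiv ℝ g p.1) ({0}ᶜ ×ˢ Set.univ) := fun g hg =>
    (hg.fderiv_of_isOpen ho (m := ∞) (by simp)).comp hfst hm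
  have hw : ContDiffOn ℝ ∞ (fun p : V d × V d × V d => w p.1) ({0}ᶜ ×ˢ Set.univ) := ws.comp hfst hm
  have hk : ∀ i j, ContDiffOn ℝ ∞ (fun p : V d × V d × V d => k p.1 i j) ({0}ᶜ ×ˢ Set.univ) := fun i j =>
    contDiffOn_pi.1 (contDiffOn_pi.1 (ks.comp hfst hm) i) j
  have hai : ∀ i, ContDiffOn ℝ ∞ (fun p : V d × V d × V d => p.2.1 i) ({0}ᶜ ×ˢ Set.univ) := fun i =>
    contDiffOn_pi.1 ha i
  have hbi : ∀ i, ContDiffOn ℝ ∞ (fun p : V d × V d × V d => p.2.2 i) ({0}ᶜ ×ˢ Set.univ) := fun i =>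
    contDiffOn_pi.1 hb i
  have h1 : ContDiffOn ℝ ∞ (fun p : V d × V d × V d => bil (k p.1) p.2.1 p.2.2) ({0}ᶜ ×ˢ Set.univ) := by
    simp only [bil]
    exact ContDiffOn.sum fun i _ => ContDiffOn.sum fun j _ => (hk i j).mul ((hai i).mul (hbi j))
  have h2 := DD_smooth f fs
  have h3 : ContDiffOn ℝ ∞ (fun p : V d × V d × V d => fderiv ℝ w p.1 p.2.1) ({0}ᶜ ×ˢ Set.univ) :=
    (hfd w ws).clm_apply ha
  have h4 : ContDiffOn ℝ ∞ (fun p : V d × V d × V d => fderiv ℝ w p.1 p.2.2) ({0}ᶜ ×ˢ Set.univ) :=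
    (hfd w ws).clm_apply hb
  have h5 : ContDiffOn ℝ ∞ (fun p : V d × V d × V d => fderiv ℝ f p.1 p.2.1) ({0}ᶜ ×ˢ Set.univ) :=
    (hfd f fs).clm_apply ha
  have h6 : ContDiffOn ℝ ∞ (fun p : V d × V d × V d => fderiv ℝ f p.1 p.2.2) ({0}ᶜ ×ˢ Set.univ) :=
    (hfd f fs).clm_apply hb
  simp only [Kb]
  exact (h1.sub (hw.mul h2)).sub (contDiffOn_const.mul ((h3.mul h6).add (h4.mul h5)))

theorem DD_exp (f : V d → ℝ) (fs : ContDiffOn ℝ ∞ f {0}ᶜ) (x : V d) (hx : x ≠ 0) (a b : V d) (s : ℝ) :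
    DD f x (a + s • b) (a + s • b) = DD f x a a + 2 * DD f x a b * s + DD f x b b * s ^ 2 := by
  rw [DD_add_right, DD_smul_right, DD_add_left f fs x hx, DD_add_left f fs x hx, DD_smul_left f fs x hx,
    DD_smul_left f fs x hx, DD_comm f fs x hx b a]
  ring

theorem D3_exp (f : V d → ℝ) (fs : ContDiffOn ℝ ∞ f {0}ᶜ) (x : V d) (hx : x ≠ 0) (a b : V d) (s : ℝ) :
    D3 f x (a + s • b) (a + s • b) (a + s • b) =
      D3 f x a a a + 3 * D3 f x a a b * s + 3 * D3 f x a b b * s ^ 2 + D3 f x b b b * s ^ 3 := by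
  have e1 : ∀ u v : V d, D3 f x u v (a + s • b) = D3 f x u v a + s * D3 f x u v b := fun u v => by
    rw [D3_add_right, D3_smul_right]
  have e2 : ∀ u v : V d, D3 f x u (a + s • b) v = D3 f x u a v + s * D3 f x u b v := fun u v => by
    rw [D3_comm23 f fs x hx u (a + s • b) v, e1, D3_comm23 f fs x hx u v a, D3_comm23 f fs x hx u v b]
  have e3 : ∀ u v : V d, D3 f x (a + s • b) u v = D3 f x a u v + s * D3 f x b u v := fun u v => by
    rw [D3_comm12 f fs x hx (a + s • b) u v, e2, D3_comm12 f fs x hx u a v, D3_comm12 f fs x hx u b v]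
  have c1 : D3 f x a b a = D3 f x a a b := D3_comm23 f fs x hx a b a
  have c2 : D3 f x b a a = D3 f x a a b := by rw [D3_comm12 f fs x hx b a a, c1]
  have c3 : D3 f x b a b = D3 f x a b b := D3_comm12 f fs x hx b a b
  have c4 : D3 f x b b a = D3 f x a b b := by rw [D3_comm23 f fs x hx b b a, c3]
  rw [e1, e2, e2, e3, e3, e3, e3, c1, c2, c3, c4]
  ring

theorem Kb_exp (f w : V d → ℝ) (k : Ten d) (fs : ContDiffOn ℝ ∞ f {0}ᶜ) (ks : ∀ x i j, k x i j = k x j i)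
    (x : V d) (hx : x ≠ 0) (a b : V d) (s : ℝ) :
    Kb f w k x (a + s • b) (a + s • b) = Kb f w k x a a + 2 * Kb f w k x a b * s + Kb f w k x b b * s ^ 2 := by
  rw [Kb_add_right, Kb_smul_right, Kb_comm f w k fs ks x hx (a + s • b) a, Kb_add_right, Kb_smul_right,
    Kb_comm f w k fs ks x hx (a + s • b) b, Kb_add_right, Kb_smul_right, Kb_comm f w k fs ks x hx b a]
  ring

theorem shift0 (f : V d → ℝ) (fs : ContDiffOn ℝ ∞ f {0}ᶜ) (fh : ∀ (c : ℝ) (x : V d), c ≠ 0 → f (c • x) = f x)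
    (x : V d) (hx : x ≠ 0) (v : V d) (hv : fderiv ℝ f x v = 0) (c : ℝ) :
    DD f x (v + c • x) (v + c • x) = DD f x v v ∧ fderiv ℝ f x (v + c • x) = 0 := by
  have h1 : DD f x v x = 0 := by rw [euler2 f fs fh x hx v, hv, neg_zero]
  have h2 : DD f x x x = 0 := by rw [euler2 f fs fh x hx x, euler1 f fs fh x hx, neg_zero]
  refine ⟨?_, ?_⟩
  · rw [DD_exp f fs x hx v x c, h1, h2]
    ring
  · rw [map_add, map_smul, hv, euler1 f fs fh x hx]
    simp

end Pool.Agent.Work.MP_659252_gt.QR
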