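import Pool.Agent.Work.MP_659252_gt.QR.L.Defs

/-!
# The algebra: evaluation at a complex root of `κ`.  Size: M.

Let `z = (-B + i √(A C - B²))/C`, a complex number which is not real, with `A + 2 B z + C z² = 0`.
`R0 = R1 = 0` from `c(z) = 0`: `C² (c0 + 3 c1 z + 3 c2 z² + c3 z³) = R0 + R1 z` modulo `κ(z) = 0`, where `R0 = c0 C² - 3 A C c2 + 2 A B c3`, `R1 = 3 c1 C² - A C c3 - 6 B C c2 + 4 B² c3`
(use `C z² = -A - 2 B z`); compare imaginary parts, then real parts.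
`alg1`: the hypothesis is an identity of real polynomials (`Polynomial.funext`, with `LL` in the ring of polynomials), so it holds at `z` (`Polynomial.aeval z`):
with `κ(z) = 0`: `K0(z) LL(0, c(z), ..) = 0`, and `LL 0 c γ G H1 H2 K0 .. = 4 c² G K0`.  So `4 G K0(z)² c(z)² = 0`: either `c(z) = 0` (first alternative) or `K0(z) = 0`, and then
`C K0(z) = (k0 C - k2 A) + (2 k1 C - 2 k2 B) z` gives the second alternative.
`alg2`: now `K0 = s κ`, `K1 = κ ℓ - s c`, `ℓ = α + β X`.  `LL = κ * N` with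
`N = 6κ²E1 + 6κK2G + 6K1(cG + 2κH1) + s(2κγG + 3c²G + 6κcH1 + 6κ²H2) + 2cκE0 + 2cK1G + c s (cG + 2κH1)` (`ring`), so `s κ² N = κ⁴ q` and, cancelling `κ² ≠ 0` in the polynomial ring, `s N = κ² q`.
At `z`: `s (8 K1 c G + 4 s c² G) = 0` with `K1(z) = -s c(z)`: `-4 s² c(z)² G = 0`.
-/

namespace Pool.Agent.Work.MP_659252_gt.QR

open scoped ContDiff Topology
open Pool.Agent.Work.MP_659252_gt.Z (V Ten val Tan InT IsZoll IsMetric IsGeodesic)

variable {d : ℕ}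

private theorem ex_root (A B C : ℝ) (hC : C ≠ 0) (hdisc : B ^ 2 < A * C) :
    ∃ z : ℂ, z.im ≠ 0 ∧ (A : ℂ) + 2 * B * z + C * z ^ 2 = 0 := by
  have h1 : 0 < A * C - B ^ 2 := by linarith
  have h2 : Real.sqrt (A * C - B ^ 2) ^ 2 = A * C - B ^ 2 := Real.sq_sqrt h1.le
  refine ⟨⟨-B / C, Real.sqrt (A * C - B ^ 2) / C⟩, ?_, ?_⟩
  · exact div_ne_zero (Real.sqrt_pos.2 h1).ne' hC
  · apply Complex.ext
    · simp only [pow_two, Complex.add_re, Complex.mul_re, Complex.ofReal_re, Complex.ofReal_im, Complex.re_ofNat,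
        Complex.im_ofNat, Complex.mul_im, Complex.zero_re]
      field_simp
      linear_combination (-C) * h2
    · simp only [pow_two, Complex.add_im, Complex.mul_re, Complex.ofReal_re, Complex.ofReal_im, Complex.re_ofNat,
        Complex.im_ofNat, Complex.mul_im, Complex.zero_im]
      field_simp
      ring

private theorem lin_zero (u v : ℝ) (z : ℂ) (hz : z.im ≠ 0) (h : (u : ℂ) + v * z = 0) : u = 0 ∧ v = 0 := by
  have h1 := congrArg Complex.im h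
  have h2 := congrArg Complex.re h
  simp only [Complex.add_im, Complex.ofReal_im, Complex.mul_im, Complex.ofReal_re, Complex.zero_im, zero_mul, add_zero,
    zero_add] at h1
  have hv : v = 0 := by
    rcases mul_eq_zero.1 h1 with h3 | h3
    · exact h3
    · exact absurd h3 hz
  subst hv
  simp at h2
  exact ⟨h2, rfl⟩

private theorem root_c (A B C c0 c1 c2 c3 : ℝ) (z : ℂ) (hz : z.im ≠ 0) (hκ : (A : ℂ) + 2 * B * z + C * z ^ 2 = 0)
    (hc : (c0 : ℂ) + 3 * c1 * z + 3 * c2 * z ^ 2 + c3 * z ^ 3 = 0) :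
    c0 * C ^ 2 - 3 * A * C * c2 + 2 * A * B * c3 = 0 ∧
      3 * c1 * C ^ 2 - A * C * c3 - 6 * B * C * c2 + 4 * B ^ 2 * c3 = 0 := by
  apply lin_zero _ _ z hz
  push_cast
  linear_combination (C : ℂ) ^ 2 * hc - ((c3 : ℂ) * C * z + 3 * c2 * C - 2 * B * c3) * hκ

private theorem root_k (A B C k0 k1 k2 : ℝ) (z : ℂ) (hz : z.im ≠ 0) (hκ : (A : ℂ) + 2 * B * z + C * z ^ 2 = 0)
    (hc : (k0 : ℂ) + 2 * k1 * z + k2 * z ^ 2 = 0) : k0 * C = k2 * A ∧ k1 * C = k2 * B := by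
  have h := lin_zero (k0 * C - k2 * A) (2 * (k1 * C - k2 * B)) z hz (by
    push_cast
    linear_combination (C : ℂ) * hc - (k2 : ℂ) * hκ)
  constructor
  · linarith [h.1]
  · linarith [h.2]

private theorem map_LL {R S : Type} [CommRing R] [CommRing S] (φ : R →+* S) (κ c γ G H1 H2 K0 K1 K2 E0 E1 : R) :
    φ (LL κ c γ G H1 H2 K0 K1 K2 E0 E1) =
      LL (φ κ) (φ c) (φ γ) (φ G) (φ H1) (φ H2) (φ K0) (φ K1) (φ K2) (φ E0) (φ E1) := by
  simp only [LL, map_add, map_mul, map_pow, map_ofNat]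

theorem alg1 (A B C k0 k1 k2 c0 c1 c2 c3 G : ℝ) (hC : C ≠ 0) (hdisc : B ^ 2 < A * C) (hG : G ≠ 0)
    (γ H1 H2 K1 K2 E0 E1 q : Polynomial ℝ)
    (h : ∀ x : ℝ, (k0 + 2 * k1 * x + k2 * x ^ 2) * LL (A + 2 * B * x + C * x ^ 2)
      (c0 + 3 * c1 * x + 3 * c2 * x ^ 2 + c3 * x ^ 3) (γ.eval x) G (H1.eval x) (H2.eval x)
      (k0 + 2 * k1 * x + k2 * x ^ 2) (K1.eval x) (K2.eval x) (E0.eval x) (E1.eval x) =
      (A + 2 * B * x + C * x ^ 2) ^ 4 * q.eval x) :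
    (c0 * C ^ 2 - 3 * A * C * c2 + 2 * A * B * c3 = 0 ∧
      3 * c1 * C ^ 2 - A * C * c3 - 6 * B * C * c2 + 4 * B ^ 2 * c3 = 0) ∨ (k0 * C = k2 * A ∧ k1 * C = k2 * B) := by
  obtain ⟨z, hz, hκ⟩ := ex_root A B C hC hdisc
  have hpoly : (Polynomial.C k0 + 2 * Polynomial.C k1 * Polynomial.X + Polynomial.C k2 * Polynomial.X ^ 2) *
      LL (Polynomial.C A + 2 * Polynomial.C B * Polynomial.X + Polynomial.C C * Polynomial.X ^ 2)
        (Polynomial.C c0 + 3 * Polynomial.C c1 * Polynomial.X + 3 * Polynomial.C c2 * Polynomial.X ^ 2 +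
          Polynomial.C c3 * Polynomial.X ^ 3) γ (Polynomial.C G) H1 H2
        (Polynomial.C k0 + 2 * Polynomial.C k1 * Polynomial.X + Polynomial.C k2 * Polynomial.X ^ 2) K1 K2 E0 E1 =
      (Polynomial.C A + 2 * Polynomial.C B * Polynomial.X + Polynomial.C C * Polynomial.X ^ 2) ^ 4 * q := by
    apply Polynomial.funext
    intro x
    have h1 := h x
    simp only [LL] at h1 ⊢
    simp only [Polynomial.eval_add, Polynomial.eval_mul, Polynomial.eval_pow, Polynomial.eval_C, Polynomial.eval_X,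
      Polynomial.eval_ofNat]
    exact h1
  have h2 := congrArg (Polynomial.aeval z : Polynomial ℝ →ₐ[ℝ] ℂ).toRingHom hpoly
  rw [map_mul, map_LL] at h2
  simp only [AlgHom.toRingHom_eq_coe, RingHom.coe_coe, map_add, map_mul, map_pow, Polynomial.aeval_C,
    Polynomial.aeval_X, map_ofNat, Complex.coe_algebraMap] at h2
  rw [hκ] at h2
  have h3 : ((k0 : ℂ) + 2 * k1 * z + k2 * z ^ 2) ^ 2 *
      ((c0 : ℂ) + 3 * c1 * z + 3 * c2 * z ^ 2 + c3 * z ^ 3) ^ 2 * G = 0 := by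
    simp only [LL] at h2
    linear_combination (1 / 4 : ℂ) * h2
  have hG' : (G : ℂ) ≠ 0 := by exact_mod_cast hG
  rcases mul_eq_zero.1 h3 with h4 | h4
  · rcases mul_eq_zero.1 h4 with h5 | h5
    · exact Or.inr (root_k A B C k0 k1 k2 z hz hκ (pow_eq_zero_iff (two_ne_zero) |>.1 h5))
    · exact Or.inl (root_c A B C c0 c1 c2 c3 z hz hκ (pow_eq_zero_iff (two_ne_zero) |>.1 h5))
  · exact absurd h4 hG'

theorem alg2 (A B C s c0 c1 c2 c3 G α β : ℝ) (hC : C ≠ 0) (hdisc : B ^ 2 < A * C) (hG : G ≠ 0)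
    (γ H1 H2 K2 E0 E1 q : Polynomial ℝ)
    (h : ∀ x : ℝ, (s * (A + 2 * B * x + C * x ^ 2)) * LL (A + 2 * B * x + C * x ^ 2)
      (c0 + 3 * c1 * x + 3 * c2 * x ^ 2 + c3 * x ^ 3) (γ.eval x) G (H1.eval x) (H2.eval x)
      (s * (A + 2 * B * x + C * x ^ 2))
      ((A + 2 * B * x + C * x ^ 2) * (α + β * x) - s * (c0 + 3 * c1 * x + 3 * c2 * x ^ 2 + c3 * x ^ 3))
      (K2.eval x) (E0.eval x) (E1.eval x) = (A + 2 * B * x + C * x ^ 2) ^ 4 * q.eval x) :
    (c0 * C ^ 2 - 3 * A * C * c2 + 2 * A * B * c3 = 0 ∧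
      3 * c1 * C ^ 2 - A * C * c3 - 6 * B * C * c2 + 4 * B ^ 2 * c3 = 0) ∨ s = 0 := by
  obtain ⟨z, hz, hκ⟩ := ex_root A B C hC hdisc
  obtain ⟨kp, hkp⟩ : ∃ kp : Polynomial ℝ,
      kp = Polynomial.C A + 2 * Polynomial.C B * Polynomial.X + Polynomial.C C * Polynomial.X ^ 2 := ⟨_, rfl⟩
  obtain ⟨cp, hcp⟩ : ∃ cp : Polynomial ℝ, cp = Polynomial.C c0 + 3 * Polynomial.C c1 * Polynomial.X +
      3 * Polynomial.C c2 * Polynomial.X ^ 2 + Polynomial.C c3 * Polynomial.X ^ 3 := ⟨_, rfl⟩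
  obtain ⟨K1, hK1⟩ : ∃ K1 : Polynomial ℝ,
      K1 = kp * (Polynomial.C α + Polynomial.C β * Polynomial.X) - Polynomial.C s * cp := ⟨_, rfl⟩
  have hpoly : (Polynomial.C s * kp) * LL kp cp γ (Polynomial.C G) H1 H2 (Polynomial.C s * kp) K1 K2 E0 E1 =
      kp ^ 4 * q := by
    apply Polynomial.funext
    intro x
    have h1 := h x
    simp only [LL] at h1 ⊢
    rw [hK1, hkp, hcp]
    simp only [Polynomial.eval_add, Polynomial.eval_sub, Polynomial.eval_mul, Polynomial.eval_pow, Polynomial.eval_C,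
      Polynomial.eval_X, Polynomial.eval_ofNat]
    exact h1
  have hk0 : kp ≠ 0 := by
    intro h0
    have h2 := congrArg (Polynomial.coeff · 2) h0
    rw [hkp] at h2
    simp at h2
    exact hC h2
  obtain ⟨Np, hNp⟩ : ∃ Np : Polynomial ℝ, Np = 6 * kp ^ 2 * E1 + 6 * kp * K2 * Polynomial.C G +
      6 * K1 * (cp * Polynomial.C G + 2 * kp * H1) + Polynomial.C s * (2 * kp * γ * Polynomial.C G +
        3 * cp ^ 2 * Polynomial.C G + 6 * kp * cp * H1 + 6 * kp ^ 2 * H2) + 2 * cp * kp * E0 +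
      2 * cp * K1 * Polynomial.C G + cp * Polynomial.C s * (cp * Polynomial.C G + 2 * kp * H1) := ⟨_, rfl⟩
  have hN : Polynomial.C s * Np = kp ^ 2 * q := by
    have h1 : kp ^ 2 * (Polynomial.C s * Np) = kp ^ 2 * (kp ^ 2 * q) := by
      rw [show kp ^ 2 * (kp ^ 2 * q) = kp ^ 4 * q by ring, ← hpoly, hNp]
      simp only [LL]
      ring
    exact mul_left_cancel₀ (pow_ne_zero 2 hk0) h1
  have h2 := congrArg (Polynomial.aeval z : Polynomial ℝ →ₐ[ℝ] ℂ) hN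
  rw [hNp, hK1] at h2
  have e1 : (Polynomial.aeval z : Polynomial ℝ →ₐ[ℝ] ℂ) kp = 0 := by
    rw [hkp]
    simp only [map_add, map_mul, map_pow, Polynomial.aeval_C, Polynomial.aeval_X, map_ofNat, Complex.coe_algebraMap]
    exact hκ
  have e2 : (Polynomial.aeval z : Polynomial ℝ →ₐ[ℝ] ℂ) cp = (c0 : ℂ) + 3 * c1 * z + 3 * c2 * z ^ 2 + c3 * z ^ 3 := by
    rw [hcp]
    simp only [map_add, map_mul, map_pow, Polynomial.aeval_C, Polynomial.aeval_X, map_ofNat, Complex.coe_algebraMap]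
  simp only [map_add, map_sub, map_mul, map_pow, Polynomial.aeval_C, Polynomial.aeval_X, map_ofNat,
    Complex.coe_algebraMap, e1, e2] at h2
  have h3 : (s : ℂ) ^ 2 * ((c0 : ℂ) + 3 * c1 * z + 3 * c2 * z ^ 2 + c3 * z ^ 3) ^ 2 * G = 0 := by
    linear_combination (-1 / 4 : ℂ) * h2
  have hG' : (G : ℂ) ≠ 0 := by exact_mod_cast hG
  rcases mul_eq_zero.1 h3 with h4 | h4
  · rcases mul_eq_zero.1 h4 with h5 | h5
    · refine Or.inr ?_
      have h6 := pow_eq_zero_iff (two_ne_zero) |>.1 h5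
      exact_mod_cast h6
    · exact Or.inl (root_c A B C c0 c1 c2 c3 z hz hκ (pow_eq_zero_iff (two_ne_zero) |>.1 h5))
  · exact absurd h4 hG'

end Pool.Agent.Work.MP_659252_gt.QR
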