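import Pool.Agent.Work.MP_659252_gt.QR.L.Defs

/-!
# Second and third derivatives.  Size: M.

PROOF.  `gr_dot`: `v = ∑ i, v i • Pi.single i 1`, linearity of `fderiv ℝ f x`.  Since `f` is smooth on the open set `{0}ᶜ`, `fderiv ℝ f` is smooth there (`ContDiffOn.fderiv_of_isOpen`), and
`DD f y a b = (fderiv ℝ (fderiv ℝ f) y b) a` (`fderiv` of an evaluation); symmetric: `ContDiffAt.isSymmSndFDerivAt` (`minSmoothness ℝ 2 ≤ ∞`).  `D3 f x a b c = D3 f x b a c`: the functions `y ↦ DD f y a b`,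
`y ↦ DD f y b a` agree near `x` (for `y ≠ 0`).  `D3 f x a b c = D3 f x a c b`: `DD f y a b = fderiv g y b` with `g y = fderiv ℝ f y a`, smooth on `{0}ᶜ`: so `D3 f x a b c = DD g x b c`.
`DD_smooth`, `D3_smooth`: evaluations of smooth functions.  `D2_eq`: `t ↦ f (x + t v)` has derivative `fderiv f (x + t v) v` for `t` near `0`, and `iteratedDeriv_succ`, `iteratedDeriv_one`.
`euler1`: `f (c x) = f x` near `c = 1`.  `euler2`: `f (c • y) = f y` gives `c • fderiv ℝ f (c • x) = fderiv ℝ f x` for `c > 0`, so `fderiv f (c x) v = c⁻¹ fderiv f x v`; differentiate at `c = 1`.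
-/

namespace Pool.Agent.Work.MP_659252_gt.QR

open scoped ContDiff Topology
open Pool.Agent.Work.MP_659252_gt.Z (V Ten val Tan InT IsZoll IsMetric IsGeodesic)

variable {d : ℕ}

private theorem bila_mem {x : V d} (hx : x ≠ 0) : x ∈ ({0}ᶜ : Set (V d)) := hx

private theorem bila_fd {f : V d → ℝ} (fs : ContDiffOn ℝ ∞ f {0}ᶜ) : ContDiffOn ℝ ∞ (fderiv ℝ f) {0}ᶜ :=
  fs.fderiv_of_isOpen isOpen_compl_singleton (by norm_cast)

private theorem bila_fda {f : V d → ℝ} (fs : ContDiffOn ℝ ∞ f {0}ᶜ) (a : V d) :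
    ContDiffOn ℝ ∞ (fun y => fderiv ℝ f y a) {0}ᶜ :=
  (bila_fd fs).clm_apply contDiffOn_const

private theorem bila_DD {f : V d → ℝ} (fs : ContDiffOn ℝ ∞ f {0}ᶜ) {x : V d} (hx : x ≠ 0)
    (a b : V d) : DD f x a b = fderiv ℝ (fderiv ℝ f) x b a := by
  unfold DD
  have h : DifferentiableAt ℝ (fderiv ℝ f) x :=
    ((bila_fd fs).contDiffAt (isOpen_compl_singleton.mem_nhds hx)).differentiableAt (by simp)
  have h2 := (h.hasFDerivAt.clm_apply (hasFDerivAt_const a x)).fderiv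
  rw [h2]
  simp

theorem gr_dot (f : V d → ℝ) (x v : V d) : gr f x ⬝ᵥ v = fderiv ℝ f x v := by
  have hv : v = ∑ i, v i • (Pi.single i (1 : ℝ) : V d) := by
    funext j
    simp [Finset.sum_apply, Pi.single_apply]
  conv_rhs => rw [hv]
  rw [map_sum]
  simp only [map_smul, smul_eq_mul, dotProduct, gr]
  exact Finset.sum_congr rfl fun i _ => mul_comm _ _

theorem DD_add_right (f : V d → ℝ) (x a b c : V d) : DD f x a (b + c) = DD f x a b + DD f x a c := by
  unfold DD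
  rw [map_add]

theorem DD_smul_right (f : V d → ℝ) (x a b : V d) (s : ℝ) : DD f x a (s • b) = s * DD f x a b := by
  unfold DD
  rw [map_smul, smul_eq_mul]

theorem DD_comm (f : V d → ℝ) (fs : ContDiffOn ℝ ∞ f {0}ᶜ) (x : V d) (hx : x ≠ 0) (a b : V d) :
    DD f x a b = DD f x b a := by
  have h : ContDiffAt ℝ ∞ f x := fs.contDiffAt (isOpen_compl_singleton.mem_nhds hx)
  have h2 : IsSymmSndFDerivAt ℝ f x := h.isSymmSndFDerivAt (by
    rw [minSmoothness_of_isRCLikeNormedField]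
    norm_cast)
  rw [bila_DD fs hx, bila_DD fs hx]
  exact h2.eq b a

theorem DD_add_left (f : V d → ℝ) (fs : ContDiffOn ℝ ∞ f {0}ᶜ) (x : V d) (hx : x ≠ 0) (a b c : V d) :
    DD f x (a + b) c = DD f x a c + DD f x b c := by
  rw [bila_DD fs hx, bila_DD fs hx, bila_DD fs hx, map_add]

theorem DD_smul_left (f : V d → ℝ) (fs : ContDiffOn ℝ ∞ f {0}ᶜ) (x : V d) (hx : x ≠ 0) (a b : V d) (s : ℝ) :
    DD f x (s • a) b = s * DD f x a b := by
  rw [bila_DD fs hx, bila_DD fs hx, map_smul, smul_eq_mul]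

theorem D3_comm12 (f : V d → ℝ) (fs : ContDiffOn ℝ ∞ f {0}ᶜ) (x : V d) (hx : x ≠ 0) (a b c : V d) :
    D3 f x a b c = D3 f x b a c := by
  unfold D3
  have h : (fun y => DD f y a b) =ᶠ[𝓝 x] fun y => DD f y b a := by
    filter_upwards [isOpen_compl_singleton.mem_nhds hx] with y hy
    exact DD_comm f fs y hy a b
  rw [h.fderiv_eq]

theorem D3_comm23 (f : V d → ℝ) (fs : ContDiffOn ℝ ∞ f {0}ᶜ) (x : V d) (hx : x ≠ 0) (a b c : V d) :
    D3 f x a b c = D3 f x a c b := by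
  have h := DD_comm (fun y => fderiv ℝ f y a) (bila_fda fs a) x hx b c
  exact h

theorem D3_add_right (f : V d → ℝ) (x a b c e : V d) : D3 f x a b (c + e) = D3 f x a b c + D3 f x a b e := by
  unfold D3
  rw [map_add]

theorem D3_smul_right (f : V d → ℝ) (x a b c : V d) (s : ℝ) : D3 f x a b (s • c) = s * D3 f x a b c := by
  unfold D3
  rw [map_smul, smul_eq_mul]

theorem DD_smooth (f : V d → ℝ) (fs : ContDiffOn ℝ ∞ f {0}ᶜ) :
    ContDiffOn ℝ ∞ (fun p : V d × V d × V d => DD f p.1 p.2.1 p.2.2) ({0}ᶜ ×ˢ Set.univ) := by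
  have h2 : ContDiffOn ℝ ∞ (fderiv ℝ (fderiv ℝ f)) {0}ᶜ :=
    (bila_fd fs).fderiv_of_isOpen isOpen_compl_singleton (by norm_cast)
  have h3 : ContDiffOn ℝ ∞ (fun p : V d × V d × V d => fderiv ℝ (fderiv ℝ f) p.1) ({0}ᶜ ×ˢ Set.univ) :=
    h2.comp contDiffOn_fst fun _ hp => hp.1
  have h4 : ContDiffOn ℝ ∞ (fun p : V d × V d × V d => fderiv ℝ (fderiv ℝ f) p.1 p.2.2 p.2.1)
      ({0}ᶜ ×ˢ Set.univ) :=
    (h3.clm_apply (contDiff_snd.comp contDiff_snd).contDiffOn).clm_apply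
      (contDiff_fst.comp contDiff_snd).contDiffOn
  refine h4.congr fun p hp => ?_
  exact bila_DD fs hp.1 _ _

private theorem bila_lin (L : V d → ℝ) (ha : ∀ u v, L (u + v) = L u + L v) (hs : ∀ (s : ℝ) u, L (s • u) = s * L u)
    (v : V d) : L v = ∑ i, v i * L (Pi.single i 1) := by
  have hv : v = ∑ i, v i • (Pi.single i (1 : ℝ) : V d) := by
    funext j
    simp [Finset.sum_apply, Pi.single_apply]
  have h0 : L 0 = 0 := by simpa using hs 0 0
  have h1 : ∀ (t : Finset (Fin (d + 1))) (g : Fin (d + 1) → V d), L (∑ i ∈ t, g i) = ∑ i ∈ t, L (g i) := by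
    intro t g
    classical
    induction t using Finset.induction_on with
    | empty => simp [h0]
    | insert a t ha' ih => rw [Finset.sum_insert ha', Finset.sum_insert ha', ha, ih]
  conv_lhs => rw [hv]
  rw [h1]
  exact Finset.sum_congr rfl fun i _ => hs _ _

private theorem bila_D3exp {f : V d → ℝ} (fs : ContDiffOn ℝ ∞ f {0}ᶜ) {x : V d} (hx : x ≠ 0) (a b c : V d) :
    D3 f x a b c = ∑ i, a i * ∑ j, b j * ∑ k, c k * D3 f x (Pi.single i 1) (Pi.single j 1) (Pi.single k 1) := by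
  have h1 : ∀ a b c : V d, D3 f x a b c = ∑ k, c k * D3 f x a b (Pi.single k 1) := fun a b c =>
    bila_lin (fun c => D3 f x a b c) (fun u v => D3_add_right f x a b u v) (fun s u => D3_smul_right f x a b u s) c
  have h2 : ∀ a b c : V d, D3 f x a b c = ∑ j, b j * D3 f x a (Pi.single j 1) c := fun a b c => by
    rw [D3_comm23 f fs x hx, h1 a c b]
    exact Finset.sum_congr rfl fun j _ => by rw [D3_comm23 f fs x hx]
  have h3 : ∀ a b c : V d, D3 f x a b c = ∑ i, a i * D3 f x (Pi.single i 1) b c := fun a b c => by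
    rw [D3_comm12 f fs x hx, h2 b a c]
    exact Finset.sum_congr rfl fun i _ => by rw [D3_comm12 f fs x hx]
  rw [h3]
  refine Finset.sum_congr rfl fun i _ => ?_
  rw [h2]
  congr 1
  refine Finset.sum_congr rfl fun j _ => ?_
  rw [h1]

theorem D3_smooth (f : V d → ℝ) (fs : ContDiffOn ℝ ∞ f {0}ᶜ) :
    ContDiffOn ℝ ∞ (fun p : V d × V d × V d × V d => D3 f p.1 p.2.1 p.2.2.1 p.2.2.2) ({0}ᶜ ×ˢ Set.univ) := by
  have h : ∀ a b c : V d, ContDiffOn ℝ ∞ (fun y => D3 f y a b c) {0}ᶜ := fun a b c =>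
    bila_fda (bila_fda (bila_fda fs a) b) c
  have h2 : ∀ a b c : V d, ContDiffOn ℝ ∞ (fun p : V d × V d × V d × V d => D3 f p.1 a b c)
      (({0}ᶜ : Set (V d)) ×ˢ (Set.univ : Set (V d × V d × V d))) := fun a b c =>
    (h a b c).comp contDiffOn_fst fun _ hp => hp.1
  have hk : ∀ k : Fin (d + 1), ContDiff ℝ ∞ (fun p : V d × V d × V d × V d => p.2.2.2 k) := fun k =>
    (contDiff_apply ℝ ℝ k).comp (contDiff_snd.comp (contDiff_snd.comp contDiff_snd))
  have hj : ∀ k : Fin (d + 1), ContDiff ℝ ∞ (fun p : V d × V d × V d × V d => p.2.2.1 k) := fun k =>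
    (contDiff_apply ℝ ℝ k).comp (contDiff_fst.comp (contDiff_snd.comp contDiff_snd))
  have hi : ∀ k : Fin (d + 1), ContDiff ℝ ∞ (fun p : V d × V d × V d × V d => p.2.1 k) := fun k =>
    (contDiff_apply ℝ ℝ k).comp (contDiff_fst.comp contDiff_snd)
  refine ContDiffOn.congr (f := fun p : V d × V d × V d × V d => ∑ i, p.2.1 i * ∑ j, p.2.2.1 j * ∑ k,
    p.2.2.2 k * D3 f p.1 (Pi.single i 1) (Pi.single j 1) (Pi.single k 1)) ?_
    fun p hp => bila_D3exp fs hp.1 _ _ _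
  refine ContDiffOn.sum fun i _ => (hi i).contDiffOn.mul (ContDiffOn.sum fun j _ => (hj j).contDiffOn.mul
    (ContDiffOn.sum fun k _ => (hk k).contDiffOn.mul (h2 _ _ _)))

theorem D2_eq (f : V d → ℝ) (fs : ContDiffOn ℝ ∞ f {0}ᶜ) (x : V d) (hx : x ≠ 0) (v : V d) :
    D2 f x v = DD f x v v := by
  have hc : Continuous (fun t : ℝ => x + t • v) := by fun_prop
  have hne : ∀ᶠ t : ℝ in 𝓝 0, x + t • v ≠ 0 := by
    have := hc.continuousAt (x := (0 : ℝ))
    refine this.eventually_ne ?_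
    simpa using hx
  have hl : ∀ t : ℝ, HasDerivAt (fun t : ℝ => x + t • v) v t := fun t => by
    simpa using ((hasDerivAt_id t).smul_const v).const_add x
  have h1 : deriv (fun t : ℝ => f (x + t • v)) =ᶠ[𝓝 0] fun t : ℝ => fderiv ℝ f (x + t • v) v := by
    filter_upwards [hne] with t ht
    have hd : DifferentiableAt ℝ f (x + t • v) :=
      (fs.contDiffAt (isOpen_compl_singleton.mem_nhds ht)).differentiableAt (by simp)
    exact (hd.hasFDerivAt.comp_hasDerivAt t (hl t)).deriv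
  unfold D2
  rw [iteratedDeriv_succ, iteratedDeriv_one, h1.deriv_eq]
  have hx0 : x + (0 : ℝ) • v = x := by simp
  have hd2 : DifferentiableAt ℝ (fun y => fderiv ℝ f y v) (x + (0 : ℝ) • v) := by
    rw [hx0]
    exact ((bila_fda fs v).contDiffAt (isOpen_compl_singleton.mem_nhds hx)).differentiableAt (by simp)
  have h2 := (hd2.hasFDerivAt.comp_hasDerivAt (0 : ℝ) (hl 0)).deriv
  rw [hx0] at h2
  exact h2

theorem euler1 (f : V d → ℝ) (fs : ContDiffOn ℝ ∞ f {0}ᶜ) (fh : ∀ (c : ℝ) (x : V d), c ≠ 0 → f (c • x) = f x)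
    (x : V d) (hx : x ≠ 0) : fderiv ℝ f x x = 0 := by
  have hd : DifferentiableAt ℝ f ((1 : ℝ) • x) := by
    rw [one_smul]
    exact (fs.contDiffAt (isOpen_compl_singleton.mem_nhds hx)).differentiableAt (by simp)
  have hl : HasDerivAt (fun c : ℝ => c • x) x 1 := by
    simpa using (hasDerivAt_id (1 : ℝ)).smul_const x
  have h1 := hd.hasFDerivAt.comp_hasDerivAt (1 : ℝ) hl
  have h2 : (f ∘ fun c : ℝ => c • x) =ᶠ[𝓝 1] fun _ => f x := by
    filter_upwards [isOpen_compl_singleton.mem_nhds (show (1 : ℝ) ∈ ({0}ᶜ : Set ℝ) by simp)] with c hc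
    exact fh c x hc
  have h3 := h1.unique ((hasDerivAt_const (1 : ℝ) (f x)).congr_of_eventuallyEq h2)
  rwa [one_smul] at h3

theorem euler2 (f : V d → ℝ) (fs : ContDiffOn ℝ ∞ f {0}ᶜ) (fh : ∀ (c : ℝ) (x : V d), c ≠ 0 → f (c • x) = f x)
    (x : V d) (hx : x ≠ 0) (v : V d) : DD f x v x = -fderiv ℝ f x v := by
  have hE : ∀ᶠ y in 𝓝 x, fderiv ℝ f y y = 0 := by
    filter_upwards [isOpen_compl_singleton.mem_nhds hx] with y hy
    exact euler1 f fs fh y hy
  have hd : DifferentiableAt ℝ (fderiv ℝ f) x :=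
    ((bila_fd fs).contDiffAt (isOpen_compl_singleton.mem_nhds hx)).differentiableAt (by simp)
  have h1 := hd.hasFDerivAt.clm_apply (hasFDerivAt_id x)
  have h2 : (fun y => fderiv ℝ f y (id y)) =ᶠ[𝓝 x] fun _ => (0 : ℝ) := hE
  have h3 := h1.unique ((hasFDerivAt_const (0 : ℝ) x).congr_of_eventuallyEq h2)
  have h4 := congrArg (fun T : V d →L[ℝ] ℝ => T v) h3
  simp only [ContinuousLinearMap.add_apply, ContinuousLinearMap.comp_apply, ContinuousLinearMap.flip_apply,
    ContinuousLinearMap.zero_apply, ContinuousLinearMap.id_apply, id_eq, ContinuousLinearMap.coe_id'] at h4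
  rw [DD_comm f fs x hx v x, bila_DD fs hx]
  linarith

end Pool.Agent.Work.MP_659252_gt.QR
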