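import Pool.Agent.Work.MP_659252_gt.QR.Bas

/-!
# Group L: second and third derivatives, the bilinear form of `Kq`, and the expression of order two
-/

namespace Pool.Agent.Work.MP_659252_gt.QR

open scoped ContDiff Topology
open Pool.Agent.Work.MP_659252_gt.Z (V Ten val Tan InT IsZoll IsMetric IsGeodesic)

variable {d : ℕ}

/-- Second derivative of `f` at `x`. -/
noncomputable def DD (f : V d → ℝ) (x a b : V d) : ℝ := fderiv ℝ (fun y => fderiv ℝ f y a) x b

/-- Third derivative of `f` at `x`. -/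
noncomputable def D3 (f : V d → ℝ) (x a b c : V d) : ℝ := fderiv ℝ (fun y => DD f y a b) x c

/-- The bilinear form of the quadratic form `Kq`. -/
noncomputable def Kb (f w : V d → ℝ) (k : Ten d) (x a b : V d) : ℝ :=
  bil (k x) a b - w x * DD f x a b - (1 / 2) * (fderiv ℝ w x a * fderiv ℝ f x b + fderiv ℝ w x b * fderiv ℝ f x a)

/-- Vectors of the slice `v 0 = 0` which are tangent to the level set of `f`. -/
def Tg (f : V d → ℝ) (x v : V d) : Prop := v 0 = 0 ∧ fderiv ℝ f x v = 0

/-- Linear independence. -/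
def Ind (a b : V d) : Prop := ∀ s t : ℝ, s • a + t • b = 0 → s = 0 ∧ t = 0

/-- The cubic polynomial `D3 f x V V V`, `V = a + X b`, is divisible by the quadratic polynomial `DD f x V V`. -/
def Pk (f : V d → ℝ) (x a b : V d) : Prop :=
  D3 f x a a a * DD f x b b ^ 2 - 3 * DD f x a a * DD f x b b * D3 f x a b b +
      2 * DD f x a a * DD f x a b * D3 f x b b b = 0 ∧
    3 * D3 f x a a b * DD f x b b ^ 2 - DD f x a a * DD f x b b * D3 f x b b b -
      6 * DD f x a b * DD f x b b * D3 f x a b b + 4 * DD f x a b ^ 2 * D3 f x b b b = 0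

/-- `Kb` is a multiple of `DD` on the span of `a`, `b`. -/
def Cf (f w : V d → ℝ) (k : Ten d) (x a b : V d) : Prop :=
  Kb f w k x a a * DD f x b b = Kb f w k x b b * DD f x a a ∧
    Kb f w k x a b * DD f x a a = Kb f w k x a a * DD f x a b

/-- The derivative of `Kq` along the rotation of the line towards the gradient. -/
noncomputable def Ef (f w : V d → ℝ) (k : Ten d) (P v : V d) (τ : ℝ) : ℝ :=
  deriv (fun η : ℝ => Kq f w k (P + τ • (v + η • gr f P)) (v + η • gr f P)) 0

/-- The expression of order two in the expansion of the integrals at a tangent line. -/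
def LL {R : Type} [CommRing R] (κ c γ G H1 H2 K0 K1 K2 E0 E1 : R) : R :=
  6 * κ ^ 3 * E1 + 6 * κ ^ 2 * K2 * G + 6 * κ * K1 * (c * G + 2 * κ * H1) +
    K0 * (2 * κ * γ * G + 3 * c ^ 2 * G + 6 * κ * c * H1 + 6 * κ ^ 2 * H2) +
    2 * c * κ ^ 2 * E0 + 2 * c * κ * K1 * G + c * K0 * (c * G + 2 * κ * H1)

end Pool.Agent.Work.MP_659252_gt.QR
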