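import Pool.Agent.Work.MP_659252_gt.QR.L.QP
import Pool.Agent.Work.MP_659252_gt.QR.L.Alg

/-!
# The two alternatives.  Size: S-M.

PROOF.  `A = -DD f P a a`, `B = -DD f P a b`, `C = -DD f P b b`, `k0 = Kb a a`, ...: `DD_exp`, `D3_exp`, `Kb_exp` (`P ≠ 0` since `P 0 > 0`) put `qp` into the form of the hypothesis of `alg1` (and, with the
hypotheses `h1`, `h2`, `h3`, `hK`, of `alg2`).  `C > 0` and `B² < A C`: the form `-DD f P` is positive on the vectors `s a + t b ≠ 0` (`curv`, `D2_eq`): `C > 0` from `b ≠ 0`, and the value at `C a - B b`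
is `C (A C - B²)`.  `G = gr f P ⬝ gr f P ≠ 0` (`reg`).  The alternatives of `alg1` are `Pk` and `Cf` up to the signs of `A`, `B`, `C` (products of two of them).  For `Cf`: `k0 C = k2 A` is
`Kb a a * DD b b = Kb b b * DD a a`; and `k1 C = k2 B`, `k0 C = k2 A`, `C ≠ 0` give `k1 A = k0 B`.
-/

namespace Pool.Agent.Work.MP_659252_gt.QR

open scoped ContDiff Topology
open Pool.Agent.Work.MP_659252_gt.Z (V Ten val Tan InT IsZoll IsMetric IsGeodesic)

variable {d : ℕ}

private theorem dich_pre (f w : V d → ℝ) (k : Ten d) (lo hi : ℝ) (P : V d) (L : Loc f w k lo hi P) (a b : V d)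
    (ha : Tg f P a) (hb : Tg f P b) (hab : Ind a b) :
    P ≠ 0 ∧ -DD f P b b ≠ 0 ∧ (-DD f P a b) ^ 2 < -DD f P a a * -DD f P b b ∧ gr f P ⬝ᵥ gr f P ≠ 0 := by
  have hP : P ≠ 0 := by
    intro h
    have h1 := L.P0
    rw [h] at h1
    simp at h1
  have hneg : ∀ v : V d, Tg f P v → v ≠ 0 → DD f P v v < 0 := by
    intro v hv hv0
    rw [← D2_eq f L.fs P hP v]
    exact L.curv v (by rw [gr_dot]; exact hv.2) hv.1 hv0
  have hb0 : b ≠ 0 := by
    intro h
    have h1 := hab 0 1 (by rw [h]; simp)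
    exact one_ne_zero h1.2
  have hC : 0 < -DD f P b b := by
    have := hneg b hb hb0
    linarith
  have hdisc : (-DD f P a b) ^ 2 < -DD f P a a * -DD f P b b := by
    set s : ℝ := DD f P a b / (-DD f P b b) with hs
    have hv : Tg f P (a + s • b) := by
      refine ⟨?_, ?_⟩
      · simp [ha.1, hb.1]
      · rw [map_add, map_smul, ha.2, hb.2]
        simp
    have hv0 : a + s • b ≠ 0 := by
      intro h
      have h1 := hab 1 s (by rw [one_smul]; exact h)
      exact one_ne_zero h1.1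
    have h1 := hneg _ hv hv0
    rw [DD_exp f L.fs P hP a b s] at h1
    have h2 : s * (-DD f P b b) = DD f P a b := by
      rw [hs]
      exact div_mul_cancel₀ _ hC.ne'
    have h3 : (DD f P a a + 2 * DD f P a b * s + DD f P b b * s ^ 2) * (-DD f P b b) < 0 :=
      mul_neg_of_neg_of_pos h1 hC
    have h4 : (DD f P a a + 2 * DD f P a b * s + DD f P b b * s ^ 2) * (-DD f P b b) =
        DD f P a a * (-DD f P b b) + 2 * DD f P a b * (s * (-DD f P b b)) - (s * (-DD f P b b)) ^ 2 := by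
      ring
    rw [h4, h2] at h3
    nlinarith
  refine ⟨hP, hC.ne', hdisc, ?_⟩
  intro h
  exact L.reg (dotProduct_self_eq_zero.1 h)

theorem dich (hd : 1 ≤ d) (f w : V d → ℝ) (k : Ten d) (lo hi : ℝ) (P : V d) (L : Loc f w k lo hi P) (a b : V d)
    (ha : Tg f P a) (hb : Tg f P b) (hab : Ind a b) : Pk f P a b ∨ Cf f w k P a b := by
  obtain ⟨hP, hC, hdisc, hG⟩ := dich_pre f w k lo hi P L a b ha hb hab
  obtain ⟨q, γ, H1, H2, K1, K2, E0, E1, hq⟩ := qp hd f w k lo hi P L a b ha hb hab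
  have key := alg1 (-DD f P a a) (-DD f P a b) (-DD f P b b) (Kb f w k P a a) (Kb f w k P a b)
    (Kb f w k P b b) (D3 f P a a a) (D3 f P a a b) (D3 f P a b b) (D3 f P b b b) (gr f P ⬝ᵥ gr f P)
    hC hdisc hG γ H1 H2 K1 K2 E0 E1 q (by
      intro x
      have h := (hq x).2
      rw [Kb_exp f w k L.fs L.ks.symm P hP a b x, DD_exp f L.fs P hP a b x,
        D3_exp f L.fs P hP a b x] at h
      have e : -(DD f P a a + 2 * DD f P a b * x + DD f P b b * x ^ 2) =
          -DD f P a a + 2 * -DD f P a b * x + -DD f P b b * x ^ 2 := by ring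
      rw [e] at h
      exact h)
  rcases key with ⟨h1, h2⟩ | ⟨h1, h2⟩
  · left
    refine ⟨?_, ?_⟩
    · linear_combination h1
    · linear_combination h2
  · right
    have hC' : DD f P b b ≠ 0 := fun h => hC (by rw [h, neg_zero])
    refine ⟨?_, ?_⟩
    · linear_combination (-1) * h1
    · have h3 : DD f P b b * (Kb f w k P a b * DD f P a a - Kb f w k P a a * DD f P a b) = 0 := by
        linear_combination (-DD f P a a) * h2 + DD f P a b * h1
      have h4 := (mul_eq_zero.1 h3).resolve_left hC'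
      linarith

theorem dich2 (hd : 1 ≤ d) (f w : V d → ℝ) (k : Ten d) (lo hi : ℝ) (P : V d) (L : Loc f w k lo hi P) (a b : V d)
    (ha : Tg f P a) (hb : Tg f P b) (hab : Ind a b) (s α β : ℝ) (h1 : Kb f w k P a a = -s * DD f P a a)
    (h2 : Kb f w k P a b = -s * DD f P a b) (h3 : Kb f w k P b b = -s * DD f P b b)
    (hK : ∀ x : ℝ, fderiv ℝ (fun y => Kb f w k y (a + x • b) (a + x • b)) P (a + x • b) =
      -DD f P (a + x • b) (a + x • b) * (α + β * x) - s * D3 f P (a + x • b) (a + x • b) (a + x • b)) :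
    Pk f P a b ∨ s = 0 := by
  obtain ⟨hP, hC, hdisc, hG⟩ := dich_pre f w k lo hi P L a b ha hb hab
  obtain ⟨q, γ, H1, H2, K1, K2, E0, E1, hq⟩ := qp hd f w k lo hi P L a b ha hb hab
  have key := alg2 (-DD f P a a) (-DD f P a b) (-DD f P b b) s (D3 f P a a a) (D3 f P a a b)
    (D3 f P a b b) (D3 f P b b b) (gr f P ⬝ᵥ gr f P) α β hC hdisc hG γ H1 H2 K2 E0 E1 q (by
      intro x
      obtain ⟨hk1, h⟩ := hq x
      rw [hk1, hK x, Kb_exp f w k L.fs L.ks.symm P hP a b x, DD_exp f L.fs P hP a b x,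
        D3_exp f L.fs P hP a b x, h1, h2, h3] at h
      have e : -(DD f P a a + 2 * DD f P a b * x + DD f P b b * x ^ 2) =
          -DD f P a a + 2 * -DD f P a b * x + -DD f P b b * x ^ 2 := by ring
      have e2 : -s * DD f P a a + 2 * (-s * DD f P a b) * x + -s * DD f P b b * x ^ 2 =
          s * (-DD f P a a + 2 * -DD f P a b * x + -DD f P b b * x ^ 2) := by ring
      rw [e, e2] at h
      exact h)
  rcases key with ⟨h4, h5⟩ | h4
  · left
    refine ⟨?_, ?_⟩
    · linear_combination h4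
    · linear_combination h5
  · right
    exact h4

end Pool.Agent.Work.MP_659252_gt.QR
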