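import Pool.Agent.Work.MP_659252_gt.QR.L.BilB

/-!
# Differentiation of the proportionality.  Size: M.

PROOF.  Let `n' = gr f P - (gr f P 0/P 0) P`: `n' 0 = 0`, `fderiv f P n' = gr f P ⬝ gr f P =: G > 0` (`gr_dot`, `euler1`).  `X y p q = Kb f w k y p q + s * DD f y p q`, bilinear and symmetric in `p`, `q` for `y ≠ 0`,
smooth in `y`; `X P = 0` on the span of `a`, `b`.  Fix `x`, `V = a + x b`, `c τ = P + τ V`, `s_p τ = fderiv f (c τ) p/fderiv f (c τ) n'` for `p = a, b` (`τ` near `0`), `p(τ) = p - s_p τ n'`.  Then `p(τ) 0 = 0`,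
`fderiv f (c τ) p(τ) = 0`, `p(0) = p` (`fderiv f P p = 0`), and `s_p'(0) = DD f P p V/G`.
For fixed `p`, `q`: `τ ↦ X (c τ) p q` has derivative `∂X p q := fderiv (y ↦ X y p q) P V` at `0`.  By bilinearity `X (c τ) p(τ) q(τ) = X p q - s_p X n' q - s_q X p n' + s_p s_q X n' n'` (all at `c τ`), with derivative at
`0`: `X'(p, q) := ∂X p q - (DD p V/G) X P n' q - (DD q V/G) X P p n' = ∂X p q - DD f P p V θ q - DD f P q V θ p`, `θ p = X P p n'/G`.
By `hC` (the point `(c τ, a(τ), b(τ))` tends to `(P, a, b)`) the relations `Cf` hold at `(c τ, a(τ), b(τ))` for `τ` near `0`.  With `Kb = X - s DD` they read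
`X(a,a) DD(b,b) = X(b,b) DD(a,a)` and `X(a,b) DD(a,a) = X(a,a) DD(a,b)`; differentiate at `τ = 0`, where `X(a,a) = X(a,b) = X(b,b) = 0`: `X'(a,a) DD b b = X'(b,b) DD a a`, `X'(a,b) DD a a = X'(a,a) DD a b`
(`DD` at `P`).  So with `μ = X'(a,a)/DD f P a a`: `X'(p,q) = μ DD f P p q` for `(p,q) = (a,a), (a,b), (b,b)`, hence
`∂X p q = μ DD p q + DD p V θ q + DD q V θ p`, and by bilinearity (`V = a + x b`) `∂X V V = μ DD V V + 2 DD V V θ V = DD f P V V (μ + 2 θ V)`.  Also
`∂X V V = fderiv (y ↦ Kb y V V) P V + s D3 f P V V V`.  So the claim holds with `α + β x = -(μ + 2 θ V)`, and this is an affine function of `x`: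
`μ = (∂X a a - 2 DD f P a V θ a)/DD f P a a`, where `∂X a a = fderiv (y ↦ X y a a) P V`, `DD f P a V` and `θ V` are affine in `x` with coefficients which do not depend on `x`.
-/

namespace Pool.Agent.Work.MP_659252_gt.QR

open scoped ContDiff Topology
open Pool.Agent.Work.MP_659252_gt.Z (V Ten val Tan InT IsZoll IsMetric IsGeodesic)

variable {d : ℕ}

private noncomputable def XX (f w : V d → ℝ) (k : Ten d) (s : ℝ) (y p q : V d) : ℝ :=
  Kb f w k y p q + s * DD f y p q

private theorem XX_comm (f w : V d → ℝ) (k : Ten d) (s : ℝ) (fs : ContDiffOn ℝ ∞ f {0}ᶜ)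
    (ks : ∀ x i j, k x i j = k x j i) (y : V d) (hy : y ≠ 0) (p q : V d) :
    XX f w k s y p q = XX f w k s y q p := by
  rw [XX, XX, Kb_comm f w k fs ks y hy, DD_comm f fs y hy]

private theorem XX_right (f w : V d → ℝ) (k : Ten d) (s : ℝ) (y p q n : V d) (c : ℝ) :
    XX f w k s y p (q + c • n) = XX f w k s y p q + c * XX f w k s y p n := by
  rw [XX, XX, XX, Kb_add_right, Kb_smul_right, DD_add_right, DD_smul_right]
  ring

private theorem XX_left (f w : V d → ℝ) (k : Ten d) (s : ℝ) (fs : ContDiffOn ℝ ∞ f {0}ᶜ)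
    (ks : ∀ x i j, k x i j = k x j i) (y : V d) (hy : y ≠ 0) (p q n : V d) (c : ℝ) :
    XX f w k s y (p + c • n) q = XX f w k s y p q + c * XX f w k s y n q := by
  rw [XX_comm f w k s fs ks y hy, XX_right, XX_comm f w k s fs ks y hy q p,
    XX_comm f w k s fs ks y hy q n]

private theorem XX_exp (f w : V d → ℝ) (k : Ten d) (s : ℝ) (fs : ContDiffOn ℝ ∞ f {0}ᶜ)
    (ks : ∀ x i j, k x i j = k x j i) (y : V d) (hy : y ≠ 0) (p q n : V d) (c e : ℝ) :
    XX f w k s y (p + c • n) (q + e • n) = XX f w k s y p q + c * XX f w k s y q n +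
      e * XX f w k s y p n + c * e * XX f w k s y n n := by
  rw [XX_right, XX_left f w k s fs ks y hy, XX_left f w k s fs ks y hy,
    XX_comm f w k s fs ks y hy n q]
  ring

private theorem kb_diff (f w : V d → ℝ) (k : Ten d) (fs : ContDiffOn ℝ ∞ f {0}ᶜ)
    (ws : ContDiffOn ℝ ∞ w {0}ᶜ) (ks : ContDiffOn ℝ ∞ k {0}ᶜ) (P : V d) (hP : P ≠ 0) (p q : V d) :
    DifferentiableAt ℝ (fun y => Kb f w k y p q) P := by
  have h1 : ContDiffAt ℝ ∞ (fun z : V d × V d × V d => Kb f w k z.1 z.2.1 z.2.2) (P, p, q) :=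
    (Kb_smooth f w k fs ws ks).contDiffAt
      ((isOpen_compl_singleton.prod isOpen_univ).mem_nhds ⟨hP, Set.mem_univ _⟩)
  have h2 : DifferentiableAt ℝ (fun y : V d => ((y, p, q) : V d × V d × V d)) P := by fun_prop
  exact (h1.differentiableAt (by simp)).comp P h2

private theorem dd_cd (f : V d → ℝ) (fs : ContDiffOn ℝ ∞ f {0}ᶜ) (P : V d) (hP : P ≠ 0)
    (p q : V d) :
    ContDiffAt ℝ ∞ (fun z : V d × V d × V d => DD f z.1 z.2.1 z.2.2) (P, p, q) :=
  (DD_smooth f fs).contDiffAt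
      ((isOpen_compl_singleton.prod isOpen_univ).mem_nhds ⟨hP, Set.mem_univ _⟩)

private theorem dd_diff (f : V d → ℝ) (fs : ContDiffOn ℝ ∞ f {0}ᶜ) (P : V d) (hP : P ≠ 0)
    (p q : V d) :
    DifferentiableAt ℝ (fun y => DD f y p q) P := by
  have h2 : DifferentiableAt ℝ (fun y : V d => ((y, p, q) : V d × V d × V d)) P := by fun_prop
  exact ((dd_cd f fs P hP p q).differentiableAt (by simp)).comp P h2

private theorem line_der (P v : V d) : HasDerivAt (fun τ : ℝ => P + τ • v) v 0 := by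
  simpa using ((hasDerivAt_id (0 : ℝ)).smul_const v).const_add P

private theorem comp_line {g : V d → ℝ} {P : V d} (hg : DifferentiableAt ℝ g P) (v : V d) :
    HasDerivAt (fun τ : ℝ => g (P + τ • v)) (fderiv ℝ g P v) 0 := by
  have h0 : P + (0 : ℝ) • v = P := by simp
  have h1 : HasFDerivAt g (fderiv ℝ g P) (P + (0 : ℝ) • v) := by rw [h0]; exact hg.hasFDerivAt
  exact h1.comp_hasDerivAt (0 : ℝ) (line_der P v)

private theorem prod0 {u v : ℝ → ℝ} {u' : ℝ} (hu : HasDerivAt u u' 0) (h0 : u 0 = 0)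
    (hv : ContinuousAt v 0) : HasDerivAt (fun τ => u τ * v τ) (u' * v 0) 0 := by
  rw [hasDerivAt_iff_tendsto_slope_zero] at hu ⊢
  have h1 : Filter.Tendsto v (𝓝[≠] 0) (𝓝 (v 0)) := hv.tendsto.mono_left nhdsWithin_le_nhds
  refine (hu.mul h1).congr' ?_
  filter_upwards [self_mem_nhdsWithin] with t _
  simp only [h0, zero_add, sub_zero, smul_eq_mul, zero_mul]
  ring

private theorem absd {F1 F2 F3 F4 sp sq : ℝ → ℝ} {f1 f2 f3 f4 sp' sq' : ℝ}
    (h1 : HasDerivAt F1 f1 0) (h2 : HasDerivAt F2 f2 0) (h3 : HasDerivAt F3 f3 0)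
    (h4 : HasDerivAt F4 f4 0) (hp : HasDerivAt sp sp' 0) (hp0 : sp 0 = 0)
    (hq : HasDerivAt sq sq' 0) (hq0 : sq 0 = 0) :
    HasDerivAt (fun τ => F1 τ + (-sp τ) * F2 τ + (-sq τ) * F3 τ + (-sp τ) * (-sq τ) * F4 τ)
      (f1 - sp' * F2 0 - sq' * F3 0) 0 := by
  have := ((h1.fun_add (hp.fun_neg.fun_mul h2)).fun_add (hq.fun_neg.fun_mul h3)).fun_add
    ((hp.fun_neg.fun_mul hq.fun_neg).fun_mul h4)
  refine this.congr_deriv ?_
  simp only [hp0, hq0]
  ring

private theorem fd_diff (f : V d → ℝ) (fs : ContDiffOn ℝ ∞ f {0}ᶜ) (P : V d) (hP : P ≠ 0)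
    (p : V d) : DifferentiableAt ℝ (fun y => fderiv ℝ f y p) P := by
  have h1 : ContDiffAt ℝ ∞ f P := fs.contDiffAt (isOpen_compl_singleton.mem_nhds hP)
  have h2 : ContDiffAt ℝ 1 (fderiv ℝ f) P := h1.fderiv_right (m := 1) (by norm_cast)
  exact (h2.differentiableAt (by norm_num)).clm_apply (differentiableAt_const p)

theorem dif (f w : V d → ℝ) (k : Ten d) (lo hi : ℝ) (P : V d) (L : Loc f w k lo hi P) (a b : V d)
    (ha : Tg f P a) (hb : Tg f P b) (haa : DD f P a a ≠ 0) (s : ℝ) (h1 : Kb f w k P a a = -s * DD f P a a)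
    (h2 : Kb f w k P a b = -s * DD f P a b) (h3 : Kb f w k P b b = -s * DD f P b b)
    (hC : ∀ᶠ z : V d × V d × V d in 𝓝 (P, a, b), Tg f z.1 z.2.1 → Tg f z.1 z.2.2 → Cf f w k z.1 z.2.1 z.2.2) :
    ∃ α β : ℝ, ∀ x : ℝ, fderiv ℝ (fun y => Kb f w k y (a + x • b) (a + x • b)) P (a + x • b) =
      -DD f P (a + x • b) (a + x • b) * (α + β * x) - s * D3 f P (a + x • b) (a + x • b) (a + x • b) := by
  have hP : P ≠ 0 := by
    intro h
    have := L.P0
    rw [h] at this
    simp at this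
  have ks := L.ks.symm
  have hP0 : P 0 ≠ 0 := L.P0.ne'
  have hGpos : 0 < gr f P ⬝ᵥ gr f P := by
    rcases (dot_self_nonneg (gr f P)).lt_or_eq with h | h
    · exact h
    · exact absurd (dotProduct_self_eq_zero.mp h.symm) L.reg
  obtain ⟨G, hG⟩ : ∃ G, G = gr f P ⬝ᵥ gr f P := ⟨_, rfl⟩
  rw [← hG] at hGpos
  obtain ⟨n, hn⟩ : ∃ n : V d, n = gr f P + (-(gr f P 0 / P 0)) • P := ⟨_, rfl⟩
  have hn0 : n 0 = 0 := by
    rw [hn]
    simp only [Pi.add_apply, Pi.smul_apply, smul_eq_mul]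
    field_simp
    ring
  have hnf : fderiv ℝ f P n = G := by
    rw [hn, map_add, map_smul, euler1 f L.fs L.fh P hP, ← gr_dot, hG]
    simp
  have xdiff : ∀ p q : V d, DifferentiableAt ℝ (fun y => XX f w k s y p q) P := fun p q =>
    (kb_diff f w k L.fs L.ws L.ks.smooth P hP p q).add ((dd_diff f L.fs P hP p q).const_mul s)
  have haa0 : XX f w k s P a a = 0 := by rw [XX, h1]; ring
  have hab0 : XX f w k s P a b = 0 := by rw [XX, h2]; ring
  have hbb0 : XX f w k s P b b = 0 := by rw [XX, h3]; ring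
  have key : ∀ v : V d,
      (fderiv ℝ (fun y => XX f w k s y a a) P v - DD f P a v / G * XX f w k s P a n -
        DD f P a v / G * XX f w k s P a n) * DD f P b b =
      (fderiv ℝ (fun y => XX f w k s y b b) P v - DD f P b v / G * XX f w k s P b n -
        DD f P b v / G * XX f w k s P b n) * DD f P a a ∧
      (fderiv ℝ (fun y => XX f w k s y a b) P v - DD f P a v / G * XX f w k s P b n -
        DD f P b v / G * XX f w k s P a n) * DD f P a a =
      (fderiv ℝ (fun y => XX f w k s y a a) P v - DD f P a v / G * XX f w k s P a n -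
        DD f P a v / G * XX f w k s P a n) * DD f P a b := by
    intro v
    have hc0 : P + (0 : ℝ) • v = P := by simp
    have hfd : ∀ p : V d, HasDerivAt (fun τ : ℝ => fderiv ℝ f (P + τ • v) p) (DD f P p v) 0 :=
      fun p => comp_line (fd_diff f L.fs P hP p) v
    have hne : ∀ᶠ τ : ℝ in 𝓝 0, fderiv ℝ f (P + τ • v) n ≠ 0 := by
      have := (hfd n).continuousAt
      refine this.eventually_ne ?_
      simp only [hc0, hnf]
      exact hGpos.ne'
    have hsd : ∀ p : V d, fderiv ℝ f P p = 0 →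
        HasDerivAt (fun τ : ℝ => fderiv ℝ f (P + τ • v) p / fderiv ℝ f (P + τ • v) n)
          (DD f P p v / G) 0 := by
      intro p hp
      have h := (hfd p).fun_div (hfd n) (by simp only [hc0, hnf]; exact hGpos.ne')
      refine h.congr_deriv ?_
      simp only [hc0, hnf, hp]
      field_simp
      ring
    obtain ⟨sa, hsa⟩ : ∃ sa : ℝ → ℝ, sa = fun τ : ℝ =>
      fderiv ℝ f (P + τ • v) a / fderiv ℝ f (P + τ • v) n := ⟨_, rfl⟩
    obtain ⟨sb, hsb⟩ : ∃ sb : ℝ → ℝ, sb = fun τ : ℝ =>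
      fderiv ℝ f (P + τ • v) b / fderiv ℝ f (P + τ • v) n := ⟨_, rfl⟩
    have sa0 : sa 0 = 0 := by rw [hsa]; simp only [hc0, ha.2, zero_div]
    have sb0 : sb 0 = 0 := by rw [hsb]; simp only [hc0, hb.2, zero_div]
    have dsa : HasDerivAt sa (DD f P a v / G) 0 := by rw [hsa]; exact hsd a ha.2
    have dsb : HasDerivAt sb (DD f P b v / G) 0 := by rw [hsb]; exact hsd b hb.2
    have hF : ∀ p q : V d, HasDerivAt (fun τ : ℝ => XX f w k s (P + τ • v) p q)
        (fderiv ℝ (fun y => XX f w k s y p q) P v) 0 := fun p q => comp_line (xdiff p q) v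
    -- the three expansions
    have eaa := absd (hF a a) (hF a n) (hF a n) (hF n n) dsa sa0 dsa sa0
    have eab := absd (hF a b) (hF b n) (hF a n) (hF n n) dsa sa0 dsb sb0
    have ebb := absd (hF b b) (hF b n) (hF b n) (hF n n) dsb sb0 dsb sb0
    simp only [hc0] at eaa eab ebb
    -- continuity of the moving vectors
    have cc : ContinuousAt (fun τ : ℝ => ((P + τ • v, a + (-sa τ) • n, b + (-sb τ) • n) :
        V d × V d × V d)) 0 := by
      have c1 : ContinuousAt (fun τ : ℝ => P + τ • v) 0 := (line_der P v).continuousAt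
      have c2 : ContinuousAt (fun τ : ℝ => a + (-sa τ) • n) 0 :=
        continuousAt_const.add (dsa.continuousAt.neg.smul continuousAt_const)
      have c3 : ContinuousAt (fun τ : ℝ => b + (-sb τ) • n) 0 :=
        continuousAt_const.add (dsb.continuousAt.neg.smul continuousAt_const)
      exact c1.prodMk (c2.prodMk c3)
    have cv : ((P + (0 : ℝ) • v, a + (-sa 0) • n, b + (-sb 0) • n) : V d × V d × V d) =
        (P, a, b) := by
      simp [sa0, sb0]
    have hCf : ∀ᶠ τ : ℝ in 𝓝 0, Cf f w k (P + τ • v) (a + (-sa τ) • n) (b + (-sb τ) • n) := by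
      have t1 : Filter.Tendsto (fun τ : ℝ => ((P + τ • v, a + (-sa τ) • n, b + (-sb τ) • n) :
        V d × V d × V d)) (𝓝 0) (𝓝 (P, a, b)) := by
        have := cc.tendsto
        rwa [cv] at this
      filter_upwards [t1.eventually hC, hne] with τ h h'
      refine h ⟨?_, ?_⟩ ⟨?_, ?_⟩
      · simp [ha.1, hn0]
      · simp only [map_add, map_smul, smul_eq_mul, hsa]
        field_simp
        ring
      · simp [hb.1, hn0]
      · simp only [map_add, map_smul, smul_eq_mul, hsb]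
        field_simp
        ring
    have hy : ∀ᶠ τ : ℝ in 𝓝 0, P + τ • v ≠ 0 := by
      refine (line_der P v).continuousAt.eventually_ne ?_
      rw [hc0]
      exact hP
    have dcont : ∀ p q : ℝ → V d, ContinuousAt p 0 → ContinuousAt q 0 →
        ContinuousAt (fun τ : ℝ => DD f (P + τ • v) (p τ) (q τ)) 0 := by
      intro p q hp hq
      have h1 : ContinuousAt (fun z : V d × V d × V d => DD f z.1 z.2.1 z.2.2)
          (P + (0 : ℝ) • v, p 0, q 0) := by
        rw [hc0]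
        exact (dd_cd f L.fs P hP (p 0) (q 0)).continuousAt
      exact ContinuousAt.comp (f := fun τ : ℝ => ((P + τ • v, p τ, q τ) : V d × V d × V d)) h1
        ((line_der P v).continuousAt.prodMk (hp.prodMk hq))
    have cA : ContinuousAt (fun τ : ℝ => a + (-sa τ) • n) 0 :=
      continuousAt_const.add (dsa.continuousAt.neg.smul continuousAt_const)
    have cB : ContinuousAt (fun τ : ℝ => b + (-sb τ) • n) 0 :=
      continuousAt_const.add (dsb.continuousAt.neg.smul continuousAt_const)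
    have vaa := dcont _ _ cA cA
    have vab := dcont _ _ cA cB
    have vbb := dcont _ _ cB cB
    constructor
    · have l1 := prod0 eaa (by simp only [sa0, hc0, haa0]; ring) vbb
      have l2 := prod0 ebb (by simp only [sb0, hc0, hbb0]; ring) vaa
      simp only [sa0, sb0, neg_zero, zero_smul, add_zero] at l1 l2
      refine l1.unique (l2.congr_of_eventuallyEq ?_)
      filter_upwards [hCf, hy] with τ hh hy'
      rw [← XX_exp f w k s L.fs ks _ hy' a a n (-sa τ) (-sa τ),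
        ← XX_exp f w k s L.fs ks _ hy' b b n (-sb τ) (-sb τ), XX, XX]
      linear_combination hh.1
    · have l1 := prod0 eab (by simp only [sa0, sb0, hc0, hab0]; ring) vaa
      have l2 := prod0 eaa (by simp only [sa0, hc0, haa0]; ring) vab
      simp only [sa0, sb0, neg_zero, zero_smul, add_zero] at l1 l2
      refine l1.unique (l2.congr_of_eventuallyEq ?_)
      filter_upwards [hCf, hy] with τ hh hy'
      rw [← XX_exp f w k s L.fs ks _ hy' a a n (-sa τ) (-sa τ),
        ← XX_exp f w k s L.fs ks _ hy' a b n (-sa τ) (-sb τ), XX, XX]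
      linear_combination hh.2
  obtain ⟨θa, hθa⟩ : ∃ t, t = XX f w k s P a n / G := ⟨_, rfl⟩
  obtain ⟨θb, hθb⟩ : ∃ t, t = XX f w k s P b n / G := ⟨_, rfl⟩
  obtain ⟨Ea, hEa⟩ : ∃ t, t = fderiv ℝ (fun y => XX f w k s y a a) P a := ⟨_, rfl⟩
  obtain ⟨Eb, hEb⟩ : ∃ t, t = fderiv ℝ (fun y => XX f w k s y a a) P b := ⟨_, rfl⟩
  refine ⟨-((Ea - 2 * DD f P a a * θa) / DD f P a a + 2 * θa),
    -((Eb - 2 * DD f P a b * θa) / DD f P a a + 2 * θb), fun x => ?_⟩
  obtain ⟨k1, k2⟩ := key (a + x • b)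
  obtain ⟨v, hv⟩ : ∃ v : V d, v = a + x • b := ⟨_, rfl⟩
  have e1 : DD f P a (a + x • b) = DD f P a a + x * DD f P a b := by
    rw [DD_add_right, DD_smul_right]
  have e2 : DD f P b (a + x • b) = DD f P a b + x * DD f P b b := by
    rw [DD_add_right, DD_smul_right, DD_comm f L.fs P hP b a]
  have e3 : fderiv ℝ (fun y => XX f w k s y a a) P (a + x • b) = Ea + x * Eb := by
    rw [map_add, map_smul, smul_eq_mul, hEa, hEb]
  have e4 := DD_exp f L.fs P hP a b x
  have e5 : fderiv ℝ (fun y => XX f w k s y (a + x • b) (a + x • b)) P (a + x • b) =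
      fderiv ℝ (fun y => XX f w k s y a a) P (a + x • b) +
      2 * x * fderiv ℝ (fun y => XX f w k s y a b) P (a + x • b) +
      x * x * fderiv ℝ (fun y => XX f w k s y b b) P (a + x • b) := by
    have hev : (fun y => XX f w k s y (a + x • b) (a + x • b)) =ᶠ[𝓝 P]
        fun y => XX f w k s y a a + 2 * x * XX f w k s y a b + x * x * XX f w k s y b b := by
      filter_upwards [isOpen_compl_singleton.mem_nhds hP] with y hy
      rw [XX_exp f w k s L.fs ks y hy]
      ring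
    rw [hev.fderiv_eq]
    have q1 := (xdiff a a).hasFDerivAt
    have q2 := (xdiff a b).hasFDerivAt
    have q3 := (xdiff b b).hasFDerivAt
    have q4 := (q1.fun_add (q2.const_mul (2 * x))).fun_add (q3.const_mul (x * x))
    rw [q4.fderiv]
    rfl
  have e6 : fderiv ℝ (fun y => XX f w k s y (a + x • b) (a + x • b)) P (a + x • b) =
      fderiv ℝ (fun y => Kb f w k y (a + x • b) (a + x • b)) P (a + x • b) +
      s * D3 f P (a + x • b) (a + x • b) (a + x • b) := by
    have q1 := (kb_diff f w k L.fs L.ws L.ks.smooth P hP (a + x • b) (a + x • b)).hasFDerivAt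
    have q2 := (dd_diff f L.fs P hP (a + x • b) (a + x • b)).hasFDerivAt
    have q3 := q1.fun_add (q2.const_mul s)
    have q4 : fderiv ℝ (fun y => XX f w k s y (a + x • b) (a + x • b)) P = _ := q3.fderiv
    rw [q4]
    rfl
  rw [e1, e2, e3] at k1 k2
  rw [e3] at e5
  rw [e5] at e6
  rw [e4]
  obtain ⟨Fab, hFab⟩ : ∃ t, t = fderiv ℝ (fun y => XX f w k s y a b) P (a + x • b) := ⟨_, rfl⟩
  obtain ⟨Fbb, hFbb⟩ : ∃ t, t = fderiv ℝ (fun y => XX f w k s y b b) P (a + x • b) := ⟨_, rfl⟩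
  rw [← hFab] at k2 e6
  rw [← hFbb] at k1 e6
  obtain ⟨A, hA⟩ : ∃ t, t = DD f P a a := ⟨_, rfl⟩
  obtain ⟨B, hB⟩ : ∃ t, t = DD f P a b := ⟨_, rfl⟩
  obtain ⟨C, hC'⟩ : ∃ t, t = DD f P b b := ⟨_, rfl⟩
  rw [← hA] at haa
  rw [← hA, ← hB, ← hC'] at k1 k2 ⊢
  obtain ⟨μ, hμ⟩ : ∃ μ, μ = (Ea + x * Eb - 2 * (A + x * B) * θa) / A := ⟨_, rfl⟩
  have m1 : Ea + x * Eb - 2 * (A + x * B) * θa = μ * A := by rw [hμ]; field_simp
  have m3 : Fbb - 2 * (B + x * C) * θb = μ * C := by
    apply mul_right_cancel₀ haa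
    rw [hθb]
    rw [hθa] at m1
    linear_combination (-1 : ℝ) * k1 + C * m1
  have m2 : Fab - (A + x * B) * θb - (B + x * C) * θa = μ * B := by
    apply mul_right_cancel₀ haa
    rw [hθb, hθa]
    rw [hθa] at m1
    linear_combination k2 + B * m1
  have m4 : -((Ea - 2 * A * θa) / A + 2 * θa) + -((Eb - 2 * B * θa) / A + 2 * θb) * x =
      -(μ + 2 * θa + 2 * x * θb) := by
    rw [hμ]
    field_simp
    ring
  rw [m4]
  linear_combination m1 + 2 * x * m2 + x * x * m3 - e6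

end Pool.Agent.Work.MP_659252_gt.QR
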