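import Pool.Agent.Work.MP_659252_gt.QR.L.BilB

/-!
# Functions along a tangent line.  Size: M.

PROOF.  `far`: `f (P + τ v) = f (τ⁻¹ P + v)` (`fh` with `c = τ⁻¹`), `f v < lo` (`feq`: `v ≠ 0`, `v 0 = 0`), continuity of `f` at `v`.
`line_g`: `P + τ v ≠ 0` for all `τ` (coordinate `0` is `P 0 > 0`), so the functions are compositions of smooth functions; the derivative of `g τ = f (P + τ v)` is `fderiv f (P + τ v) v`, the second
derivative is `DD f (P + τ v) v v`, the third `D3 f (P + τ v) v v v` (chain rule), for all `τ`; at `τ = 0`: `deriv g 0 = fderiv f P v = 0`.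
`Ef_eq`: for `η` near `0` (`P + τ (v + η n) ≠ 0`), by bilinearity and symmetry of `Kb` (`Kq_eq`): `Kq f w k y (v + η n) = Kb y v v + 2 η Kb y v n + η² Kb y n n` with `y = P + τ v + (τ η) n`; derivative at `η = 0`.
`line_E`: by `Ef_eq`, sums of smooth functions of `τ`.
-/

namespace Pool.Agent.Work.MP_659252_gt.QR

open scoped ContDiff Topology
open Pool.Agent.Work.MP_659252_gt.Z (V Ten val Tan InT IsZoll IsMetric IsGeodesic)

variable {d : ℕ}

private theorem fr_ne {P v : V d} (hP : 0 < P 0) (hv : v 0 = 0) (τ : ℝ) : P + τ • v ≠ 0 := by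
  intro h
  have h1 := congrFun h 0
  simp only [Pi.add_apply, Pi.smul_apply, hv, smul_zero, add_zero, Pi.zero_apply] at h1
  exact hP.ne' h1

private theorem fr_line (P v : V d) : ContDiff ℝ ∞ (fun τ : ℝ => P + τ • v) :=
  contDiff_const.add (contDiff_id.smul contDiff_const)

private theorem fr_cd {h : V d → ℝ} (hs : ContDiffOn ℝ ∞ h {0}ᶜ) {P v : V d} (hP : 0 < P 0)
    (hv : v 0 = 0) : ContDiff ℝ ∞ (fun τ : ℝ => h (P + τ • v)) :=
  hs.comp_contDiff (fr_line P v) (fun τ => fr_ne hP hv τ)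

private theorem fr_da {h : V d → ℝ} (hs : ContDiffOn ℝ ∞ h {0}ᶜ) {x : V d} (hx : x ≠ 0) :
    DifferentiableAt ℝ h x :=
  (hs.contDiffAt (isOpen_compl_singleton.mem_nhds hx)).differentiableAt (by simp)

private theorem fr_dv {h : V d → ℝ} (hs : ContDiffOn ℝ ∞ h {0}ᶜ) {P v : V d} (hP : 0 < P 0)
    (hv : v 0 = 0) (τ : ℝ) : HasDerivAt (fun τ : ℝ => h (P + τ • v))
      (fderiv ℝ h (P + τ • v) v) τ := by
  have h1 : HasDerivAt (fun τ : ℝ => P + τ • v) v τ := by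
    have h2 := ((hasDerivAt_id τ).smul_const v).const_add P
    simpa using h2
  exact (fr_da hs (fr_ne hP hv τ)).hasFDerivAt.comp_hasDerivAt τ h1

private theorem fr_fd {h : V d → ℝ} (hs : ContDiffOn ℝ ∞ h {0}ᶜ) (a : V d) :
    ContDiffOn ℝ ∞ (fun y => fderiv ℝ h y a) {0}ᶜ := by
  have h1 : ContDiffOn ℝ ∞ (fderiv ℝ h) ({0}ᶜ : Set (V d)) :=
    hs.fderiv_of_isOpen isOpen_compl_singleton (by simp)
  exact h1.clm_apply contDiffOn_const

private theorem fr_DD {f : V d → ℝ} (fs : ContDiffOn ℝ ∞ f {0}ᶜ) (a b : V d) :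
    ContDiffOn ℝ ∞ (fun y => DD f y a b) {0}ᶜ := fr_fd (fr_fd fs a) b

private theorem fr_Kb {f w : V d → ℝ} {k : Ten d} (fs : ContDiffOn ℝ ∞ f {0}ᶜ)
    (ws : ContDiffOn ℝ ∞ w {0}ᶜ) (ks : ContDiffOn ℝ ∞ k {0}ᶜ) (a b : V d) :
    ContDiffOn ℝ ∞ (fun y => Kb f w k y a b) {0}ᶜ := by
  have h1 : ContDiffOn ℝ ∞ (fun y : V d => ((y, a, b) : V d × V d × V d)) {0}ᶜ :=
    contDiffOn_id.prodMk (contDiffOn_const.prodMk contDiffOn_const)
  exact (Kb_smooth f w k fs ws ks).comp h1 (fun y hy => ⟨hy, Set.mem_univ _⟩)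

theorem far (f w : V d → ℝ) (k : Ten d) (lo hi : ℝ) (P : V d) (L : Loc f w k lo hi P) (v : V d) (hv : Tg f P v)
    (hv0 : v ≠ 0) : ∃ R > 0, ∀ τ : ℝ, R ≤ |τ| → f (P + τ • v) < lo := by
  have h1 : f v < lo := L.feq v hv0 hv.1
  have h2 : ContinuousAt f v := (fr_da L.fs hv0).continuousAt
  obtain ⟨ε, hε, h3⟩ := Metric.eventually_nhds_iff.1 (h2.eventually_lt_const h1)
  refine ⟨‖P‖ / ε + 1, by positivity, fun τ hτ => ?_⟩
  have hR : 0 < |τ| := lt_of_lt_of_le (by positivity) hτ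
  have hτ0 : τ ≠ 0 := abs_pos.1 hR
  have h4 : P + τ • v = τ • (τ⁻¹ • P + v) := by
    rw [smul_add, smul_smul, mul_inv_cancel₀ hτ0, one_smul]
  rw [h4, L.fh τ _ hτ0]
  apply h3
  rw [dist_eq_norm, add_sub_cancel_right, norm_smul, norm_inv, Real.norm_eq_abs, inv_mul_eq_div,
    div_lt_iff₀ hR]
  have h5 : ‖P‖ / ε < |τ| := lt_of_lt_of_le (lt_add_one _) hτ
  rw [div_lt_iff₀ hε] at h5
  linarith

theorem line_g (f w : V d → ℝ) (k : Ten d) (lo hi : ℝ) (P : V d) (L : Loc f w k lo hi P) (v : V d) (hv : Tg f P v) :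
    ContDiff ℝ ∞ (fun τ : ℝ => f (P + τ • v)) ∧ deriv (fun τ : ℝ => f (P + τ • v)) 0 = 0 ∧
      iteratedDeriv 2 (fun τ : ℝ => f (P + τ • v)) 0 = DD f P v v ∧
      iteratedDeriv 3 (fun τ : ℝ => f (P + τ • v)) 0 = D3 f P v v v ∧
      ContDiff ℝ ∞ (fun τ : ℝ => fderiv ℝ f (P + τ • v) (gr f P)) ∧
      ContDiff ℝ ∞ (fun τ : ℝ => Kq f w k (P + τ • v) v) ∧
      deriv (fun τ : ℝ => Kq f w k (P + τ • v) v) 0 = fderiv ℝ (fun y => Kb f w k y v v) P v := by
  have hP := L.P0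
  have e0 : P + (0 : ℝ) • v = P := by rw [zero_smul, add_zero]
  have d1 : deriv (fun τ : ℝ => f (P + τ • v)) = fun τ => fderiv ℝ f (P + τ • v) v := by
    funext τ
    exact (fr_dv L.fs hP hv.1 τ).deriv
  have d2 : deriv (fun τ : ℝ => fderiv ℝ f (P + τ • v) v) = fun τ => DD f (P + τ • v) v v := by
    funext τ
    exact (fr_dv (fr_fd L.fs v) hP hv.1 τ).deriv
  have d3 : deriv (fun τ : ℝ => DD f (P + τ • v) v v) = fun τ => D3 f (P + τ • v) v v v := by
    funext τ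
    exact (fr_dv (fr_DD L.fs v v) hP hv.1 τ).deriv
  have hK : (fun τ : ℝ => Kq f w k (P + τ • v) v) = fun τ => Kb f w k (P + τ • v) v v := by
    funext τ
    exact Kq_eq f w k _ v
  refine ⟨fr_cd L.fs hP hv.1, ?_, ?_, ?_, fr_cd (fr_fd L.fs _) hP hv.1, ?_, ?_⟩
  · rw [d1]
    show fderiv ℝ f (P + (0 : ℝ) • v) v = 0
    rw [e0]
    exact hv.2
  · rw [iteratedDeriv_succ, iteratedDeriv_one, d1, d2]
    show DD f (P + (0 : ℝ) • v) v v = _
    rw [e0]
  · rw [iteratedDeriv_succ, iteratedDeriv_succ, iteratedDeriv_one, d1, d2, d3]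
    show D3 f (P + (0 : ℝ) • v) v v v = _
    rw [e0]
  · rw [hK]
    exact fr_cd (fr_Kb L.fs L.ws L.ks.smooth v v) hP hv.1
  · rw [hK, (fr_dv (fr_Kb L.fs L.ws L.ks.smooth v v) hP hv.1 0).deriv, e0]

theorem Ef_eq (f w : V d → ℝ) (k : Ten d) (lo hi : ℝ) (P : V d) (L : Loc f w k lo hi P) (v : V d) (hv : Tg f P v)
    (τ : ℝ) : Ef f w k P v τ = τ * fderiv ℝ (fun y => Kb f w k y v v) (P + τ • v) (gr f P) +
      2 * Kb f w k (P + τ • v) v (gr f P) := by
  set n : V d := gr f P with hn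
  have hne : P + τ • v ≠ 0 := fr_ne L.P0 hv.1 τ
  let l : ℝ → V d := fun η => P + τ • (v + η • n)
  have hl0 : l 0 = P + τ • v := by
    show P + τ • (v + (0 : ℝ) • n) = _
    rw [zero_smul, add_zero]
  have hld : HasDerivAt l (τ • n) 0 := by
    have h1 : HasDerivAt (fun η : ℝ => v + η • n) n 0 := by
      have h2 := ((hasDerivAt_id (0 : ℝ)).smul_const n).const_add v
      simpa using h2
    exact (h1.const_smul τ).const_add P
  have hlc : ContinuousAt l 0 := hld.continuousAt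
  have hlne : ∀ᶠ η in 𝓝 (0 : ℝ), l η ≠ 0 := by
    refine hlc.eventually_ne ?_
    rw [hl0]
    exact hne
  have hev : (fun η : ℝ => Kq f w k (P + τ • (v + η • n)) (v + η • n)) =ᶠ[𝓝 0]
      fun η => Kb f w k (l η) v v + 2 * Kb f w k (l η) v n * η + Kb f w k (l η) n n * η ^ 2 := by
    filter_upwards [hlne] with η hη
    rw [Kq_eq]
    exact Kb_exp f w k L.fs L.ks.symm (l η) hη v n η
  have hdK : ∀ a b : V d, HasDerivAt (fun η => Kb f w k (l η) a b)
      (fderiv ℝ (fun y => Kb f w k y a b) (P + τ • v) (τ • n)) 0 := by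
    intro a b
    have h1 : DifferentiableAt ℝ (fun y => Kb f w k y a b) (l 0) := by
      rw [hl0]
      exact fr_da (fr_Kb L.fs L.ws L.ks.smooth a b) hne
    have h2 := h1.hasFDerivAt.comp_hasDerivAt (0 : ℝ) hld
    rw [hl0] at h2
    exact h2
  have h1 : HasDerivAt (fun η => Kb f w k (l η) v v + 2 * Kb f w k (l η) v n * η +
      Kb f w k (l η) n n * η ^ 2)
      (fderiv ℝ (fun y => Kb f w k y v v) (P + τ • v) (τ • n) + 2 * Kb f w k (P + τ • v) v n) 0 := by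
    have h2 := (hdK v v).add (((hdK v n).const_mul 2).mul (hasDerivAt_id (0 : ℝ)))
    have h3 := (hdK n n).mul ((hasDerivAt_id (0 : ℝ)).pow 2)
    have h4 := h2.add h3
    refine HasDerivAt.congr_deriv (f := fun η => Kb f w k (l η) v v +
      2 * Kb f w k (l η) v n * η + Kb f w k (l η) n n * η ^ 2) h4 ?_
    rw [hl0]
    simp only [id, Pi.pow_apply]
    ring
  have h2 : Ef f w k P v τ = deriv (fun η => Kb f w k (l η) v v + 2 * Kb f w k (l η) v n * η +
      Kb f w k (l η) n n * η ^ 2) 0 := hev.deriv_eq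
  rw [h2, h1.deriv, map_smul, smul_eq_mul]

theorem line_E (f w : V d → ℝ) (k : Ten d) (lo hi : ℝ) (P : V d) (L : Loc f w k lo hi P) (v : V d) (hv : Tg f P v) :
    ContDiff ℝ ∞ (Ef f w k P v) := by
  have h : Ef f w k P v = fun τ => τ * fderiv ℝ (fun y => Kb f w k y v v) (P + τ • v) (gr f P) +
      2 * Kb f w k (P + τ • v) v (gr f P) := by
    funext τ
    exact Ef_eq f w k lo hi P L v hv τ
  rw [h]
  exact (contDiff_id.mul (fr_cd (fr_fd (fr_Kb L.fs L.ws L.ks.smooth v v) _) L.P0 hv.1)).add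
    (contDiff_const.mul (fr_cd (fr_Kb L.fs L.ws L.ks.smooth v _) L.P0 hv.1))

end Pool.Agent.Work.MP_659252_gt.QR
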