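import Mathlib
import Pool.Agent.Work.MP_e214ac_gt.R.PInt

/-!
# Hadamard's lemma in one variable.  Size: S-M.

PROOF.  `q τ = ∫ s in 0..1, deriv g (s τ)`.  Smooth: parametric integral of the smooth function `(τ, s) ↦ deriv g (s τ)` (`contDiff_parametric_intervalIntegral...`, or
`E214.contDiffOn_param_integral` of `Pool.Agent.Work.MP_e214ac_gt.R.PInt`, which may be imported).  `g τ = g 0 + τ q τ`: fundamental theorem (`τ • ∫ s in 0..1, deriv g (s τ) = ∫ deriv g` on `0..τ`).
The derivatives at `0`: differentiate the identity `g τ = g 0 + τ q τ` (all functions are smooth): `g' = q + τ q'`, `g'' = 2 q' + τ q''`, `g^(3) = 3 q'' + τ q^(3)`, at `τ = 0`.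
-/

namespace Pool.Agent.Work.MP_659252_gt.QR

open scoped ContDiff Topology

theorem hadamard (g : ℝ → ℝ) (hg : ContDiff ℝ ∞ g) : ∃ q : ℝ → ℝ, ContDiff ℝ ∞ q ∧ (∀ τ, g τ = g 0 + τ * q τ) ∧
    q 0 = deriv g 0 ∧ deriv q 0 = iteratedDeriv 2 g 0 / 2 ∧ iteratedDeriv 2 q 0 = iteratedDeriv 3 g 0 / 3 := by
  have hg1 : ContDiff ℝ ∞ (deriv g) := (contDiff_infty_iff_deriv.1 hg).2
  let q : ℝ → ℝ := fun τ => ∫ s in (0 : ℝ)..1, deriv g (τ * s)
  have hq : ContDiff ℝ ∞ q := by
    have hF : ContDiff ℝ ∞ (fun p : ℝ × ℝ => deriv g (p.1 * p.2)) :=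
      hg1.comp (contDiff_fst.mul contDiff_snd)
    have h := (E214.contDiffOn_param_integral (E := ℝ) Set.univ isOpen_univ Set.univ isOpen_univ
      (fun _ _ _ _ => trivial) (fun p : ℝ × ℝ => deriv g (p.1 * p.2)) hF.contDiffOn).1
    exact contDiffOn_univ.1 h
  have hid : ∀ τ, g τ = g 0 + τ * q τ := by
    intro τ
    have h1 : ∀ s ∈ Set.uIcc (0 : ℝ) 1, HasDerivAt (fun s => g (τ * s)) (τ * deriv g (τ * s)) s := by
      intro s _
      have h2 : HasDerivAt g (deriv g (τ * s)) (τ * s) :=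
        (hg.differentiable (by simp) (τ * s)).hasDerivAt
      have h3 : HasDerivAt (fun s : ℝ => τ * s) τ s := by
        simpa using (hasDerivAt_id s).const_mul τ
      have h4 := h2.comp s h3
      rw [mul_comm] at h4
      exact h4
    have h5 : IntervalIntegrable (fun s => τ * deriv g (τ * s)) MeasureTheory.volume 0 1 := by
      apply Continuous.intervalIntegrable
      exact continuous_const.mul (hg1.continuous.comp (continuous_const.mul continuous_id))
    have h6 := intervalIntegral.integral_eq_sub_of_hasDerivAt h1 h5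
    rw [intervalIntegral.integral_const_mul] at h6
    simp only [mul_one, mul_zero] at h6
    show g τ = g 0 + τ * ∫ s in (0 : ℝ)..1, deriv g (τ * s)
    linarith
  have hq1 : ContDiff ℝ ∞ (deriv q) := (contDiff_infty_iff_deriv.1 hq).2
  have hq2 : ContDiff ℝ ∞ (deriv (deriv q)) := (contDiff_infty_iff_deriv.1 hq1).2
  have dq : ∀ τ, HasDerivAt q (deriv q τ) τ := fun τ => (hq.differentiable (by simp) τ).hasDerivAt
  have dq1 : ∀ τ, HasDerivAt (deriv q) (deriv (deriv q) τ) τ :=
    fun τ => (hq1.differentiable (by simp) τ).hasDerivAt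
  have dq2 : ∀ τ, HasDerivAt (deriv (deriv q)) (deriv (deriv (deriv q)) τ) τ :=
    fun τ => (hq2.differentiable (by simp) τ).hasDerivAt
  have e0 : g = fun τ => g 0 + τ * q τ := funext hid
  have e1 : deriv g = fun τ => q τ + τ * deriv q τ := by
    funext τ
    have h : HasDerivAt (fun τ => g 0 + τ * q τ) (1 * q τ + τ * deriv q τ) τ :=
      ((hasDerivAt_id' τ).mul (dq τ)).const_add (g 0)
    rw [one_mul] at h
    have h2 : HasDerivAt g (q τ + τ * deriv q τ) τ := by
      rw [e0]
      exact h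
    exact h2.deriv
  have e2 : deriv (deriv g) = fun τ => 2 * deriv q τ + τ * deriv (deriv q) τ := by
    funext τ
    rw [e1]
    have h : HasDerivAt (fun τ => q τ + τ * deriv q τ)
        (deriv q τ + (1 * deriv q τ + τ * deriv (deriv q) τ)) τ :=
      (dq τ).add ((hasDerivAt_id' τ).mul (dq1 τ))
    rw [h.deriv]
    ring
  have e3 : deriv (deriv (deriv g)) = fun τ => 3 * deriv (deriv q) τ + τ * deriv (deriv (deriv q)) τ := by
    funext τ
    rw [e2]
    have h : HasDerivAt (fun τ => 2 * deriv q τ + τ * deriv (deriv q) τ)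
        (2 * deriv (deriv q) τ + (1 * deriv (deriv q) τ + τ * deriv (deriv (deriv q)) τ)) τ :=
      ((dq1 τ).const_mul 2).add ((hasDerivAt_id' τ).mul (dq2 τ))
    rw [h.deriv]
    ring
  have i2 : ∀ (f : ℝ → ℝ), iteratedDeriv 2 f = deriv (deriv f) := by
    intro f
    rw [show (2 : ℕ) = 1 + 1 from rfl, iteratedDeriv_succ, iteratedDeriv_one]
  have i3 : ∀ (f : ℝ → ℝ), iteratedDeriv 3 f = deriv (deriv (deriv f)) := by
    intro f
    rw [show (3 : ℕ) = 2 + 1 from rfl, iteratedDeriv_succ, i2]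
  refine ⟨q, hq, hid, ?_, ?_, ?_⟩
  · rw [e1]
    simp
  · rw [i2, e2]
    simp
  · rw [i2, i3, e3]
    simp

end Pool.Agent.Work.MP_659252_gt.QR
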