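import Pool.Agent.Work.MP_659252_gt.QR.L.Had
import Pool.Agent.Work.MP_659252_gt.QR.J.Scale

/-!
# The signed integral of order two.  Size: M.

PROOF.  Write `c = iteratedDeriv 3 g 0`.  `hadamard` twice (for `g`, `q 0 = deriv g 0 = 0`, then for `q`): `m - g τ = (κ/2) τ² p τ` with `p` smooth, `p 0 = 1`, `deriv p 0 = -c/(3 κ)`
(`q₂ 0 = g''(0)/2 = -κ/2`, `q₂'(0) = q''(0)/2 = c/6`, `p = -2 q₂/κ`), and `p τ > 0` for all `τ` by `hlt`.  Put `h τ = τ √(p τ)`: smooth, `κ h²/2 = m - g`, `sign (h τ) = sign τ`, `deriv h 0 = 1`,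
`h''(0) = 2 (√p)'(0) = p'(0) = -c/(3 κ)`, so `HasDerivAt (deriv h) (-c/(3 κ)) 0`.
(1) For small `δ > 0`: `∫_{-ρ}^{ρ} sign τ χ((m - g τ)/δ²) h'(τ) dτ = ∫_{h(-ρ)}^{h(ρ)} sign y χ(κ y²/(2 δ²)) dy` (`intervalIntegral.integral_comp_mul_deriv`; the function
`y ↦ sign y χ(κ y²/(2δ²))` is continuous because `χ s = 0` for `s < 1`), and this is `0`: the integrand vanishes for `|y| > √4 δ/√κ`, and `h(-ρ) < 0 < h(ρ)`, so for small `δ` the integral is over a
symmetric interval, of an odd function.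
(2) `N τ = M τ - M 0 * deriv h τ` is continuous on `[-ρ, ρ]`, `N 0 = 0`, `HasDerivAt N N' 0`, `N' = M1 + M 0 c/(3 κ)`.  `n τ = N τ/τ` for `τ ≠ 0`, `n 0 = N'` (`dslope N 0`): continuous on `[-ρ, ρ]`
(`continuousOn_dslope`).  `δ^{-2} ∫ sign τ χ((m - g)/δ²) τ n τ dτ = δ⁻¹ ∫ χ₂((m - g τ)/δ²) (n τ/√(p τ)) dτ` with `χ₂ s = χ s √(2 s/κ)` (since `sign τ τ = |τ| = √(2(m - g τ)/κ)/√(p τ)`); `χ₂` is continuous and vanishes
outside of `[1, 2]`.  By `scale` it tends to `n 0 ∫ χ₂(κ u²/2) du = N' ∫ |u| χ(κ u²/2) du = N' (2/κ) ∫ χ` (substitution `s = κ u²/2` on `u > 0`; e.g.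
`MeasureTheory.integral_comp_abs`, `integral_Ioi` substitution, or on `[0, 2/√κ + 1]` with `intervalIntegral.integral_comp_mul_deriv`).
(3) `M = M 0 h' + N`.  The limit is `2 (∫ χ) N'/κ`.
-/

namespace Pool.Agent.Work.MP_659252_gt.QR

open scoped ContDiff Topology

private theorem la_sign (τ : ℝ) : Real.sign τ * τ = |τ| := by
  rcases lt_trichotomy τ 0 with h | h | h
  · rw [Real.sign_of_neg h, abs_of_neg h]
    ring
  · subst h
    simp
  · rw [Real.sign_of_pos h, abs_of_pos h]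
    ring

private theorem la_sign' (τ : ℝ) : Real.sign τ * |τ| = τ := by
  rcases lt_trichotomy τ 0 with h | h | h
  · rw [Real.sign_of_neg h, abs_of_neg h]
    ring
  · subst h
    simp
  · rw [Real.sign_of_pos h, abs_of_pos h]
    ring

private theorem la_cont (κ δ : ℝ) (hκ : 0 < κ) (hδ : 0 < δ) (χ : ℝ → ℝ) (hχ : Continuous χ)
    (hs : ∀ s, s ∉ Set.Icc (1 : ℝ) 2 → χ s = 0) :
    Continuous fun y => Real.sign y * χ (κ * y ^ 2 / 2 / δ ^ 2) := by
  have hr : 0 < δ / (1 + κ) := by positivity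
  have e : (fun y => Real.sign y * χ (κ * y ^ 2 / 2 / δ ^ 2)) =
      fun y => y / max |y| (δ / (1 + κ)) * χ (κ * y ^ 2 / 2 / δ ^ 2) := by
    funext y
    by_cases hy : |y| < δ / (1 + κ)
    · have h0 : χ (κ * y ^ 2 / 2 / δ ^ 2) = 0 := by
        apply hs
        rintro ⟨h1, -⟩
        rw [le_div_iff₀ (by positivity), one_mul] at h1
        rw [lt_div_iff₀ (by positivity)] at hy
        have h3 : (|y| * (1 + κ)) ^ 2 < δ ^ 2 := by
          have h4 : 0 ≤ |y| * (1 + κ) := by positivity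
          exact pow_lt_pow_left₀ hy h4 two_ne_zero
        rw [mul_pow, sq_abs] at h3
        have h5 : 0 ≤ y ^ 2 := sq_nonneg y
        have h6 : 0 ≤ κ * y ^ 2 := by positivity
        have h7 : 0 ≤ κ ^ 2 * y ^ 2 := by positivity
        nlinarith
      rw [h0, mul_zero, mul_zero]
    · push Not at hy
      have hy0 : 0 < |y| := lt_of_lt_of_le hr hy
      rw [max_eq_left hy]
      congr 1
      rw [eq_div_iff hy0.ne']
      exact la_sign' y
  rw [e]
  refine Continuous.mul (Continuous.div continuous_id (by fun_prop) fun y => ?_) (hχ.comp (by fun_prop))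
  exact (lt_of_lt_of_le hr (le_max_right _ _)).ne'

private theorem la_int (κ : ℝ) (hκ : 0 < κ) (χ : ℝ → ℝ) (hχ : Continuous χ)
    (hs : ∀ s, s ∉ Set.Icc (1 : ℝ) 2 → χ s = 0) :
    ∫ u : ℝ, |u| * χ (κ * u ^ 2 / 2) = 2 / κ * ∫ s, χ s := by
  have hcs : HasCompactSupport χ := HasCompactSupport.intro isCompact_Icc hs
  have hint : MeasureTheory.Integrable χ := hχ.integrable_of_hasCompactSupport hcs
  have h1 : ∫ u : ℝ, |u| * χ (κ * u ^ 2 / 2) = 2 * ∫ u in Set.Ioi (0 : ℝ), u * χ (κ * u ^ 2 / 2) := by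
    rw [← integral_comp_abs (f := fun u => u * χ (κ * u ^ 2 / 2))]
    congr 1
    funext u
    rw [sq_abs]
  have h2 : ∫ u in Set.Ioi (0 : ℝ), (χ ∘ fun u => κ * u ^ 2 / 2) u * (κ * u) =
      ∫ s in Set.Ioi (κ * (0 : ℝ) ^ 2 / 2), χ s := by
    apply MeasureTheory.integral_comp_mul_deriv_Ioi
    · fun_prop
    · have h3 : Filter.Tendsto (fun u : ℝ => u ^ 2) Filter.atTop Filter.atTop :=
        Filter.tendsto_pow_atTop two_ne_zero
      have h4 := h3.const_mul_atTop (show 0 < κ / 2 by positivity)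
      refine h4.congr fun u => ?_
      ring
    · intro x _
      have h5 : HasDerivAt (fun u : ℝ => κ * u ^ 2 / 2) (κ * x) x := by
        have h6 := ((hasDerivAt_pow 2 x).const_mul κ).div_const 2
        refine h6.congr_deriv ?_
        norm_num
        ring
      exact h5.hasDerivWithinAt
    · exact hχ.continuousOn
    · exact hint.integrableOn
    · have h7 : Continuous fun u : ℝ => (χ ∘ fun u => κ * u ^ 2 / 2) u * (κ * u) :=
        (hχ.comp (by fun_prop)).mul (by fun_prop)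
      have h8 : HasCompactSupport fun u : ℝ => (χ ∘ fun u => κ * u ^ 2 / 2) u * (κ * u) := by
        refine HasCompactSupport.intro (K := Set.Icc (-(4 / κ + 1)) (4 / κ + 1)) isCompact_Icc ?_
        intro u hu
        have h9 : χ (κ * u ^ 2 / 2) = 0 := by
          refine hs _ fun hm => hu ?_
          have h10 : u ^ 2 ≤ 4 / κ := by
            rw [le_div_iff₀ hκ]
            linarith [hm.2]
          have h11 : 0 < 4 / κ := by positivity
          have h12 : |u| ≤ 4 / κ + 1 := abs_le_of_sq_le_sq (by nlinarith) (by linarith)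
          exact ⟨(abs_le.1 h12).1, (abs_le.1 h12).2⟩
        show χ (κ * u ^ 2 / 2) * (κ * u) = 0
        rw [h9, zero_mul]
      exact (h7.integrable_of_hasCompactSupport h8).integrableOn
  have h3 : ∫ s in Set.Ioi (κ * (0 : ℝ) ^ 2 / 2), χ s = ∫ s, χ s := by
    have e0 : κ * (0 : ℝ) ^ 2 / 2 = 0 := by ring
    rw [e0]
    apply MeasureTheory.setIntegral_eq_integral_of_forall_compl_eq_zero
    intro s hs'
    refine hs _ fun hm => hs' ?_
    exact lt_of_lt_of_le one_pos hm.1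
  have h4 : ∫ u in Set.Ioi (0 : ℝ), (χ ∘ fun u => κ * u ^ 2 / 2) u * (κ * u) =
      κ * ∫ u in Set.Ioi (0 : ℝ), u * χ (κ * u ^ 2 / 2) := by
    rw [← MeasureTheory.integral_const_mul]
    congr 1
    funext u
    simp only [Function.comp]
    ring
  rw [h1]
  rw [h4, h3] at h2
  rw [← h2, ← mul_assoc, div_mul_cancel₀ _ hκ.ne']

theorem lim2 (g M χ : ℝ → ℝ) (m κ ρ M1 : ℝ) (hρ : 0 < ρ) (hκ : 0 < κ) (hg : ContDiff ℝ ∞ g) (g0 : g 0 = m)
    (g1 : deriv g 0 = 0) (g2 : iteratedDeriv 2 g 0 = -κ) (hlt : ∀ τ, τ ≠ 0 → g τ < m)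
    (hM : ContinuousOn M (Set.Icc (-ρ) ρ)) (hM1 : HasDerivAt M M1 0) (hχ : Continuous χ)
    (hs : ∀ s, s ∉ Set.Icc (1 : ℝ) 2 → χ s = 0) :
    Filter.Tendsto (fun δ : ℝ => (δ ^ 2)⁻¹ * ∫ τ in (-ρ)..ρ, Real.sign τ * (χ ((m - g τ) / δ ^ 2) * M τ)) (𝓝[>] 0)
      (𝓝 (2 * (∫ s, χ s) * (M1 / κ + iteratedDeriv 3 g 0 * M 0 / (3 * κ ^ 2)))) := by
  obtain ⟨q, hq, hgq, q0, q1, q2⟩ := hadamard g hg
  obtain ⟨r, hr, hqr, r0, r1, -⟩ := hadamard q hq
  rw [g1] at q0
  rw [q1, g2] at r0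
  rw [q2] at r1
  set c := iteratedDeriv 3 g 0 with hc
  set p : ℝ → ℝ := fun τ => -(2 / κ) * r τ with hp
  have hps : ContDiff ℝ ∞ p := contDiff_const.mul hr
  have hpd : ∀ τ, HasDerivAt p (deriv p τ) τ := fun τ => (hps.differentiable (by simp) τ).hasDerivAt
  have hp's : ContDiff ℝ ∞ (deriv p) := hps.deriv'
  have hmg : ∀ τ, m - g τ = κ / 2 * (τ ^ 2 * p τ) := by
    intro τ
    rw [hgq τ, hqr τ, q0, g0, hp]
    field_simp
    ring
  have p0 : p 0 = 1 := by
    rw [hp]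
    show -(2 / κ) * r 0 = 1
    rw [r0]
    field_simp
  have p1 : deriv p 0 = -c / (3 * κ) := by
    have h1 : HasDerivAt p (-(2 / κ) * deriv r 0) 0 :=
      ((hr.differentiable (by simp) 0).hasDerivAt).const_mul _
    rw [h1.deriv, r1]
    field_simp
  have hpp : ∀ τ, 0 < p τ := by
    intro τ
    by_cases hτ : τ = 0
    · rw [hτ, p0]
      exact one_pos
    · have h1 := hlt τ hτ
      have h2 := hmg τ
      have h3 : 0 < κ / 2 * τ ^ 2 := by positivity
      have h4 : 0 < κ / 2 * τ ^ 2 * p τ := by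
        have : κ / 2 * τ ^ 2 * p τ = m - g τ := by rw [h2]; ring
        rw [this]
        linarith
      exact (mul_pos_iff_of_pos_left h3).1 h4
  -- the new variable
  set h : ℝ → ℝ := fun τ => τ * √(p τ) with hh
  set w : ℝ → ℝ := fun τ => deriv p τ / (2 * √(p τ)) with hw
  set h' : ℝ → ℝ := fun τ => √(p τ) + τ * w τ with hh'
  have hsq : ∀ τ, HasDerivAt (fun τ => √(p τ)) (w τ) τ := fun τ => (hpd τ).sqrt (hpp τ).ne'
  have hsp : ∀ τ, 0 < √(p τ) := fun τ => Real.sqrt_pos.2 (hpp τ)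
  have hhd : ∀ τ, HasDerivAt h (h' τ) τ := by
    intro τ
    have h1 := (hasDerivAt_id τ).mul (hsq τ)
    refine h1.congr_deriv ?_
    simp [hh']
  have hpc : Continuous p := hps.continuous
  have hsc : Continuous fun τ => √(p τ) := Real.continuous_sqrt.comp hpc
  have hwc : Continuous w :=
    hp's.continuous.div (continuous_const.mul hsc) fun τ => (mul_pos two_pos (hsp τ)).ne'
  have hh'c : Continuous h' := hsc.add (continuous_id.mul hwc)
  have hwd : DifferentiableAt ℝ w 0 := by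
    refine DifferentiableAt.div (hp's.differentiable (by simp) 0) ?_ (mul_pos two_pos (hsp 0)).ne'
    exact (hsq 0).differentiableAt.const_mul 2
  have hh'd : HasDerivAt h' (-c / (3 * κ)) 0 := by
    have h1 := (hsq 0).add ((hasDerivAt_id (0 : ℝ)).mul hwd.hasDerivAt)
    refine h1.congr_deriv ?_
    have h2 : w 0 = -c / (3 * κ) / 2 := by
      rw [hw]
      show deriv p 0 / (2 * √(p 0)) = _
      rw [p1, p0, Real.sqrt_one, mul_one]
    simp only [id_eq, one_mul, zero_mul, add_zero]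
    rw [h2]
    ring
  have hh'0 : h' 0 = 1 := by
    rw [hh']
    show √(p 0) + 0 * w 0 = 1
    rw [p0, Real.sqrt_one]
    ring
  have hhsq : ∀ τ, m - g τ = κ * h τ ^ 2 / 2 := by
    intro τ
    rw [hmg, hh]
    show κ / 2 * (τ ^ 2 * p τ) = κ * (τ * √(p τ)) ^ 2 / 2
    rw [mul_pow, Real.sq_sqrt (hpp τ).le]
    ring
  have hsgn : ∀ τ, Real.sign (h τ) = Real.sign τ := by
    intro τ
    rw [hh]
    show Real.sign (τ * √(p τ)) = Real.sign τ
    rcases lt_trichotomy τ 0 with h1 | h1 | h1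
    · rw [Real.sign_of_neg h1, Real.sign_of_neg (mul_neg_of_neg_of_pos h1 (hsp τ))]
    · rw [h1, zero_mul]
    · rw [Real.sign_of_pos h1, Real.sign_of_pos (mul_pos h1 (hsp τ))]
  -- the remainder
  set N : ℝ → ℝ := fun τ => M τ - M 0 * h' τ with hN
  have N0 : N 0 = 0 := by
    rw [hN]
    show M 0 - M 0 * h' 0 = 0
    rw [hh'0]
    ring
  have hNd : HasDerivAt N (M1 + M 0 * c / (3 * κ)) 0 := by
    refine (hM1.sub (hh'd.const_mul (M 0))).congr_deriv ?_
    ring
  have hNc : ContinuousOn N (Set.Icc (-ρ) ρ) := hM.sub (hh'c.const_mul (M 0)).continuousOn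
  set n : ℝ → ℝ := dslope N 0 with hn
  have hnc : ContinuousOn n (Set.Icc (-ρ) ρ) :=
    (continuousOn_dslope (Icc_mem_nhds (by linarith) hρ)).2 ⟨hNc, hNd.differentiableAt⟩
  have hn0 : n 0 = M1 + M 0 * c / (3 * κ) := by
    rw [hn, dslope_same]
    exact hNd.deriv
  have hnN : ∀ τ, N τ = τ * n τ := by
    intro τ
    have h1 := sub_smul_dslope N 0 τ
    rw [N0, sub_zero, sub_zero, smul_eq_mul] at h1
    exact h1.symm
  set χ₂ : ℝ → ℝ := fun s => χ s * √(2 * s / κ) with hχ₂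
  have hχ₂c : Continuous χ₂ := hχ.mul (Real.continuous_sqrt.comp (by fun_prop))
  have hχ₂s : ∀ s, s ∉ Set.Icc (1 : ℝ) 2 → χ₂ s = 0 := by
    intro s h1
    rw [hχ₂]
    show χ s * _ = 0
    rw [hs s h1, zero_mul]
  have hCc : ContinuousOn (fun τ => n τ / √(p τ)) (Set.Icc (-ρ) ρ) :=
    hnc.div hsc.continuousOn fun τ _ => (hsp τ).ne'
  have hlim := scale g (fun τ => n τ / √(p τ)) χ₂ ρ m κ hρ hκ hg g0 g1 g2 hlt hCc hχ₂c hχ₂s
  have hval : n 0 / √(p 0) * ∫ u : ℝ, χ₂ (κ * u ^ 2 / 2) =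
      2 * (∫ s, χ s) * (M1 / κ + c * M 0 / (3 * κ ^ 2)) := by
    have h1 : ∀ u : ℝ, χ₂ (κ * u ^ 2 / 2) = |u| * χ (κ * u ^ 2 / 2) := by
      intro u
      rw [hχ₂]
      show χ (κ * u ^ 2 / 2) * √(2 * (κ * u ^ 2 / 2) / κ) = _
      have h2 : 2 * (κ * u ^ 2 / 2) / κ = u ^ 2 := by
        field_simp
      rw [h2, Real.sqrt_sq_eq_abs, mul_comm]
    simp only [h1]
    rw [la_int κ hκ χ hχ hs, p0, Real.sqrt_one, div_one, hn0]
    field_simp
  rw [hval] at hlim
  refine hlim.congr' ?_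
  -- the radius
  have hhp : 0 < h ρ := mul_pos hρ (hsp ρ)
  have hhm : h (-ρ) < 0 := mul_neg_of_neg_of_pos (by linarith) (hsp _)
  set R : ℝ := min (h ρ) (-h (-ρ)) with hR
  have hR0 : 0 < R := lt_min hhp (by linarith)
  have hsmall : ∀ᶠ δ : ℝ in 𝓝[>] 0, 4 * δ ^ 2 < κ * R ^ 2 := by
    have h1 : Filter.Tendsto (fun δ : ℝ => 4 * δ ^ 2) (𝓝[>] 0) (𝓝 0) := by
      have h2 : ContinuousAt (fun δ : ℝ => 4 * δ ^ 2) 0 := by fun_prop
      have h3 := h2.tendsto
      simp only [ne_eq, OfNat.ofNat_ne_zero, not_false_eq_true, zero_pow, mul_zero] at h3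
      exact h3.mono_left nhdsWithin_le_nhds
    exact h1.eventually (gt_mem_nhds (by positivity))
  filter_upwards [hsmall, self_mem_nhdsWithin] with δ hδs hδ
  have hδ0 : 0 < δ := hδ
  set f : ℝ → ℝ := fun y => Real.sign y * χ (κ * y ^ 2 / 2 / δ ^ 2) with hf
  have hfc : Continuous f := la_cont κ δ hκ hδ0 χ hχ hs
  have hfh : ∀ τ, Real.sign τ * χ ((m - g τ) / δ ^ 2) = f (h τ) := by
    intro τ
    rw [hf]
    show _ = Real.sign (h τ) * χ (κ * h τ ^ 2 / 2 / δ ^ 2)
    rw [hsgn, ← hhsq]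
  have hI1 : ∫ τ in (-ρ)..ρ, (f ∘ h) τ * h' τ = 0 := by
    rw [intervalIntegral.integral_comp_mul_deriv (fun τ _ => hhd τ) hh'c.continuousOn hfc]
    have hsupp : Function.support f ⊆ Set.Ioc (h (-ρ)) (h ρ) := by
      intro y hy
      by_contra hcon
      apply hy
      have hyR : R ≤ |y| := by
        rw [Set.mem_Ioc, not_and_or, not_lt, not_le] at hcon
        rcases hcon with h1 | h1
        · have h2 : R ≤ -h (-ρ) := min_le_right _ _
          have h3 := neg_le_abs y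
          linarith
        · have h2 : R ≤ h ρ := min_le_left _ _
          have h3 := le_abs_self y
          linarith
      have h0 : χ (κ * y ^ 2 / 2 / δ ^ 2) = 0 := by
        refine hs _ fun hm => ?_
        have h1 := hm.2
        rw [div_le_iff₀ (by positivity)] at h1
        have h2 : R ^ 2 ≤ y ^ 2 := by
          rw [← sq_abs y]
          exact pow_le_pow_left₀ hR0.le hyR 2
        nlinarith
      rw [hf]
      show Real.sign y * _ = 0
      rw [h0, mul_zero]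
    rw [intervalIntegral.integral_eq_integral_of_support_subset hsupp]
    have hodd : ∀ y, f (-y) = -f y := by
      intro y
      rw [hf]
      show Real.sign (-y) * χ (κ * (-y) ^ 2 / 2 / δ ^ 2) = -(Real.sign y * χ (κ * y ^ 2 / 2 / δ ^ 2))
      rw [Real.sign_neg, neg_sq]
      ring
    have h1 := MeasureTheory.integral_neg_eq_self f MeasureTheory.volume
    simp only [hodd] at h1
    rw [MeasureTheory.integral_neg] at h1
    linarith
  have hkey : ∀ τ, Real.sign τ * (χ ((m - g τ) / δ ^ 2) * M τ) =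
      M 0 * ((f ∘ h) τ * h' τ) + δ * (χ₂ ((m - g τ) / δ ^ 2) * (n τ / √(p τ))) := by
    intro τ
    have h1 : M τ = M 0 * h' τ + τ * n τ := by
      rw [← hnN τ, hN]
      ring
    have h2 : χ₂ ((m - g τ) / δ ^ 2) = χ ((m - g τ) / δ ^ 2) * (|τ| * √(p τ) / δ) := by
      rw [hχ₂]
      show χ ((m - g τ) / δ ^ 2) * √(2 * ((m - g τ) / δ ^ 2) / κ) = _
      have h3 : 2 * ((m - g τ) / δ ^ 2) / κ = (|τ| * √(p τ) / δ) ^ 2 := by
        rw [hmg, div_pow, mul_pow, sq_abs, Real.sq_sqrt (hpp τ).le]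
        field_simp
      rw [h3, Real.sqrt_sq (by have := (hsp τ).le; positivity)]
    have h4 : δ * (χ₂ ((m - g τ) / δ ^ 2) * (n τ / √(p τ))) = χ ((m - g τ) / δ ^ 2) * (|τ| * n τ) := by
      rw [h2]
      have := (hsp τ).ne'
      field_simp
    rw [h4, h1, ← la_sign τ]
    show _ = M 0 * (f (h τ) * h' τ) + _
    rw [← hfh]
    ring
  have hi1 : IntervalIntegrable (fun τ => M 0 * ((f ∘ h) τ * h' τ)) MeasureTheory.volume (-ρ) ρ := by
    have hhc : Continuous h := continuous_iff_continuousAt.2 fun τ => (hhd τ).continuousAt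
    exact (((hfc.comp hhc).mul hh'c).const_mul (M 0)).intervalIntegrable _ _
  have hi2 : IntervalIntegrable (fun τ => δ * (χ₂ ((m - g τ) / δ ^ 2) * (n τ / √(p τ))))
      MeasureTheory.volume (-ρ) ρ := by
    refine ContinuousOn.intervalIntegrable ?_
    rw [Set.uIcc_of_le (by linarith)]
    refine ContinuousOn.mul continuousOn_const (ContinuousOn.mul ?_ hCc)
    have hgc : Continuous g := hg.continuous
    exact (hχ₂c.comp (by fun_prop : Continuous fun τ => (m - g τ) / δ ^ 2)).continuousOn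
  simp only [hkey]
  rw [intervalIntegral.integral_add hi1 hi2, intervalIntegral.integral_const_mul,
    intervalIntegral.integral_const_mul, hI1, mul_zero, zero_add]
  rw [← mul_assoc]
  congr 1
  field_simp

end Pool.Agent.Work.MP_659252_gt.QR
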