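import Pool.Agent.Work.MP_659252_gt.QR.L.Defs
import Pool.Agent.Work.MP_659252_gt.QR.L.LimA

/-!
# The derivative of the signed integral, of order two.  Size: M.

PROOF.  `b_δ y = χ ((m - y)/δ²)`.  `hadamard` for `deriv g` (`deriv g 0 = 0`): `deriv g τ = τ q τ`, `q 0 = -κ`, `q'(0) = g^(3)(0)/2 = c/2`, `q''(0) = g^(4)(0)/3 = γ/3`, with `c = iteratedDeriv 3 g 0`,
`γ = iteratedDeriv 4 g 0` (`iteratedDeriv_succ'`).  Choose `ρ > 0` with `q < 0` on `[-ρ, ρ]`; `r = H/q` is smooth near `[-ρ, ρ]`.  There is `e > 0` with `g τ ≤ m - e` for `|τ| ≥ ρ` (compactness of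
`ρ ≤ |τ| ≤ R` and `hinf`), so for `2 δ² < e` the integrand vanishes for `|τ| ≥ ρ` (also the term with the derivative of `b_δ`, because `b_δ = 0` near `g τ`), and the integral over `ℝ` is the integral over
`[-ρ, ρ]`.  On `[0, ρ]`: `deriv b_δ (g τ) τ H K = (b_δ ∘ g)' r K` (`(b_δ ∘ g)' = deriv b_δ (g τ) τ q τ`), and integration by parts (`intervalIntegral.integral_mul_deriv_eq_deriv_mul`) gives
`∫_0^ρ (b_δ ∘ g)' r K = -∫_0^ρ b_δ(g) (r K)'` since `b_δ(g 0) = χ 0 = 0`, `b_δ(g ρ) = 0`; the same on `[-ρ, 0]`.  So the integral is `∫_{-ρ}^{ρ} sign τ b_δ(g) M`, `M = E - (r K)'`, and `lim2` applies: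
the limit is `2 (∫ χ) (M'(0)/κ + c M(0)/(3 κ²))`.
VALUES: from `q r = H`, at `0`: `-κ r₀ = H 0`, `(c/2) r₀ - κ r₁ = H'(0)`, `(γ/3) r₀ + c r₁ - κ r₂ = H''(0)` (`r₀ = r 0`, `r₁ = r'(0)`, `r₂ = r''(0)`); `M(0) = E(0) - r₁ K(0) - r₀ K'(0)`,
`M'(0) = E'(0) - r₂ K(0) - 2 r₁ K'(0) - r₀ K''(0)`.  Then `2 (M'(0)/κ + c M(0)/(3 κ²)) = LL κ c γ H(0) H'(0) H''(0) K(0) K'(0) K''(0) E(0) E'(0)/(3 κ⁴)` by `field_simp; ring` after substituting
`r₀ = -H(0)/κ`, `r₁ = ((c/2) r₀ - H'(0))/κ`, `r₂ = ((γ/3) r₀ + c r₁ - H''(0))/κ`.  (The formula was checked numerically.)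
-/

namespace Pool.Agent.Work.MP_659252_gt.QR

open scoped ContDiff Topology
open Pool.Agent.Work.MP_659252_gt.Z (V Ten val Tan InT IsZoll IsMetric IsGeodesic)

variable {d : ℕ}

/-- an integral over `ℝ` of a function which vanishes outside of `[-R, R]` -/
private theorem int_cut (g : ℝ → ℝ) (R : ℝ) (hR : 0 < R) (hg : ∀ τ, R ≤ |τ| → g τ = 0) :
    ∫ τ, g τ = ∫ τ in (-R)..R, g τ := by
  rw [intervalIntegral.integral_of_le (by linarith)]
  symm
  apply MeasureTheory.setIntegral_eq_integral_of_forall_compl_eq_zero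
  intro τ hτ
  apply hg
  by_contra hlt
  push Not at hlt
  rw [abs_lt] at hlt
  exact hτ ⟨hlt.1, hlt.2.le⟩


/-- the signed integral over a symmetric interval -/
private theorem sgn_int (g : ℝ → ℝ) (R : ℝ) (hR : 0 < R) (hc : ContinuousOn g (Set.Icc (-R) R)) :
    ∫ τ in (-R)..R, Real.sign τ * g τ = (∫ τ in (0 : ℝ)..R, g τ) + ∫ τ in (0 : ℝ)..(-R), g τ := by
  have e1 : Set.EqOn (fun τ => Real.sign τ * g τ) g (Set.Ioc 0 R) := by
    intro τ hτ
    show Real.sign τ * g τ = g τ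
    rw [Real.sign_of_pos hτ.1, one_mul]
  have e2 : Set.EqOn (fun τ => Real.sign τ * g τ) (fun τ => -g τ) (Set.Ioo (-R) 0) := by
    intro τ hτ
    show Real.sign τ * g τ = -g τ
    rw [Real.sign_of_neg hτ.2, neg_one_mul]
  have c1 : ContinuousOn g (Set.uIcc 0 R) := by
    rw [Set.uIcc_of_le hR.le]
    exact hc.mono (Set.Icc_subset_Icc (by linarith) le_rfl)
  have c2 : ContinuousOn g (Set.uIcc (-R) 0) := by
    rw [Set.uIcc_of_le (by linarith)]
    exact hc.mono (Set.Icc_subset_Icc le_rfl hR.le)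
  have i1 : IntervalIntegrable (fun τ => Real.sign τ * g τ) MeasureTheory.volume 0 R := by
    refine IntervalIntegrable.congr_ae c1.intervalIntegrable ?_
    rw [Set.uIoc_of_le hR.le]
    exact (MeasureTheory.ae_restrict_iff' measurableSet_Ioc).2
      (Filter.Eventually.of_forall fun τ hτ => (e1 hτ).symm)
  have i2 : IntervalIntegrable (fun τ => Real.sign τ * g τ) MeasureTheory.volume (-R) 0 := by
    refine IntervalIntegrable.congr_ae c2.neg.intervalIntegrable ?_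
    rw [Set.uIoc_of_le (by linarith)]
    refine (MeasureTheory.ae_restrict_iff' measurableSet_Ioc).2 ?_
    have h0 : ∀ᵐ τ : ℝ, τ ≠ 0 := by
      simp [MeasureTheory.ae_iff]
    filter_upwards [h0] with τ h0 hτ
    exact (e2 ⟨hτ.1, lt_of_le_of_ne hτ.2 h0⟩).symm
  rw [← intervalIntegral.integral_add_adjacent_intervals i2 i1]
  have j1 : ∫ τ in (0 : ℝ)..R, Real.sign τ * g τ = ∫ τ in (0 : ℝ)..R, g τ := by
    rw [intervalIntegral.integral_of_le hR.le, intervalIntegral.integral_of_le hR.le]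
    exact MeasureTheory.setIntegral_congr_fun measurableSet_Ioc e1
  have j2 : ∫ τ in (-R)..0, Real.sign τ * g τ = ∫ τ in (0 : ℝ)..(-R), g τ := by
    rw [intervalIntegral.integral_symm (-R) 0, ← intervalIntegral.integral_neg,
      intervalIntegral.integral_of_le (by linarith), intervalIntegral.integral_of_le (by linarith),
      MeasureTheory.integral_Ioc_eq_integral_Ioo, MeasureTheory.integral_Ioc_eq_integral_Ioo]
    exact MeasureTheory.setIntegral_congr_fun measurableSet_Ioo e2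
  rw [j1, j2, add_comm]

private theorem id2 (f : ℝ → ℝ) : iteratedDeriv 2 f = deriv (deriv f) := by
  rw [show (2 : ℕ) = 1 + 1 from rfl, iteratedDeriv_succ, iteratedDeriv_one]

private theorem id3 (f : ℝ → ℝ) : iteratedDeriv 3 f = deriv (deriv (deriv f)) := by
  rw [show (3 : ℕ) = 2 + 1 from rfl, iteratedDeriv_succ, id2]

private theorem id4 (f : ℝ → ℝ) : iteratedDeriv 4 f = deriv (deriv (deriv (deriv f))) := by
  rw [show (4 : ℕ) = 3 + 1 from rfl, iteratedDeriv_succ, id3]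

private theorem smooth_d (f : ℝ → ℝ) (hf : ContDiff ℝ ∞ f) :
    ContDiff ℝ ∞ (deriv f) ∧ ∀ τ, HasDerivAt f (deriv f τ) τ :=
  ⟨(contDiff_infty_iff_deriv.1 hf).2, fun τ => (hf.differentiable (by simp) τ).hasDerivAt⟩

/-- `g` is separated from its maximum away from `0` -/
private theorem gap (g : ℝ → ℝ) (m : ℝ) (hg : Continuous g) (hlt : ∀ τ, τ ≠ 0 → g τ < m)
    (hinf : ∃ R > 0, ∃ e > 0, ∀ τ, R ≤ |τ| → g τ ≤ m - e) (ρ : ℝ) (hρ : 0 < ρ) :
    ∃ e > 0, ∀ τ, ρ ≤ |τ| → g τ ≤ m - e := by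
  obtain ⟨R, hR, e, he, h⟩ := hinf
  have hK : IsCompact (Set.Icc (-R) R ∩ {τ : ℝ | ρ ≤ |τ|}) :=
    isCompact_Icc.inter_right (isClosed_le continuous_const continuous_abs)
  rcases (Set.Icc (-R) R ∩ {τ : ℝ | ρ ≤ |τ|}).eq_empty_or_nonempty with h0 | h0
  · refine ⟨e, he, fun τ hτ => h τ ?_⟩
    by_contra hlt'
    push Not at hlt'
    have : τ ∈ Set.Icc (-R) R ∩ {τ : ℝ | ρ ≤ |τ|} := ⟨abs_le.1 hlt'.le, hτ⟩
    rw [h0] at this
    exact this
  · obtain ⟨t, ht, hmax⟩ := hK.exists_isMaxOn h0 hg.continuousOn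
    have ht0 : t ≠ 0 := by
      rintro rfl
      have := ht.2
      simp only [Set.mem_ofPred_eq, abs_zero] at this
      linarith
    have hgt := hlt t ht0
    refine ⟨min e (m - g t), lt_min he (by linarith), fun τ hτ => ?_⟩
    rcases le_or_gt R |τ| with h1 | h1
    · have := h τ h1
      have := min_le_left e (m - g t)
      linarith
    · have h2 : g τ ≤ g t := hmax ⟨abs_le.1 h1.le, hτ⟩
      have := min_le_right e (m - g t)
      linarith

/-- integration by parts on `[0, x]` -/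
private theorem parts (β g r G u u' : ℝ → ℝ) (x : ℝ) (hβ : Continuous (deriv β)) (hβd : Differentiable ℝ β)
    (hg : ∀ τ, HasDerivAt g (deriv g τ) τ) (hgc : Continuous (deriv g))
    (hu : ∀ τ ∈ Set.uIcc 0 x, HasDerivAt u (u' τ) τ) (huc : ContinuousOn u' (Set.uIcc 0 x))
    (b0 : β (g 0) = 0) (bx : β (g x) = 0)
    (hG : ∀ τ ∈ Set.uIcc 0 x, G τ = deriv β (g τ) * deriv g τ * u τ + β (g τ) * r τ)
    (hr : ContinuousOn r (Set.uIcc 0 x)) :
    ∫ τ in (0 : ℝ)..x, G τ = ∫ τ in (0 : ℝ)..x, β (g τ) * (r τ - u' τ) := by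
  have hgcc : Continuous g := continuous_iff_continuousAt.2 fun τ => (hg τ).continuousAt
  have hd : ∀ τ ∈ Set.uIcc 0 x, HasDerivAt (fun τ => β (g τ)) (deriv β (g τ) * deriv g τ) τ :=
    fun τ _ => (hβd (g τ)).hasDerivAt.comp τ (hg τ)
  have hdc : Continuous (fun τ => deriv β (g τ) * deriv g τ) := (hβ.comp hgcc).mul hgc
  have huC : ContinuousOn u (Set.uIcc 0 x) := fun τ hτ => (hu τ hτ).continuousAt.continuousWithinAt
  have hbc : Continuous fun τ => β (g τ) := hβd.continuous.comp hgcc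
  have ip := intervalIntegral.integral_mul_deriv_eq_deriv_mul hu hd huc.intervalIntegrable
    (hdc.intervalIntegrable 0 x)
  rw [b0, bx, mul_zero, mul_zero, sub_zero, zero_sub] at ip
  have e1 : ∫ τ in (0 : ℝ)..x, G τ = ∫ τ in (0 : ℝ)..x, (u τ * (deriv β (g τ) * deriv g τ) + β (g τ) * r τ) := by
    refine intervalIntegral.integral_congr fun τ hτ => ?_
    show G τ = _
    rw [hG τ hτ]
    ring
  have e2 : ∫ τ in (0 : ℝ)..x, β (g τ) * (r τ - u' τ) =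
      ∫ τ in (0 : ℝ)..x, (β (g τ) * r τ - u' τ * β (g τ)) := by
    refine intervalIntegral.integral_congr fun τ hτ => ?_
    show β (g τ) * (r τ - u' τ) = _
    ring
  rw [e1, e2, intervalIntegral.integral_add, intervalIntegral.integral_sub, ip]
  · ring
  · exact (hbc.continuousOn.mul hr).intervalIntegrable
  · exact (huc.mul hbc.continuousOn).intervalIntegrable
  · exact (huC.mul hdc.continuousOn).intervalIntegrable
  · exact (hbc.continuousOn.mul hr).intervalIntegrable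

theorem lim1 (g H K E χ : ℝ → ℝ) (m κ : ℝ) (hκ : 0 < κ) (hg : ContDiff ℝ ∞ g) (hH : ContDiff ℝ ∞ H)
    (hK : ContDiff ℝ ∞ K) (hE : ContDiff ℝ ∞ E) (hχ : ContDiff ℝ ∞ χ) (hs : ∀ s, s ∉ Set.Icc (1 : ℝ) 2 → χ s = 0)
    (g0 : g 0 = m) (g1 : deriv g 0 = 0) (g2 : iteratedDeriv 2 g 0 = -κ) (hlt : ∀ τ, τ ≠ 0 → g τ < m)
    (hinf : ∃ R > 0, ∃ e > 0, ∀ τ, R ≤ |τ| → g τ ≤ m - e) :
    Filter.Tendsto (fun δ : ℝ => (δ ^ 2)⁻¹ * ∫ τ : ℝ, Real.sign τ *
        (deriv (fun y => χ ((m - y) / δ ^ 2)) (g τ) * (τ * H τ * K τ) + χ ((m - g τ) / δ ^ 2) * E τ)) (𝓝[>] 0)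
      (𝓝 ((∫ s, χ s) * LL κ (iteratedDeriv 3 g 0) (iteratedDeriv 4 g 0) (H 0) (deriv H 0) (iteratedDeriv 2 H 0)
        (K 0) (deriv K 0) (iteratedDeriv 2 K 0) (E 0) (deriv E 0) / (3 * κ ^ 4))) := by
  obtain ⟨hg1, dg⟩ := smooth_d g hg
  obtain ⟨hH1, dH⟩ := smooth_d H hH
  obtain ⟨hH2, dH1⟩ := smooth_d _ hH1
  obtain ⟨hK1, dK⟩ := smooth_d K hK
  obtain ⟨hK2, dK1⟩ := smooth_d _ hK1
  obtain ⟨hE1, dE⟩ := smooth_d E hE
  obtain ⟨q, hq, hqe, hq0, hqd, hqdd⟩ := hadamard (deriv g) hg1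
  obtain ⟨hq1, dq⟩ := smooth_d q hq
  obtain ⟨hq2, dq1⟩ := smooth_d _ hq1
  rw [id2] at g2 hqd
  rw [id2, id3] at hqdd
  rw [g2] at hq0
  have hge : ∀ τ, deriv g τ = τ * q τ := by
    intro τ
    rw [hqe τ, g1, zero_add]
  set c : ℝ := iteratedDeriv 3 g 0 with hc
  set γ : ℝ := iteratedDeriv 4 g 0 with hγ
  rw [id3] at hc
  rw [id4] at hγ
  rw [← hc] at hqd
  rw [← hγ] at hqdd
  -- the interval
  obtain ⟨ρ, hρ, hqneg⟩ : ∃ ρ > 0, ∀ τ ∈ Set.Icc (-ρ) ρ, q τ < 0 := by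
    have h1 : ∀ᶠ τ in 𝓝 (0 : ℝ), q τ < 0 :=
      hq.continuous.continuousAt.eventually (gt_mem_nhds (by rw [hq0]; linarith))
    obtain ⟨ε, hε, h2⟩ := Metric.eventually_nhds_iff.1 h1
    refine ⟨ε / 2, by positivity, fun τ hτ => h2 ?_⟩
    rw [Real.dist_eq, sub_zero, abs_lt]
    constructor
    · linarith [hτ.1]
    · linarith [hτ.2]
  obtain ⟨e, he, hgap⟩ := gap g m hg.continuous hlt hinf ρ hρ
  -- the functions r and M
  set rd : ℝ → ℝ := fun τ => (deriv H τ * q τ - H τ * deriv q τ) / (q τ) ^ 2 with hrd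
  set u : ℝ → ℝ := fun τ => H τ / q τ * K τ with hu
  set u' : ℝ → ℝ := fun τ => rd τ * K τ + H τ / q τ * deriv K τ with hu'
  set M : ℝ → ℝ := fun τ => E τ - u' τ with hMdef
  have hqne : ∀ τ ∈ Set.Icc (-ρ) ρ, q τ ≠ 0 := fun τ hτ => (hqneg τ hτ).ne
  have hud : ∀ τ ∈ Set.Icc (-ρ) ρ, HasDerivAt u (u' τ) τ := by
    intro τ hτ
    exact ((dH τ).div (dq τ) (hqne τ hτ)).mul (dK τ)
  have hrdc : ContinuousOn rd (Set.Icc (-ρ) ρ) := by
    refine ContinuousOn.div ?_ ?_ ?_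
    · exact ((hH1.continuous.mul hq.continuous).sub (hH.continuous.mul hq1.continuous)).continuousOn
    · exact (hq.continuous.pow 2).continuousOn
    · exact fun τ hτ => pow_ne_zero 2 (hqne τ hτ)
  have huc : ContinuousOn u' (Set.Icc (-ρ) ρ) := by
    refine (hrdc.mul hK.continuous.continuousOn).add (ContinuousOn.mul ?_ hK1.continuous.continuousOn)
    exact hH.continuous.continuousOn.div hq.continuous.continuousOn hqne
  have hMc : ContinuousOn M (Set.Icc (-ρ) ρ) := hE.continuous.continuousOn.sub huc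
  have h0m : (0 : ℝ) ∈ Set.Icc (-ρ) ρ := ⟨by linarith, hρ.le⟩
  set M1 : ℝ := deriv E 0 - ((((deriv (deriv H) 0 * q 0 + deriv H 0 * deriv q 0) -
      (deriv H 0 * deriv q 0 + H 0 * deriv (deriv q) 0)) * (q 0) ^ 2 -
      (deriv H 0 * q 0 - H 0 * deriv q 0) * (2 * q 0 * deriv q 0)) / ((q 0) ^ 2) ^ 2 * K 0 +
      rd 0 * deriv K 0 + (rd 0 * deriv K 0 + H 0 / q 0 * deriv (deriv K) 0)) with hM1
  have hMd : HasDerivAt M M1 0 := by
    have a1 : HasDerivAt (fun τ => deriv H τ * q τ - H τ * deriv q τ)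
        ((deriv (deriv H) 0 * q 0 + deriv H 0 * deriv q 0) -
          (deriv H 0 * deriv q 0 + H 0 * deriv (deriv q) 0)) 0 :=
      ((dH1 0).mul (dq 0)).sub ((dH 0).mul (dq1 0))
    have a2 : HasDerivAt (fun τ => (q τ) ^ 2) (2 * q 0 * deriv q 0) 0 := by
      have := (dq 0).fun_pow 2
      simpa using this
    have a3 := a1.div a2 (pow_ne_zero 2 (hqne 0 h0m))
    have a4 := a3.mul (dK 0)
    have a5 := ((dH 0).div (dq 0) (hqne 0 h0m)).mul (dK1 0)
    exact (dE 0).sub (a4.add a5)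
  have key := lim2 g M χ m κ ρ M1 hρ hκ hg g0 g1 (by rw [id2]; exact g2) hlt hMc hMd hχ.continuous hs
  -- the value
  have hval : 2 * (∫ s, χ s) * (M1 / κ + c * M 0 / (3 * κ ^ 2)) =
      (∫ s, χ s) * LL κ c γ (H 0) (deriv H 0) (iteratedDeriv 2 H 0) (K 0) (deriv K 0) (iteratedDeriv 2 K 0)
        (E 0) (deriv E 0) / (3 * κ ^ 4) := by
    rw [id2, id2, hMdef, hM1, hu', hrd]
    simp only
    rw [hq0, hqd, hqdd, LL]
    have hκ' : κ ≠ 0 := hκ.ne'
    field_simp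
    ring
  rw [show iteratedDeriv 3 g 0 = c from rfl, hval] at key
  refine key.congr' ?_
  have hδ : ∀ᶠ δ : ℝ in 𝓝[>] 0, 2 * δ ^ 2 < e := by
    have h1 : Filter.Tendsto (fun δ : ℝ => 2 * δ ^ 2) (𝓝[>] 0) (𝓝 (2 * 0 ^ 2)) :=
      ((continuous_const.mul (continuous_pow 2)).continuousAt (x := (0 : ℝ))).tendsto.mono_left
        nhdsWithin_le_nhds
    exact h1.eventually (gt_mem_nhds (by simpa using he))
  filter_upwards [hδ, self_mem_nhdsWithin] with δ h1 h2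
  have hδ0 : 0 < δ := h2
  have hδ2 : 0 < δ ^ 2 := by positivity
  congr 1
  set β : ℝ → ℝ := fun y => χ ((m - y) / δ ^ 2) with hβ
  have hβs : ContDiff ℝ ∞ β := hχ.comp ((contDiff_const.sub contDiff_id).div_const _)
  obtain ⟨hβ1, dβ⟩ := smooth_d β hβs
  have hβ0 : β (g 0) = 0 := by
    show χ ((m - g 0) / δ ^ 2) = 0
    rw [g0, sub_self, zero_div]
    exact hs 0 (fun h => by linarith [h.1])
  have hfar : ∀ τ, ρ ≤ |τ| → 2 < (m - g τ) / δ ^ 2 := by
    intro τ hτ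
    rw [lt_div_iff₀ hδ2]
    linarith [hgap τ hτ]
  have hβf : ∀ τ, ρ ≤ |τ| → β (g τ) = 0 := by
    intro τ hτ
    exact hs _ (fun h => by linarith [h.2, hfar τ hτ])
  have hβdf : ∀ τ, ρ ≤ |τ| → deriv β (g τ) = 0 := by
    intro τ hτ
    have h3 : ∀ᶠ y in 𝓝 (g τ), 2 < (m - y) / δ ^ 2 := by
      have h4 : ContinuousAt (fun y : ℝ => (m - y) / δ ^ 2) (g τ) := by fun_prop
      exact h4.eventually (lt_mem_nhds (hfar τ hτ))
    have h5 : β =ᶠ[𝓝 (g τ)] fun _ => 0 := by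
      filter_upwards [h3] with y hy
      exact hs _ (fun h => by linarith [h.2])
    rw [h5.deriv_eq, deriv_const]
  set G : ℝ → ℝ := fun τ => deriv β (g τ) * (τ * H τ * K τ) + β (g τ) * E τ with hG
  have hGc : Continuous G := by
    refine ((hβ1.continuous.comp hg.continuous).mul ((continuous_id.mul hH.continuous).mul hK.continuous)).add
      ((hβs.continuous.comp hg.continuous).mul hE.continuous)
  have hGz : ∀ τ, ρ ≤ |τ| → G τ = 0 := by
    intro τ hτ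
    show deriv β (g τ) * (τ * H τ * K τ) + β (g τ) * E τ = 0
    rw [hβdf τ hτ, hβf τ hτ, zero_mul, zero_mul, add_zero]
  show _ = ∫ τ : ℝ, Real.sign τ * G τ
  rw [int_cut (fun τ => Real.sign τ * G τ) ρ hρ (fun τ hτ => by
    show Real.sign τ * G τ = 0
    rw [hGz τ hτ, mul_zero]), sgn_int G ρ hρ hGc.continuousOn]
  have hLc : ContinuousOn (fun τ => χ ((m - g τ) / δ ^ 2) * M τ) (Set.Icc (-ρ) ρ) :=
    ((hβs.continuous.comp hg.continuous).continuousOn).mul hMc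
  rw [sgn_int (fun τ => χ ((m - g τ) / δ ^ 2) * M τ) ρ hρ hLc]
  have hGe : ∀ τ ∈ Set.Icc (-ρ) ρ, G τ = deriv β (g τ) * deriv g τ * u τ + β (g τ) * E τ := by
    intro τ hτ
    show deriv β (g τ) * (τ * H τ * K τ) + β (g τ) * E τ = deriv β (g τ) * deriv g τ * (H τ / q τ * K τ) +
      β (g τ) * E τ
    rw [hge τ]
    have := hqne τ hτ
    field_simp
  have s1 : Set.uIcc (0 : ℝ) ρ ⊆ Set.Icc (-ρ) ρ := by
    rw [Set.uIcc_of_le hρ.le]
    exact Set.Icc_subset_Icc (by linarith) le_rfl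
  have s2 : Set.uIcc (0 : ℝ) (-ρ) ⊆ Set.Icc (-ρ) ρ := by
    rw [Set.uIcc_of_ge (by linarith)]
    exact Set.Icc_subset_Icc le_rfl hρ.le
  have r1 := parts β g E G u u' ρ hβ1.continuous (fun y => (dβ y).differentiableAt) dg hg1.continuous
    (fun τ hτ => hud τ (s1 hτ)) (huc.mono s1) hβ0 (hβf ρ (le_abs_self ρ)) (fun τ hτ => hGe τ (s1 hτ))
    hE.continuous.continuousOn
  have r2 := parts β g E G u u' (-ρ) hβ1.continuous (fun y => (dβ y).differentiableAt) dg hg1.continuous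
    (fun τ hτ => hud τ (s2 hτ)) (huc.mono s2) hβ0 (hβf (-ρ) (by rw [abs_neg]; exact le_abs_self ρ))
    (fun τ hτ => hGe τ (s2 hτ)) hE.continuous.continuousOn
  rw [r1, r2]

end Pool.Agent.Work.MP_659252_gt.QR
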