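import Pool.Agent.Work.MP_659252_gt.QR.L.Dich
import Pool.Agent.Work.MP_659252_gt.QR.L.Dif

/-!
# THEOREM L: the cubic form is divisible by the quadratic form on every tangent plane.  Size: M.

PROOF.  Suppose `¬ Pk f P a b`.  `Pk` is the vanishing of two functions which are continuous in `(x, a, b)` for `x ≠ 0` (`DD_smooth`, `D3_smooth`), `Ind` is an open condition (near `(a, b)`; e.g. the minors, or
`LinearIndependent` is open, or: `a' = ..`), and `hL`; so for all `z = (Q, a', b')` near `(P, a, b)`: `¬ Pk f Q a' b'`, `Ind a' b'`, `Loc f w k lo hi Q`, hence (`dich`) `Tg f Q a' → Tg f Q b' → Cf f w k Q a' b'`.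
By `eventually_eventually_nhds` the hypothesis `hC` of `dif` holds at all `z` near `(P, a, b)`, in particular at `(P, a', b)` for all `a'` near `a`.  If moreover `Tg f P a'`: with
`s = -Kb f w k P a' a'/DD f P a' a'` (`DD f P a' a' < 0` by `curv`, `D2_eq`), `Cf` at `(P, a', b)` gives `h1`, `h2`, `h3` (`DD f P b b ≠ 0` too), `dif` gives `hK`, and `dich2` gives `s = 0`, i.e.
`Kb f w k P a' a' = 0`.  Now let `v` be any vector with `Tg f P v`: `a' = a + t v` for small `t`: `Kb P a a + 2 t Kb P a v + t² Kb P v v = 0` for all small `t` (`Kb_exp`), so `Kb P v v = 0`.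
But take `v` from `hne` and `v' = v - (v 0/P 0) P`: `Tg f P v'` and `Kb f w k P v' v' = bil (k P) v' v' - w P * DD f P v' v'` (`fderiv f P v' = 0`) `= bil (k P) v v - w P * DD f P v v ≠ 0` (`shift0`;
`ks.tan`: `bil (k P) P _ = 0`, with `val_eq`).  Contradiction.
-/

namespace Pool.Agent.Work.MP_659252_gt.QR

open scoped ContDiff Topology
open Pool.Agent.Work.MP_659252_gt.Z (V Ten val Tan InT IsZoll IsMetric IsGeodesic)

variable {d : ℕ}

private theorem pk_ind_open (P a b : V d) (hab : Ind a b) :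
    ∀ᶠ z : V d × V d × V d in 𝓝 (P, a, b), Ind z.2.1 z.2.2 := by
  have h0 : ∀ x y : V d, Ind x y ↔ LinearIndependent ℝ ![x, y] := fun x y =>
    LinearIndependent.pair_iff.symm
  have h1 : IsOpen {g : Fin 2 → V d | LinearIndependent ℝ g} := isOpen_setOf_linearIndependent
  have h2 : Continuous fun z : V d × V d × V d => ![z.2.1, z.2.2] := by
    refine continuous_pi fun i => ?_
    fin_cases i
    · exact continuous_snd.fst
    · exact continuous_snd.snd
  have h3 : IsOpen {z : V d × V d × V d | LinearIndependent ℝ ![z.2.1, z.2.2]} := h1.preimage h2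
  have h4 : (P, a, b) ∈ {z : V d × V d × V d | LinearIndependent ℝ ![z.2.1, z.2.2]} :=
    (h0 a b).1 hab
  filter_upwards [h3.mem_nhds h4] with z hz
  exact (h0 _ _).2 hz

private theorem pk_DD_cont (f : V d → ℝ) (fs : ContDiffOn ℝ ∞ f {0}ᶜ) (P : V d) (hP : P ≠ 0) (a b : V d)
    (g1 g2 : V d × V d × V d → V d) (h1 : Continuous g1) (h2 : Continuous g2) :
    ContinuousAt (fun z : V d × V d × V d => DD f z.1 (g1 z) (g2 z)) (P, a, b) := by
  have hm : (({0}ᶜ : Set (V d)) ×ˢ (Set.univ : Set (V d × V d))) ∈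
      𝓝 ((P, g1 (P, a, b), g2 (P, a, b)) : V d × V d × V d) :=
    (isOpen_compl_singleton.prod isOpen_univ).mem_nhds ⟨hP, trivial⟩
  have h := (DD_smooth f fs).continuousOn.continuousAt hm
  have h3 : Continuous fun z : V d × V d × V d => ((z.1, g1 z, g2 z) : V d × V d × V d) := by
    fun_prop
  exact ContinuousAt.comp (f := fun z : V d × V d × V d => ((z.1, g1 z, g2 z) : V d × V d × V d))
    (x := (P, a, b)) h h3.continuousAt

private theorem pk_D3_cont (f : V d → ℝ) (fs : ContDiffOn ℝ ∞ f {0}ᶜ) (P : V d) (hP : P ≠ 0) (a b : V d)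
    (g1 g2 g3 : V d × V d × V d → V d) (h1 : Continuous g1) (h2 : Continuous g2) (h3 : Continuous g3) :
    ContinuousAt (fun z : V d × V d × V d => D3 f z.1 (g1 z) (g2 z) (g3 z)) (P, a, b) := by
  have hm : (({0}ᶜ : Set (V d)) ×ˢ (Set.univ : Set (V d × V d × V d))) ∈
      𝓝 ((P, g1 (P, a, b), g2 (P, a, b), g3 (P, a, b)) : V d × V d × V d × V d) :=
    (isOpen_compl_singleton.prod isOpen_univ).mem_nhds ⟨hP, trivial⟩
  have h := (D3_smooth f fs).continuousOn.continuousAt hm
  have h4 : Continuous fun z : V d × V d × V d =>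
      ((z.1, g1 z, g2 z, g3 z) : V d × V d × V d × V d) := by
    fun_prop
  exact ContinuousAt.comp
    (f := fun z : V d × V d × V d => ((z.1, g1 z, g2 z, g3 z) : V d × V d × V d × V d))
    (x := (P, a, b)) h h4.continuousAt

private theorem pk_open (f : V d → ℝ) (fs : ContDiffOn ℝ ∞ f {0}ᶜ) (P : V d) (hP : P ≠ 0) (a b : V d)
    (h : ¬Pk f P a b) : ∀ᶠ z : V d × V d × V d in 𝓝 (P, a, b), ¬Pk f z.1 z.2.1 z.2.2 := by
  have ca : Continuous fun z : V d × V d × V d => z.2.1 := continuous_snd.fst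
  have cb : Continuous fun z : V d × V d × V d => z.2.2 := continuous_snd.snd
  have daa := pk_DD_cont f fs P hP a b _ _ ca ca
  have dab := pk_DD_cont f fs P hP a b _ _ ca cb
  have dbb := pk_DD_cont f fs P hP a b _ _ cb cb
  have taaa := pk_D3_cont f fs P hP a b _ _ _ ca ca ca
  have taab := pk_D3_cont f fs P hP a b _ _ _ ca ca cb
  have tabb := pk_D3_cont f fs P hP a b _ _ _ ca cb cb
  have tbbb := pk_D3_cont f fs P hP a b _ _ _ cb cb cb
  have k3 : ContinuousAt (fun _ : V d × V d × V d => (3 : ℝ)) (P, a, b) := continuousAt_const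
  have k2 : ContinuousAt (fun _ : V d × V d × V d => (2 : ℝ)) (P, a, b) := continuousAt_const
  have k6 : ContinuousAt (fun _ : V d × V d × V d => (6 : ℝ)) (P, a, b) := continuousAt_const
  have k4 : ContinuousAt (fun _ : V d × V d × V d => (4 : ℝ)) (P, a, b) := continuousAt_const
  have F1 := ((taaa.mul (dbb.pow 2)).sub (((k3.mul daa).mul dbb).mul tabb)).add
    (((k2.mul daa).mul dab).mul tbbb)
  have F2 := ((((k3.mul taab).mul (dbb.pow 2)).sub ((daa.mul dbb).mul tbbb)).sub
    (((k6.mul dab).mul dbb).mul tabb)).add ((k4.mul (dab.pow 2)).mul tbbb)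
  rw [Pk, not_and_or] at h
  rcases h with h | h
  · filter_upwards [F1.eventually_ne h] with z hz hk
    exact hz hk.1
  · filter_upwards [F2.eventually_ne h] with z hz hk
    exact hz hk.2

theorem pick (hd : 1 ≤ d) (f w : V d → ℝ) (k : Ten d) (lo hi : ℝ) (P : V d) (hL : ∀ᶠ Q in 𝓝 P, Loc f w k lo hi Q)
    (hne : ∃ v, fderiv ℝ f P v = 0 ∧ bil (k P) v v ≠ w P * DD f P v v) (a b : V d) (ha : Tg f P a) (hb : Tg f P b)
    (hab : Ind a b) : Pk f P a b := by
  by_contra hpk
  have L := hL.self_of_nhds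
  have hP : P ≠ 0 := by
    rintro rfl
    exact absurd L.P0 (by simp)
  have fs := L.fs
  have hneg : ∀ v : V d, Tg f P v → v ≠ 0 → DD f P v v < 0 := by
    intro v hv hv0
    rw [← D2_eq f fs P hP v]
    exact L.curv v (by rw [gr_dot]; exact hv.2) hv.1 hv0
  have hb0 : b ≠ 0 := by
    rintro rfl
    have := (hab 0 1 (by simp)).2
    exact one_ne_zero this
  have hbb := hneg b hb hb0
  have e1 := pk_open f fs P hP a b hpk
  have e2 := pk_ind_open P a b hab
  have e3 : ∀ᶠ z : V d × V d × V d in 𝓝 (P, a, b), Loc f w k lo hi z.1 :=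
    (continuous_fst.tendsto (P, a, b)).eventually hL
  have e4 : ∀ᶠ z : V d × V d × V d in 𝓝 (P, a, b),
      Tg f z.1 z.2.1 → Tg f z.1 z.2.2 → Cf f w k z.1 z.2.1 z.2.2 := by
    filter_upwards [e1, e2, e3] with z h1 h2 h3 t1 t2
    exact (dich hd f w k lo hi z.1 h3 z.2.1 z.2.2 t1 t2 h2).resolve_left h1
  have e5 := eventually_eventually_nhds.2 e4
  have hc : Filter.Tendsto (fun a' : V d => ((P, a', b) : V d × V d × V d)) (𝓝 a) (𝓝 (P, a, b)) := by
    have : Continuous fun a' : V d => ((P, a', b) : V d × V d × V d) := by fun_prop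
    exact this.tendsto a
  have e6 : ∀ᶠ a' in 𝓝 a, Tg f P a' → Kb f w k P a' a' = 0 := by
    filter_upwards [hc.eventually e1, hc.eventually e2, hc.eventually e5] with a' h1 h2 h3 ht
    have ha0 : a' ≠ 0 := by
      rintro rfl
      have := (h2 1 0 (by simp)).1
      exact one_ne_zero this
    have haa := (hneg a' ht ha0).ne
    obtain ⟨c1, c2⟩ := h3.self_of_nhds ht hb
    have h1' : Kb f w k P a' a' = -(-Kb f w k P a' a' / DD f P a' a') * DD f P a' a' := by
      field_simp
    have h2' : Kb f w k P a' b = -(-Kb f w k P a' a' / DD f P a' a') * DD f P a' b := by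
      field_simp
      linear_combination c2
    have h3' : Kb f w k P b b = -(-Kb f w k P a' a' / DD f P a' a') * DD f P b b := by
      field_simp
      linear_combination -c1
    obtain ⟨α, β, hK⟩ := dif f w k lo hi P L a' b ht hb haa _ h1' h2' h3' h3
    have hs := (dich2 hd f w k lo hi P L a' b ht hb h2 _ α β h1' h2' h3' hK).resolve_left h1
    rw [h1', hs]
    ring
  have e7 : ∀ v : V d, Tg f P v → Kb f w k P v v = 0 := by
    intro v hv
    have ht : Filter.Tendsto (fun t : ℝ => a + t • v) (𝓝 0) (𝓝 a) := by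
      have : Continuous fun t : ℝ => a + t • v := by fun_prop
      have h := this.tendsto 0
      simpa using h
    have e8 : ∀ᶠ t : ℝ in 𝓝 0, Kb f w k P a a + 2 * Kb f w k P a v * t + Kb f w k P v v * t ^ 2 = 0 := by
      filter_upwards [ht.eventually e6] with t h
      rw [← Kb_exp f w k fs L.ks.symm P hP a v t]
      refine h ⟨?_, ?_⟩
      · simp [ha.1, hv.1]
      · rw [map_add, map_smul, ha.2, hv.2]
        simp
    obtain ⟨ε, hε, h⟩ := Metric.eventually_nhds_iff.1 e8
    have g0 := h (y := 0) (by simpa using hε)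
    have g1 := h (y := ε / 2) (by rw [Real.dist_eq, sub_zero, abs_of_pos (by linarith)]; linarith)
    have g2 := h (y := -(ε / 2)) (by
      rw [Real.dist_eq, sub_zero, abs_neg, abs_of_pos (by linarith)]; linarith)
    have g3 : Kb f w k P v v * ε ^ 2 = 0 := by linear_combination 2 * g1 + 2 * g2 - 4 * g0
    exact (mul_eq_zero.1 g3).resolve_right (pow_ne_zero 2 hε.ne')
  obtain ⟨v, hv, hvne⟩ := hne
  have hP0 : P 0 ≠ 0 := L.P0.ne'
  obtain ⟨c, hcd⟩ : ∃ c : ℝ, c = -(v 0 / P 0) := ⟨_, rfl⟩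
  obtain ⟨s1, s2⟩ := shift0 f fs L.fh P hP v hv c
  have ht : Tg f P (v + c • P) := by
    refine ⟨?_, s2⟩
    rw [hcd]
    simp only [Pi.add_apply, Pi.smul_apply, smul_eq_mul]
    field_simp
    ring
  have h9 := e7 _ ht
  rw [Kb, s1, s2] at h9
  have ht1 : ∀ u : V d, bil (k P) P u = 0 := fun u => by
    rw [← val_eq]; exact L.ks.tan P u
  have ht2 : ∀ u : V d, bil (k P) u P = 0 := fun u => by
    rw [bil_comm (L.ks.symm P)]; exact ht1 u
  rw [bil_add_left, bil_add_right, bil_smul_left, bil_add_right, bil_smul_right, bil_smul_right, ht1, ht1,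
    ht2] at h9
  apply hvne
  linear_combination h9

end Pool.Agent.Work.MP_659252_gt.QR
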