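import Pool.Agent.Work.MP_659252_gt.QR.L.BilB
import Pool.Agent.Work.MP_659252_gt.QR.L.Far

/-!
# The data are polynomials in the direction.  Size: M.

PROOF.  `poly_line`, induction on `j` for all `F`: for `τ` near `0` the derivative of `τ ↦ F (P + τ V)`, `V = a + x b`, is `fderiv F (P + τ V) V = fderiv F (P + τ V) a + x fderiv F (P + τ V) b`, and
`y ↦ fderiv F y a`, `y ↦ fderiv F y b` are smooth on `{0}ᶜ`; `iteratedDeriv_succ'` (and `Filter.EventuallyEq.iteratedDeriv_eq`, `iteratedDeriv_add`, `iteratedDeriv_const_mul`).  Case `j = 0`: constant.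
`pols`: `γ`, `H1`, `H2` by `poly_line` (`F = f`, `F y = fderiv f y (gr f P)`).  `Kq f w k y V = Kb y a a + 2 x Kb y a b + x² Kb y b b` (`Kq_eq`, `Kb_exp`) for `y = P + τ V ≠ 0`, so
`K1`, `K2` by `poly_line` for `y ↦ Kb y a a`, ....  `Ef_eq`: `Ef P V 0 = 2 Kb P V n = 2 (Kb P a n + x Kb P b n)`, and
`deriv (Ef P V) 0 = fderiv (y ↦ Kb y V V) P n + 2 fderiv (y ↦ Kb y V n) P V`, expand in `x` (`n = gr f P`).
-/

namespace Pool.Agent.Work.MP_659252_gt.QR

open scoped ContDiff Topology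
open Pool.Agent.Work.MP_659252_gt.Z (V Ten val Tan InT IsZoll IsMetric IsGeodesic)

variable {d : ℕ}

/-- Points of the line near the base point are nonzero. -/
private theorem near_ne (P : V d) (hP : P ≠ 0) (v : V d) : ∀ᶠ τ : ℝ in 𝓝 0, P + τ • v ≠ 0 := by
  have hc : Continuous fun τ : ℝ => P + τ • v := by fun_prop
  have h0 : (fun τ : ℝ => P + τ • v) 0 ∈ ({0}ᶜ : Set (V d)) := by simpa using hP
  exact hc.continuousAt.eventually_mem (isOpen_compl_singleton.mem_nhds h0)

/-- A smooth function restricted to a line. -/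
private theorem line_cda (F : V d → ℝ) (hF : ContDiffOn ℝ ∞ F {0}ᶜ) (P : V d) (v : V d) (τ : ℝ)
    (h : P + τ • v ≠ 0) : ContDiffAt ℝ ∞ (fun τ : ℝ => F (P + τ • v)) τ := by
  have h1 : ContDiffAt ℝ ∞ F (P + τ • v) := hF.contDiffAt (isOpen_compl_singleton.mem_nhds h)
  have h2 : ContDiffAt ℝ ∞ (fun τ : ℝ => P + τ • v) τ := by fun_prop
  exact ContDiffAt.comp τ h1 h2

/-- The derivative of a smooth function along a line. -/
private theorem line_der (F : V d → ℝ) (hF : ContDiffOn ℝ ∞ F {0}ᶜ) (P : V d) (v : V d) (τ : ℝ)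
    (h : P + τ • v ≠ 0) : deriv (fun τ : ℝ => F (P + τ • v)) τ = fderiv ℝ F (P + τ • v) v := by
  have h1 : DifferentiableAt ℝ F (P + τ • v) :=
    (hF.contDiffAt (isOpen_compl_singleton.mem_nhds h)).differentiableAt (by simp)
  have h2 : HasDerivAt (fun τ : ℝ => P + τ • v) v τ := by
    have := ((hasDerivAt_id τ).smul_const v).const_add P
    simpa using this
  exact (h1.hasFDerivAt.comp_hasDerivAt τ h2).deriv

private theorem fd_smooth (F : V d → ℝ) (hF : ContDiffOn ℝ ∞ F {0}ᶜ) (a : V d) :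
    ContDiffOn ℝ ∞ (fun y => fderiv ℝ F y a) {0}ᶜ := by
  have h := hF.fderiv_of_isOpen (m := ∞) isOpen_compl_singleton (by simp)
  exact h.clm_apply contDiffOn_const

theorem poly_line (F : V d → ℝ) (hF : ContDiffOn ℝ ∞ F {0}ᶜ) (P : V d) (hP : P ≠ 0) (a b : V d) (j : ℕ) :
    ∃ p : Polynomial ℝ, ∀ x : ℝ, iteratedDeriv j (fun τ : ℝ => F (P + τ • (a + x • b))) 0 = p.eval x := by
  induction j generalizing F with
  | zero => exact ⟨Polynomial.C (F P), fun x => by simp⟩
  | succ j ih =>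
    obtain ⟨p, hp⟩ := ih (fun y => fderiv ℝ F y a) (fd_smooth F hF a)
    obtain ⟨q, hq⟩ := ih (fun y => fderiv ℝ F y b) (fd_smooth F hF b)
    refine ⟨p + Polynomial.X * q, fun x => ?_⟩
    have hev : deriv (fun τ : ℝ => F (P + τ • (a + x • b))) =ᶠ[𝓝 0]
        ((fun τ : ℝ => fderiv ℝ F (P + τ • (a + x • b)) a) +
          fun τ : ℝ => x * fderiv ℝ F (P + τ • (a + x • b)) b) := by
      filter_upwards [near_ne P hP (a + x • b)] with τ hτ
      rw [line_der F hF P _ τ hτ]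
      simp [map_add, map_smul]
    have h0 : P + (0 : ℝ) • (a + x • b) ≠ 0 := by simpa using hP
    have ha := line_cda (fun y => fderiv ℝ F y a) (fd_smooth F hF a) P (a + x • b) 0 h0
    have hb := line_cda (fun y => fderiv ℝ F y b) (fd_smooth F hF b) P (a + x • b) 0 h0
    have hb' : ContDiffAt ℝ ∞ (fun τ : ℝ => x * fderiv ℝ F (P + τ • (a + x • b)) b) 0 := contDiffAt_const.mul hb
    rw [iteratedDeriv_succ', hev.iteratedDeriv_eq, iteratedDeriv_add (ha.of_le (by exact_mod_cast le_top))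
      (hb'.of_le (by exact_mod_cast le_top)), iteratedDeriv_const_mul_field, hp, hq]
    simp

private theorem Kb_line_smooth (f w : V d → ℝ) (k : Ten d) (lo hi : ℝ) (P : V d) (L : Loc f w k lo hi P) (a b : V d) :
    ContDiffOn ℝ ∞ (fun y => Kb f w k y a b) {0}ᶜ := by
  have h := Kb_smooth f w k L.fs L.ws L.ks.smooth
  have h2 : ContDiffOn ℝ ∞ (fun y : V d => ((y, a, b) : V d × V d × V d)) {0}ᶜ := by fun_prop
  exact h.comp h2 (fun y hy => ⟨hy, Set.mem_univ _⟩)

private theorem tg_ne (f w : V d → ℝ) (k : Ten d) (lo hi : ℝ) (P : V d) (L : Loc f w k lo hi P) (v : V d)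
    (hv : v 0 = 0) (τ : ℝ) : P + τ • v ≠ 0 := by
  intro h
  have h1 := congrFun h 0
  simp [hv] at h1
  exact absurd h1 L.P0.ne'

private theorem tg_line (f : V d → ℝ) (P a b : V d) (ha : Tg f P a) (hb : Tg f P b) (x : ℝ) : Tg f P (a + x • b) := by
  refine ⟨?_, ?_⟩
  · simp [ha.1, hb.1]
  · simp [map_add, map_smul, ha.2, hb.2]

private theorem Kq_line (f w : V d → ℝ) (k : Ten d) (lo hi : ℝ) (P : V d) (L : Loc f w k lo hi P) (a b : V d)
    (ha : Tg f P a) (hb : Tg f P b) (x τ : ℝ) :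
    Kq f w k (P + τ • (a + x • b)) (a + x • b) = Kb f w k (P + τ • (a + x • b)) a a +
      (2 * x) * Kb f w k (P + τ • (a + x • b)) a b + x ^ 2 * Kb f w k (P + τ • (a + x • b)) b b := by
  rw [Kq_eq, Kb_exp f w k L.fs L.ks.symm _ (tg_ne f w k lo hi P L _ (tg_line f P a b ha hb x).1 τ)]
  ring

/-- The derivatives of `Kq` along the lines are polynomials in the direction. -/
private theorem Kq_pol (f w : V d → ℝ) (k : Ten d) (lo hi : ℝ) (P : V d) (L : Loc f w k lo hi P) (a b : V d)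
    (ha : Tg f P a) (hb : Tg f P b) (j : ℕ) : ∃ p : Polynomial ℝ, ∀ x : ℝ,
      iteratedDeriv j (fun τ : ℝ => Kq f w k (P + τ • (a + x • b)) (a + x • b)) 0 = p.eval x := by
  have hP : P ≠ 0 := by
    have := tg_ne f w k lo hi P L 0 rfl 0
    simpa using this
  obtain ⟨p, hp⟩ := poly_line (fun y => Kb f w k y a a) (Kb_line_smooth f w k lo hi P L a a) P hP a b j
  obtain ⟨q, hq⟩ := poly_line (fun y => Kb f w k y a b) (Kb_line_smooth f w k lo hi P L a b) P hP a b j
  obtain ⟨r, hr⟩ := poly_line (fun y => Kb f w k y b b) (Kb_line_smooth f w k lo hi P L b b) P hP a b j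
  refine ⟨p + 2 * Polynomial.X * q + Polynomial.X ^ 2 * r, fun x => ?_⟩
  have he : (fun τ : ℝ => Kq f w k (P + τ • (a + x • b)) (a + x • b)) =
      ((fun τ : ℝ => Kb f w k (P + τ • (a + x • b)) a a) +
        fun τ : ℝ => (2 * x) * Kb f w k (P + τ • (a + x • b)) a b) +
        fun τ : ℝ => x ^ 2 * Kb f w k (P + τ • (a + x • b)) b b := by
    funext τ
    simp only [Pi.add_apply]
    exact Kq_line f w k lo hi P L a b ha hb x τ
  have h0 : P + (0 : ℝ) • (a + x • b) ≠ 0 := by simpa using hP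
  have h1 := line_cda (fun y => Kb f w k y a a) (Kb_line_smooth f w k lo hi P L a a) P (a + x • b) 0 h0
  have h2 := line_cda (fun y => Kb f w k y a b) (Kb_line_smooth f w k lo hi P L a b) P (a + x • b) 0 h0
  have h3 := line_cda (fun y => Kb f w k y b b) (Kb_line_smooth f w k lo hi P L b b) P (a + x • b) 0 h0
  have h2' : ContDiffAt ℝ ∞ (fun τ : ℝ => (2 * x) * Kb f w k (P + τ • (a + x • b)) a b) 0 := contDiffAt_const.mul h2
  have h3' : ContDiffAt ℝ ∞ (fun τ : ℝ => x ^ 2 * Kb f w k (P + τ • (a + x • b)) b b) 0 := contDiffAt_const.mul h3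
  have h12 : ContDiffAt ℝ ∞ ((fun τ : ℝ => Kb f w k (P + τ • (a + x • b)) a a) +
      fun τ : ℝ => (2 * x) * Kb f w k (P + τ • (a + x • b)) a b) 0 := h1.add h2'
  rw [he, iteratedDeriv_add (h12.of_le (by exact_mod_cast le_top)) (h3'.of_le (by exact_mod_cast le_top)),
    iteratedDeriv_add (h1.of_le (by exact_mod_cast le_top)) (h2'.of_le (by exact_mod_cast le_top)),
    iteratedDeriv_const_mul_field, iteratedDeriv_const_mul_field, hp, hq, hr]
  simp

/-- `y ↦ Kb y V V`, `V = a + x b`, has a derivative which is polynomial in `x`. -/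
private theorem fd_KbVV (f w : V d → ℝ) (k : Ten d) (lo hi : ℝ) (P : V d) (L : Loc f w k lo hi P) (hP : P ≠ 0)
    (a b n : V d) (x : ℝ) : fderiv ℝ (fun y => Kb f w k y (a + x • b) (a + x • b)) P n =
      fderiv ℝ (fun y => Kb f w k y a a) P n + (2 * x) * fderiv ℝ (fun y => Kb f w k y a b) P n +
        x ^ 2 * fderiv ℝ (fun y => Kb f w k y b b) P n := by
  have hev : (fun y => Kb f w k y (a + x • b) (a + x • b)) =ᶠ[𝓝 P]
      fun y => Kb f w k y a a + (2 * x) * Kb f w k y a b + x ^ 2 * Kb f w k y b b := by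
    filter_upwards [isOpen_compl_singleton.mem_nhds (show P ∈ ({0}ᶜ : Set (V d)) from hP)] with y hy
    rw [Kb_exp f w k L.fs L.ks.symm y hy]
    ring
  have hd : ∀ a b : V d, DifferentiableAt ℝ (fun y => Kb f w k y a b) P := fun a b =>
    ((Kb_line_smooth f w k lo hi P L a b).contDiffAt (isOpen_compl_singleton.mem_nhds hP)).differentiableAt (by simp)
  have h : HasFDerivAt (fun y => Kb f w k y a a + (2 * x) * Kb f w k y a b + x ^ 2 * Kb f w k y b b)
      (fderiv ℝ (fun y => Kb f w k y a a) P + (2 * x) • fderiv ℝ (fun y => Kb f w k y a b) P +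
        x ^ 2 • fderiv ℝ (fun y => Kb f w k y b b) P) P :=
    ((hd a a).hasFDerivAt.add ((hd a b).hasFDerivAt.const_mul (2 * x))).add ((hd b b).hasFDerivAt.const_mul (x ^ 2))
  rw [hev.fderiv_eq, h.fderiv]
  simp

private theorem Kb_add_left' (f w : V d → ℝ) (k : Ten d) (lo hi : ℝ) (P : V d) (L : Loc f w k lo hi P) (y : V d)
    (hy : y ≠ 0) (a b n : V d) (x : ℝ) :
    Kb f w k y (a + x • b) n = Kb f w k y a n + x * Kb f w k y b n := by
  rw [Kb_comm f w k L.fs L.ks.symm y hy (a + x • b) n, Kb_add_right, Kb_smul_right,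
    Kb_comm f w k L.fs L.ks.symm y hy n a, Kb_comm f w k L.fs L.ks.symm y hy n b]

private theorem fd_KbVn (f w : V d → ℝ) (k : Ten d) (lo hi : ℝ) (P : V d) (L : Loc f w k lo hi P) (hP : P ≠ 0)
    (a b n : V d) (x : ℝ) : fderiv ℝ (fun y => Kb f w k y (a + x • b) n) P (a + x • b) =
      (fderiv ℝ (fun y => Kb f w k y a n) P a + x * fderiv ℝ (fun y => Kb f w k y a n) P b) +
        x * (fderiv ℝ (fun y => Kb f w k y b n) P a + x * fderiv ℝ (fun y => Kb f w k y b n) P b) := by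
  have hev : (fun y => Kb f w k y (a + x • b) n) =ᶠ[𝓝 P] fun y => Kb f w k y a n + x * Kb f w k y b n := by
    filter_upwards [isOpen_compl_singleton.mem_nhds (show P ∈ ({0}ᶜ : Set (V d)) from hP)] with y hy
    exact Kb_add_left' f w k lo hi P L y hy a b n x
  have hd : ∀ a b : V d, DifferentiableAt ℝ (fun y => Kb f w k y a b) P := fun a b =>
    ((Kb_line_smooth f w k lo hi P L a b).contDiffAt (isOpen_compl_singleton.mem_nhds hP)).differentiableAt (by simp)
  have h : HasFDerivAt (fun y => Kb f w k y a n + x * Kb f w k y b n)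
      (fderiv ℝ (fun y => Kb f w k y a n) P + x • fderiv ℝ (fun y => Kb f w k y b n) P) P :=
    (hd a n).hasFDerivAt.add ((hd b n).hasFDerivAt.const_mul x)
  rw [hev.fderiv_eq, h.fderiv]
  simp

/-- The derivative of `Ef` at `0`. -/
private theorem Ef_der (f w : V d → ℝ) (k : Ten d) (lo hi : ℝ) (P : V d) (L : Loc f w k lo hi P) (hP : P ≠ 0)
    (v : V d) (hv : Tg f P v) : deriv (Ef f w k P v) 0 =
      fderiv ℝ (fun y => Kb f w k y v v) P (gr f P) + 2 * fderiv ℝ (fun y => Kb f w k y v (gr f P)) P v := by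
  have he : Ef f w k P v = fun τ : ℝ => τ * fderiv ℝ (fun y => Kb f w k y v v) (P + τ • v) (gr f P) +
      2 * Kb f w k (P + τ • v) v (gr f P) := funext fun τ => Ef_eq f w k lo hi P L v hv τ
  have h0 : P + (0 : ℝ) • v ≠ 0 := by simpa using hP
  have hs1 := Kb_line_smooth f w k lo hi P L v v
  have hs2 := Kb_line_smooth f w k lo hi P L v (gr f P)
  have h1 := line_cda (fun y => fderiv ℝ (fun y => Kb f w k y v v) y (gr f P))
    (fd_smooth _ hs1 (gr f P)) P v 0 h0
  have h1' : HasDerivAt (fun τ : ℝ => fderiv ℝ (fun y => Kb f w k y v v) (P + τ • v) (gr f P))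
      (deriv (fun τ : ℝ => fderiv ℝ (fun y => Kb f w k y v v) (P + τ • v) (gr f P)) 0) 0 :=
    (h1.differentiableAt (by simp)).hasDerivAt
  have h2 := line_cda (fun y => Kb f w k y v (gr f P)) hs2 P v 0 h0
  have h2' : HasDerivAt (fun τ : ℝ => Kb f w k (P + τ • v) v (gr f P))
      (fderiv ℝ (fun y => Kb f w k y v (gr f P)) P v) 0 := by
    have h3 := (h2.differentiableAt (by simp)).hasDerivAt
    rw [line_der _ hs2 P v 0 h0] at h3
    simpa using h3
  have h4 := ((hasDerivAt_id (0 : ℝ)).mul h1').add (h2'.const_mul 2)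
  rw [he]
  have h5 := h4.deriv
  simp only [id_eq, one_mul, zero_mul, add_zero, zero_smul] at h5
  exact h5

theorem pols (f w : V d → ℝ) (k : Ten d) (lo hi : ℝ) (P : V d) (L : Loc f w k lo hi P) (a b : V d) (ha : Tg f P a)
    (hb : Tg f P b) : ∃ γ H1 H2 K1 K2 E0 E1 : Polynomial ℝ, ∀ x : ℝ,
      iteratedDeriv 4 (fun τ : ℝ => f (P + τ • (a + x • b))) 0 = γ.eval x ∧
      deriv (fun τ : ℝ => fderiv ℝ f (P + τ • (a + x • b)) (gr f P)) 0 = H1.eval x ∧
      iteratedDeriv 2 (fun τ : ℝ => fderiv ℝ f (P + τ • (a + x • b)) (gr f P)) 0 = H2.eval x ∧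
      deriv (fun τ : ℝ => Kq f w k (P + τ • (a + x • b)) (a + x • b)) 0 = K1.eval x ∧
      iteratedDeriv 2 (fun τ : ℝ => Kq f w k (P + τ • (a + x • b)) (a + x • b)) 0 = K2.eval x ∧
      Ef f w k P (a + x • b) 0 = E0.eval x ∧ deriv (Ef f w k P (a + x • b)) 0 = E1.eval x := by
  have hP : P ≠ 0 := by
    have := tg_ne f w k lo hi P L 0 rfl 0
    simpa using this
  obtain ⟨γ, hγ⟩ := poly_line f L.fs P hP a b 4
  obtain ⟨H1, hH1⟩ := poly_line (fun y => fderiv ℝ f y (gr f P)) (fd_smooth f L.fs _) P hP a b 1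
  obtain ⟨H2, hH2⟩ := poly_line (fun y => fderiv ℝ f y (gr f P)) (fd_smooth f L.fs _) P hP a b 2
  obtain ⟨K1, hK1⟩ := Kq_pol f w k lo hi P L a b ha hb 1
  obtain ⟨K2, hK2⟩ := Kq_pol f w k lo hi P L a b ha hb 2
  refine ⟨γ, H1, H2, K1, K2, Polynomial.C (2 * Kb f w k P a (gr f P)) +
      Polynomial.X * Polynomial.C (2 * Kb f w k P b (gr f P)),
    (Polynomial.C (fderiv ℝ (fun y => Kb f w k y a a) P (gr f P)) +
      2 * Polynomial.X * Polynomial.C (fderiv ℝ (fun y => Kb f w k y a b) P (gr f P)) +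
      Polynomial.X ^ 2 * Polynomial.C (fderiv ℝ (fun y => Kb f w k y b b) P (gr f P))) +
    2 * ((Polynomial.C (fderiv ℝ (fun y => Kb f w k y a (gr f P)) P a) +
        Polynomial.X * Polynomial.C (fderiv ℝ (fun y => Kb f w k y a (gr f P)) P b)) +
      Polynomial.X * (Polynomial.C (fderiv ℝ (fun y => Kb f w k y b (gr f P)) P a) +
        Polynomial.X * Polynomial.C (fderiv ℝ (fun y => Kb f w k y b (gr f P)) P b))),
    fun x => ⟨hγ x, ?_, hH2 x, ?_, hK2 x, ?_, ?_⟩⟩
  · rw [← hH1 x, iteratedDeriv_one]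
  · rw [← hK1 x, iteratedDeriv_one]
  · rw [Ef_eq f w k lo hi P L _ (tg_line f P a b ha hb x) 0, zero_mul, zero_add, zero_smul, add_zero,
      Kb_add_left' f w k lo hi P L P hP]
    simp only [Polynomial.eval_add, Polynomial.eval_mul, Polynomial.eval_C, Polynomial.eval_X]
    ring
  · rw [Ef_der f w k lo hi P L hP _ (tg_line f P a b ha hb x), fd_KbVV f w k lo hi P L hP,
      fd_KbVn f w k lo hi P L hP]
    simp only [Polynomial.eval_add, Polynomial.eval_mul, Polynomial.eval_C, Polynomial.eval_X, Polynomial.eval_pow,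
      Polynomial.eval_ofNat]

end Pool.Agent.Work.MP_659252_gt.QR
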