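import Mathlib

/-!
# Functions with vanishing third derivative, and their pointwise limits.  Size: S.

PROOF.  `quad3`: `iteratedDeriv 2 F` is constant (`is_const_of_deriv_eq_zero`), so `F - (c/2) x²` has constant derivative, ... : `F x = α + β x + γ x²`, and the identity holds for such `F`
(`ring`).  `quad_lim`: both sides of the identity converge; uniqueness of limits.
-/

namespace Pool.Agent.Work.MP_659252_gt.QR

open scoped ContDiff Topology

theorem quad3 (F : ℝ → ℝ) (hF : ContDiff ℝ ∞ F) (h : ∀ x, iteratedDeriv 3 F x = 0) (x : ℝ) :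
    F x = F 0 * (1 - x ^ 2) + F 1 * ((x ^ 2 + x) / 2) + F (-1) * ((x ^ 2 - x) / 2) := by
  have hd : ∀ n : ℕ, Differentiable ℝ (iteratedDeriv n F) := fun n =>
    hF.differentiable_iteratedDeriv n (by exact_mod_cast WithTop.coe_lt_top _)
  have h2 : ∀ x, iteratedDeriv 2 F x = iteratedDeriv 2 F 0 := fun x =>
    is_const_of_deriv_eq_zero (hd 2) (fun y => by
      rw [← iteratedDeriv_succ]
      exact h y) x 0
  set c := iteratedDeriv 2 F 0 with hc
  have h1 : ∀ x, iteratedDeriv 1 F x = iteratedDeriv 1 F 0 + c * x := by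
    intro x
    have hdd : Differentiable ℝ (fun x => iteratedDeriv 1 F x - c * x) :=
      (hd 1).sub (differentiable_id.const_mul c)
    have hz : ∀ y, deriv (fun x => iteratedDeriv 1 F x - c * x) y = 0 := by
      intro y
      have e1 : HasDerivAt (iteratedDeriv 1 F) (iteratedDeriv 2 F y) y := by
        rw [iteratedDeriv_succ (n := 1)]
        exact ((hd 1) y).hasDerivAt
      have e2 : HasDerivAt (fun x => iteratedDeriv 1 F x - c * x) (iteratedDeriv 2 F y - c * 1) y :=
        e1.sub ((hasDerivAt_id y).const_mul c)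
      rw [e2.deriv, h2 y]
      ring
    have := is_const_of_deriv_eq_zero hdd hz x 0
    simp only [mul_zero, sub_zero] at this
    linarith
  have h0 : ∀ x, F x = F 0 + iteratedDeriv 1 F 0 * x + c / 2 * x ^ 2 := by
    intro x
    have hd0 : Differentiable ℝ F := by
      have := hd 0
      rwa [iteratedDeriv_zero] at this
    have hz : ∀ y, HasDerivAt (fun x => F x - (iteratedDeriv 1 F 0 * x + c / 2 * x ^ 2)) 0 y := by
      intro y
      have e1 : HasDerivAt F (iteratedDeriv 1 F y) y := by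
        rw [iteratedDeriv_one]
        exact (hd0 y).hasDerivAt
      have e3 : HasDerivAt (fun x : ℝ => x ^ 2) (2 * y) y := by
        simpa using hasDerivAt_pow 2 y
      have e2 : HasDerivAt (fun x => F x - (iteratedDeriv 1 F 0 * x + c / 2 * x ^ 2))
          (iteratedDeriv 1 F y - (iteratedDeriv 1 F 0 * 1 + c / 2 * (2 * y))) y :=
        e1.sub (((hasDerivAt_id y).const_mul (iteratedDeriv 1 F 0)).add (e3.const_mul (c / 2)))
      have e4 : iteratedDeriv 1 F y - (iteratedDeriv 1 F 0 * 1 + c / 2 * (2 * y)) = 0 := by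
        rw [h1 y]
        ring
      rwa [e4] at e2
    have := is_const_of_deriv_eq_zero (fun y => (hz y).differentiableAt)
      (fun y => (hz y).deriv) x 0
    simp only [mul_zero, ne_eq, OfNat.ofNat_ne_zero, not_false_eq_true, zero_pow, add_zero,
      sub_zero] at this
    linarith
  rw [h0 x, h0 1, h0 (-1)]
  ring

theorem quad_lim (F : ℝ → ℝ → ℝ) (Ψ : ℝ → ℝ) (l : Filter ℝ) [l.NeBot]
    (hF : ∀ᶠ δ in l, ∀ x, F δ x = F δ 0 * (1 - x ^ 2) + F δ 1 * ((x ^ 2 + x) / 2) + F δ (-1) * ((x ^ 2 - x) / 2))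
    (hl : ∀ x, Filter.Tendsto (fun δ => F δ x) l (𝓝 (Ψ x))) (x : ℝ) :
    Ψ x = Ψ 0 * (1 - x ^ 2) + Ψ 1 * ((x ^ 2 + x) / 2) + Ψ (-1) * ((x ^ 2 - x) / 2) := by
  have h2 : Filter.Tendsto (fun δ => F δ 0 * (1 - x ^ 2) + F δ 1 * ((x ^ 2 + x) / 2) +
      F δ (-1) * ((x ^ 2 - x) / 2)) l (𝓝 (Ψ 0 * (1 - x ^ 2) + Ψ 1 * ((x ^ 2 + x) / 2) +
        Ψ (-1) * ((x ^ 2 - x) / 2))) :=
    (((hl 0).mul_const _).add ((hl 1).mul_const _)).add ((hl (-1)).mul_const _)
  exact tendsto_nhds_unique ((hl x).congr' (hF.mono fun δ hδ => hδ x)) h2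

end Pool.Agent.Work.MP_659252_gt.QR
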