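import Pool.Agent.Work.MP_659252_gt.QR.L.DPs
import Pool.Agent.Work.MP_659252_gt.QR.L.LimB
import Pool.Agent.Work.MP_659252_gt.QR.L.Pol
import Pool.Agent.Work.MP_659252_gt.QR.L.Quad
import Pool.Agent.Work.MP_659252_gt.QR.J.Star
import Pool.Agent.Work.MP_659252_gt.QR.J.Chi

/-!
# The quotient is a polynomial.  Size: M.

PROOF.  `V x = a + x b ≠ 0` (`Ind`), `Tg f P (V x)`.  `G = gr f P ⬝ gr f P = fderiv f P (gr f P)` (`gr_dot`).  For `b' : Bump lo (f P)` let `F x = Kq f w k P (V x) * fderiv (Ps f (Kq f w k) b') (P, V x) (0, gr f P)`.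
`F` is smooth (`nbh` at `(P, V x)`: `Ps` smooth near `(P, V x)`), and `iteratedDeriv 3 F x = 0` for all `x`, by `star` with `v = V x`, `u = b` (`V x + t b = V (x + t)`; `iteratedDeriv` of a translate).
So `quad3` applies to `F`.  Take `χ` from `exists_chi`, `b_δ y = χ ((f P - y)/δ²)`, a `Bump lo (f P)` for small `δ > 0` (it vanishes unless `f P - 2 δ² ≤ y ≤ f P - δ²`).  By `DPs` and `lim1`
(`g τ = f (P + τ V)`, `H τ = fderiv f (P + τ V) (gr f P)`, `K τ = Kq (P + τ V) V`, `E = Ef f w k P V`; `κ = -DD f P V V > 0` by `curv`, `D2_eq`; `hlt` by `uniq`, `hinf` by `far` with `e = f P - lo`):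
`(δ²)⁻¹ F_δ x → Kq P V (1/2) (∫ χ) LL(..)/(3 κ⁴)`.  With `quad_lim` (for `(δ²)⁻¹ F_δ`, `l = 𝓝[>] 0`) the function `Ψ x = Kq P V LL(..)/κ⁴` (the constant `(∫ χ)/6 > 0` divided out) satisfies
`Ψ x = Ψ 0 (1 - x²) + Ψ 1 (x² + x)/2 + Ψ (-1) (x² - x)/2`, a polynomial `q`.  The entries of `LL` are those of `line_g`, `pols`; `H 0 = fderiv f P (gr f P) = G`.
-/

namespace Pool.Agent.Work.MP_659252_gt.QR

open scoped ContDiff Topology
open Pool.Agent.Work.MP_659252_gt.Z (V Ten val Tan InT IsZoll IsMetric IsGeodesic)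

variable {d : ℕ}

private theorem tg_lin {f : V d → ℝ} {P a b : V d} (ha : Tg f P a) (hb : Tg f P b) (x : ℝ) :
    Tg f P (a + x • b) := by
  constructor
  · simp [ha.1, hb.1]
  · rw [map_add, map_smul, ha.2, hb.2, smul_zero, add_zero]

private theorem ind_ne {a b : V d} (h : Ind a b) (x : ℝ) : a + x • b ≠ 0 := by
  intro h0
  have h1 := h 1 x (by rw [one_smul]; exact h0)
  exact one_ne_zero h1.1

private theorem q_ne {P v : V d} (hP : 0 < P 0) (hv : v 0 = 0) (τ : ℝ) : P + τ • v ≠ 0 := by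
  intro h
  have h1 := congrFun h 0
  simp only [Pi.add_apply, Pi.smul_apply, hv, smul_zero, add_zero, Pi.zero_apply] at h1
  exact hP.ne' h1

private theorem q_cd {h : V d → ℝ} (hs : ContDiffOn ℝ ∞ h {0}ᶜ) {P v : V d} (hP : 0 < P 0)
    (hv : v 0 = 0) : ContDiff ℝ ∞ (fun τ : ℝ => h (P + τ • v)) :=
  hs.comp_contDiff (contDiff_const.add (contDiff_id.smul contDiff_const)) (fun τ => q_ne hP hv τ)

private theorem q_fd {h : V d → ℝ} (hs : ContDiffOn ℝ ∞ h {0}ᶜ) (a : V d) :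
    ContDiffOn ℝ ∞ (fun y => fderiv ℝ h y a) {0}ᶜ := by
  have h1 : ContDiffOn ℝ ∞ (fderiv ℝ h) ({0}ᶜ : Set (V d)) :=
    hs.fderiv_of_isOpen isOpen_compl_singleton (by simp)
  exact h1.clm_apply contDiffOn_const

private theorem q_Kb {f w : V d → ℝ} {k : Ten d} (fs : ContDiffOn ℝ ∞ f {0}ᶜ)
    (ws : ContDiffOn ℝ ∞ w {0}ᶜ) (ks : ContDiffOn ℝ ∞ k {0}ᶜ) (a b : V d) :
    ContDiffOn ℝ ∞ (fun y => Kb f w k y a b) {0}ᶜ := by
  have h1 : ContDiffOn ℝ ∞ (fun y : V d => ((y, a, b) : V d × V d × V d)) {0}ᶜ :=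
    contDiffOn_id.prodMk (contDiffOn_const.prodMk contDiffOn_const)
  exact (Kb_smooth f w k fs ws ks).comp h1 (fun y hy => ⟨hy, Set.mem_univ _⟩)

private theorem q_Ef (f w : V d → ℝ) (k : Ten d) (lo hi : ℝ) (P : V d) (L : Loc f w k lo hi P)
    (v : V d) (hv : Tg f P v) : ContDiff ℝ ∞ (Ef f w k P v) := by
  have h1 : Ef f w k P v = fun τ => τ * fderiv ℝ (fun y => Kb f w k y v v) (P + τ • v) (gr f P) +
      2 * Kb f w k (P + τ • v) v (gr f P) := by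
    funext τ
    exact Ef_eq f w k lo hi P L v hv τ
  rw [h1]
  have h2 := q_cd (q_fd (q_Kb L.fs L.ws L.ks.smooth v v) (gr f P)) L.P0 hv.1
  have h3 := q_cd (q_Kb L.fs L.ws L.ks.smooth v (gr f P)) L.P0 hv.1
  exact (contDiff_id.mul h2).add (contDiff_const.mul h3)

/-- the profile -/
private noncomputable def bd (f : V d → ℝ) (P : V d) (χ : ℝ → ℝ) (δ : ℝ) : ℝ → ℝ :=
  fun y => χ ((f P - y) / δ ^ 2)

private theorem bd_bump (f : V d → ℝ) (P : V d) (χ : ℝ → ℝ) (hχ : ContDiff ℝ ∞ χ)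
    (hs : ∀ s, s ∉ Set.Icc (1 : ℝ) 2 → χ s = 0) (lo δ : ℝ) (hδ : 0 < δ)
    (h : 2 * δ ^ 2 < f P - lo) : Bump lo (f P) (bd f P χ δ) := by
  have hd : 0 < δ ^ 2 := by positivity
  refine ⟨?_, f P - 2 * δ ^ 2, f P - δ ^ 2, by linarith, by linarith, ?_⟩
  · unfold bd
    exact hχ.comp ((contDiff_const.sub contDiff_id).div_const _)
  · intro s hs1
    apply hs
    intro hm
    apply hs1
    obtain ⟨h1, h2⟩ := hm
    rw [le_div_iff₀ hd] at h1
    rw [div_le_iff₀ hd] at h2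
    exact ⟨by linarith, by linarith⟩

/-- the function of the direction -/
private noncomputable def Fd (f w : V d → ℝ) (k : Ten d) (P a b : V d) (β : ℝ → ℝ) : ℝ → ℝ :=
  fun x => Kq f w k P (a + x • b) *
    fderiv ℝ (Ps f (Kq f w k) β) (P, a + x • b) (0, gr f P)

private theorem Fd_smooth (f w : V d → ℝ) (k : Ten d) (lo hi : ℝ) (P : V d) (L : Loc f w k lo hi P)
    (a b : V d) (ha : Tg f P a) (hb : Tg f P b) (hab : Ind a b) (β : ℝ → ℝ)
    (hβ : Bump lo (f P) β) : ContDiff ℝ ∞ (Fd f w k P a b β) := by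
  have hP : P ≠ 0 := by
    intro h
    have := L.P0
    rw [h] at this
    simp at this
  have h1 : ContDiff ℝ ∞ (fun x : ℝ => Kq f w k P (a + x • b)) := by
    have e : (fun x : ℝ => Kq f w k P (a + x • b)) = fun x =>
        Kb f w k P a a + 2 * Kb f w k P a b * x + Kb f w k P b b * x ^ 2 := by
      funext x
      rw [Kq_eq]
      exact Kb_exp f w k L.fs L.ks.symm P hP a b x
    rw [e]
    fun_prop
  refine h1.mul ?_
  rw [contDiff_iff_contDiffAt]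
  intro x
  obtain ⟨U, hU, hPU, R, hR, hne, hPs, hCq, hFz⟩ :=
    nbh f w k lo hi P L β hβ (a + x • b) (tg_lin ha hb x).1 (ind_ne hab x)
  have h2 : ContDiffOn ℝ ∞ (fderiv ℝ (Ps f (Kq f w k) β)) U := hPs.fderiv_of_isOpen hU (by simp)
  have h3 : ContDiffAt ℝ ∞ (fderiv ℝ (Ps f (Kq f w k) β)) (P, a + x • b) :=
    h2.contDiffAt (hU.mem_nhds hPU)
  have h4 : ContDiffAt ℝ ∞ (fun x : ℝ => ((P, a + x • b) : V d × V d)) x := by
    have h5 : ContDiff ℝ ∞ (fun x : ℝ => ((P, a + x • b) : V d × V d)) :=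
      contDiff_const.prodMk (contDiff_const.add (contDiff_id.smul contDiff_const))
    exact h5.contDiffAt
  exact (h3.comp x h4).clm_apply contDiffAt_const

private theorem Fd_third (hd : 1 ≤ d) (f w : V d → ℝ) (k : Ten d) (lo hi : ℝ) (P : V d)
    (L : Loc f w k lo hi P) (a b : V d) (ha : Tg f P a) (hb : Tg f P b) (hab : Ind a b)
    (β : ℝ → ℝ) (hβ : Bump lo (f P) β) (x : ℝ) : iteratedDeriv 3 (Fd f w k P a b β) x = 0 := by
  have hv := tg_lin ha hb x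
  have h1 := star hd f w k lo hi P L β hβ (a + x • b) b hv.1 (ind_ne hab x)
    (by rw [gr_dot]; exact hv.2) hb.1 (by rw [gr_dot]; exact hb.2)
  have e : (fun t : ℝ => Kq f w k P (a + x • b + t • b) *
      fderiv ℝ (Ps f (Kq f w k) β) (P, a + x • b + t • b) (0, gr f P)) =
      fun t => Fd f w k P a b β (x + t) := by
    funext t
    have e2 : a + x • b + t • b = a + (x + t) • b := by
      rw [add_smul, add_assoc]
    rw [e2]
    rfl
  rw [e, iteratedDeriv_comp_const_add] at h1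
  simpa using h1

private theorem Fd_lim (f w : V d → ℝ) (k : Ten d) (lo hi : ℝ) (P : V d) (L : Loc f w k lo hi P)
    (v : V d) (hv : Tg f P v) (hv0 : v ≠ 0) (χ : ℝ → ℝ) (hχ : ContDiff ℝ ∞ χ)
    (hs : ∀ s, s ∉ Set.Icc (1 : ℝ) 2 → χ s = 0) :
    0 < -DD f P v v ∧ Filter.Tendsto (fun δ : ℝ => (δ ^ 2)⁻¹ * (Kq f w k P v *
      fderiv ℝ (Ps f (Kq f w k) (bd f P χ δ)) (P, v) (0, gr f P))) (𝓝[>] 0)
      (𝓝 (Kb f w k P v v * ((1 / 2) * ((∫ s, χ s) * LL (-DD f P v v) (D3 f P v v v)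
        (iteratedDeriv 4 (fun τ : ℝ => f (P + τ • v)) 0) (gr f P ⬝ᵥ gr f P)
        (deriv (fun τ : ℝ => fderiv ℝ f (P + τ • v) (gr f P)) 0)
        (iteratedDeriv 2 (fun τ : ℝ => fderiv ℝ f (P + τ • v) (gr f P)) 0)
        (Kb f w k P v v) (deriv (fun τ : ℝ => Kq f w k (P + τ • v) v) 0)
        (iteratedDeriv 2 (fun τ : ℝ => Kq f w k (P + τ • v) v) 0)
        (Ef f w k P v 0) (deriv (Ef f w k P v) 0) / (3 * (-DD f P v v) ^ 4))))) := by
  have hP : P ≠ 0 := by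
    intro h
    have := L.P0
    rw [h] at this
    simp at this
  have hvn : gr f P ⬝ᵥ v = 0 := by rw [gr_dot]; exact hv.2
  obtain ⟨g0, g1, g2, g3, gH, gK, -⟩ := line_g f w k lo hi P L v hv
  have hκ : 0 < -DD f P v v := by
    have h1 := L.curv v hvn hv.1 hv0
    rw [D2_eq f L.fs P hP v] at h1
    linarith
  refine ⟨hκ, ?_⟩
  have e0 : P + (0 : ℝ) • v = P := by rw [zero_smul, add_zero]
  obtain ⟨R, hR, hfar⟩ := far f w k lo hi P L v hv hv0
  have hlim := lim1 (fun τ : ℝ => f (P + τ • v)) (fun τ : ℝ => fderiv ℝ f (P + τ • v) (gr f P))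
    (fun τ : ℝ => Kq f w k (P + τ • v) v) (Ef f w k P v) χ (f P) (-DD f P v v) hκ g0 gH gK
    (q_Ef f w k lo hi P L v hv) hχ hs (by rw [e0]) g1 (by rw [g2, neg_neg])
    (fun τ hτ => L.uniq v hvn hv.1 hv0 τ hτ)
    ⟨R, hR, f P - lo, sub_pos.2 L.lo_lt, fun τ hτ => by
      have := hfar τ hτ
      show f (P + τ • v) ≤ f P - (f P - lo)
      linarith⟩
  rw [g3, e0, gr_dot] at *
  have hK0 : Kq f w k P v = Kb f w k P v v := Kq_eq f w k P v
  rw [hK0] at hlim ⊢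
  have h2 := (hlim.const_mul (1 / 2)).const_mul (Kb f w k P v v)
  refine h2.congr' ?_
  have hev : ∀ᶠ δ : ℝ in 𝓝[>] 0, 2 * δ ^ 2 < f P - lo := by
    have hc : Filter.Tendsto (fun δ : ℝ => 2 * δ ^ 2) (𝓝 0) (𝓝 (2 * 0 ^ 2)) :=
      (continuous_const.mul (continuous_id.pow 2)).continuousAt
    have hlt : (2 : ℝ) * 0 ^ 2 < f P - lo := by
      have := L.lo_lt
      norm_num
      linarith
    exact (hc.mono_left nhdsWithin_le_nhds).eventually_lt_const hlt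
  filter_upwards [hev, self_mem_nhdsWithin] with δ hδ hδ0
  have hb := bd_bump f P χ hχ hs lo δ hδ0 hδ
  have hD := DPs f w k lo hi P L _ hb v hv hv0
  have hD' : fderiv ℝ (Ps f (Kq f w k) (bd f P χ δ)) (P, v) (0, gr f P) =
      (1 / 2) * ∫ τ : ℝ, Real.sign τ *
        (deriv (fun y => χ ((f P - y) / δ ^ 2)) (f (P + τ • v)) *
          (τ * fderiv ℝ f (P + τ • v) (gr f P) * Kq f w k (P + τ • v) v) +
        χ ((f P - f (P + τ • v)) / δ ^ 2) * Ef f w k P v τ) := hD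
  rw [hD']
  ring

theorem qp (hd : 1 ≤ d) (f w : V d → ℝ) (k : Ten d) (lo hi : ℝ) (P : V d) (L : Loc f w k lo hi P) (a b : V d)
    (ha : Tg f P a) (hb : Tg f P b) (hab : Ind a b) : ∃ q γ H1 H2 K1 K2 E0 E1 : Polynomial ℝ, ∀ x : ℝ,
      K1.eval x = fderiv ℝ (fun y => Kb f w k y (a + x • b) (a + x • b)) P (a + x • b) ∧
      Kb f w k P (a + x • b) (a + x • b) * LL (-DD f P (a + x • b) (a + x • b))
        (D3 f P (a + x • b) (a + x • b) (a + x • b)) (γ.eval x) (gr f P ⬝ᵥ gr f P) (H1.eval x) (H2.eval x)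
        (Kb f w k P (a + x • b) (a + x • b)) (K1.eval x) (K2.eval x) (E0.eval x) (E1.eval x) =
      (-DD f P (a + x • b) (a + x • b)) ^ 4 * q.eval x := by
  obtain ⟨γ, H1, H2, K1, K2, E0, E1, hp⟩ := pols f w k lo hi P L a b ha hb
  obtain ⟨χ, hχ, hs, hint, -⟩ := exists_chi
  set I : ℝ := ∫ s, χ s with hI
  obtain ⟨Lx, hLx⟩ : ∃ Lx : ℝ → ℝ, Lx = fun x => LL (-DD f P (a + x • b) (a + x • b))
        (D3 f P (a + x • b) (a + x • b) (a + x • b)) (γ.eval x) (gr f P ⬝ᵥ gr f P) (H1.eval x) (H2.eval x)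
        (Kb f w k P (a + x • b) (a + x • b)) (K1.eval x) (K2.eval x) (E0.eval x) (E1.eval x) := ⟨_, rfl⟩
  obtain ⟨Ψ, hΨ⟩ : ∃ Ψ : ℝ → ℝ, Ψ = fun x => Kb f w k P (a + x • b) (a + x • b) *
      ((1 / 2) * (I * Lx x / (3 * (-DD f P (a + x • b) (a + x • b)) ^ 4))) := ⟨_, rfl⟩
  have hκ : ∀ x : ℝ, 0 < -DD f P (a + x • b) (a + x • b) := fun x =>
    (Fd_lim f w k lo hi P L (a + x • b) (tg_lin ha hb x) (ind_ne hab x) χ hχ hs).1
  have hlim : ∀ x, Filter.Tendsto (fun δ : ℝ => (δ ^ 2)⁻¹ * Fd f w k P a b (bd f P χ δ) x) (𝓝[>] 0)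
      (𝓝 (Ψ x)) := by
    intro x
    have h1 := (Fd_lim f w k lo hi P L (a + x • b) (tg_lin ha hb x) (ind_ne hab x) χ hχ hs).2
    obtain ⟨p1, p2, p3, p4, p5, p6, p7⟩ := hp x
    rw [p1, p2, p3, p4, p5, p6, p7] at h1
    rw [hΨ, hLx]
    exact h1
  have hev : ∀ᶠ δ : ℝ in 𝓝[>] 0, 2 * δ ^ 2 < f P - lo := by
    have hc : Filter.Tendsto (fun δ : ℝ => 2 * δ ^ 2) (𝓝 0) (𝓝 (2 * 0 ^ 2)) :=
      (continuous_const.mul (continuous_id.pow 2)).continuousAt
    have hlt : (2 : ℝ) * 0 ^ 2 < f P - lo := by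
      have := L.lo_lt
      norm_num
      linarith
    exact (hc.mono_left nhdsWithin_le_nhds).eventually_lt_const hlt
  have hq := quad_lim (fun δ x => (δ ^ 2)⁻¹ * Fd f w k P a b (bd f P χ δ) x) Ψ (𝓝[>] 0) (by
    filter_upwards [hev, self_mem_nhdsWithin] with δ hδ hδ0 x
    have hB := bd_bump f P χ hχ hs lo δ hδ0 hδ
    have h3 := quad3 _ (Fd_smooth f w k lo hi P L a b ha hb hab _ hB)
      (fun y => Fd_third hd f w k lo hi P L a b ha hb hab _ hB y) x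
    rw [h3]
    ring) hlim
  refine ⟨Polynomial.C (6 / I * Ψ 0) * (1 - Polynomial.X ^ 2) +
    Polynomial.C (6 / I * Ψ 1 / 2) * (Polynomial.X ^ 2 + Polynomial.X) +
    Polynomial.C (6 / I * Ψ (-1) / 2) * (Polynomial.X ^ 2 - Polynomial.X),
    γ, H1, H2, K1, K2, E0, E1, fun x => ⟨?_, ?_⟩⟩
  · obtain ⟨-, -, -, -, -, -, h7⟩ := line_g f w k lo hi P L (a + x • b) (tg_lin ha hb x)
    rw [← h7, (hp x).2.2.2.1]
  · have h1 : (Polynomial.C (6 / I * Ψ 0) * (1 - Polynomial.X ^ 2) +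
        Polynomial.C (6 / I * Ψ 1 / 2) * (Polynomial.X ^ 2 + Polynomial.X) +
        Polynomial.C (6 / I * Ψ (-1) / 2) * (Polynomial.X ^ 2 - Polynomial.X)).eval x =
        6 / I * Ψ x := by
      rw [hq x]
      simp only [Polynomial.eval_add, Polynomial.eval_mul, Polynomial.eval_C, Polynomial.eval_sub,
        Polynomial.eval_one, Polynomial.eval_pow, Polynomial.eval_X]
      ring
    rw [h1]
    have h2 : LL (-DD f P (a + x • b) (a + x • b))
        (D3 f P (a + x • b) (a + x • b) (a + x • b)) (γ.eval x) (gr f P ⬝ᵥ gr f P) (H1.eval x) (H2.eval x)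
        (Kb f w k P (a + x • b) (a + x • b)) (K1.eval x) (K2.eval x) (E0.eval x) (E1.eval x) = Lx x := by
      rw [hLx]
    rw [h2, hΨ]
    have h3 := (hκ x).ne'
    have h4 := hint.ne'
    show _ = (-DD f P (a + x • b) (a + x • b)) ^ 4 * (6 / I * (Kb f w k P (a + x • b) (a + x • b) *
      ((1 / 2) * (I * Lx x / (3 * (-DD f P (a + x • b) (a + x • b)) ^ 4)))))
    generalize -DD f P (a + x • b) (a + x • b) = κ at *
    field_simp
    ring

end Pool.Agent.Work.MP_659252_gt.QR
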